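import Pool.Agent.H40.PK.Defs

/-! Values of the vertical phase below and above the container. -/

namespace H40.PK

open H282R4.PK

open MeasureTheory
open scoped Real ENNReal
open H282R3.SQ (USq)

namespace Fends

theorem ax {n : ℕ} {sg : ℝ} {ι : Type} {Q : ι → USq} {W : ℝ} (h : PP n sg Q W) {z : ℝ × ℝ} (hz : z ∉ box n sg)
    {i : ι} (hi : z ∈ (Q i).C) : (Q i).b = 0 ∧ (Q i).a = 1 := by
  have hb : (Q i).b = 0 := h.out_ax i fun hsub => hz (hsub hi)
  refine ⟨hb, ?_⟩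
  have h1 := h.norm i
  have h2 := (Q i).unit
  rw [hb] at h1 h2
  have h3 : 0 ≤ (Q i).a := by simpa using h1
  nlinarith

theorem exp_half (m : ℤ) :
    Complex.exp (2 * π * Complex.I * ((-1 - ((m : ℝ) + 1 / 2) : ℝ) : ℂ)) = -1 := by
  have e : (2 * π * Complex.I * ((-1 - ((m : ℝ) + 1 / 2) : ℝ) : ℂ)) =
      ((-(m + 2) : ℤ) : ℂ) * (2 * π * Complex.I) + π * Complex.I := by
    push_cast
    ring
  rw [e, Complex.exp_add, Complex.exp_pi_mul_I, Complex.exp_int_mul_two_pi_mul_I]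
  ring

end Fends

open Fends

/-- T5 -/
theorem F_bottom {n : ℕ} {sg : ℝ} {ι : Type} [Countable ι] {Q : ι → USq} {W : ℝ} (h : PP n sg Q W)
    (X : ℝ) (h1 : 0 < X) (h2 : X < n + sg) : F Q (X, -1) = -1 := by
  have hz : ((X, -1) : ℝ × ℝ) ∉ box n sg := by
    intro hc
    have := hc.2.2.1
    norm_num at this
  unfold F
  rw [finsum_eq_zero_of_forall_eq_zero, add_zero]
  intro i
  by_cases hi : ((X, -1) : ℝ × ℝ) ∈ (Q i).C
  · rw [Set.indicator_of_mem hi]
    obtain ⟨hb, ha⟩ := ax h hz hi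
    obtain ⟨m, hm⟩ := h.bottom i _ hi h1 h2 (by norm_num)
    have hY : (Q i).Y (X, -1) = -1 - ((m : ℝ) + 1 / 2) := by
      simp only [USq.Y, hb, ha, hm]
      ring
    rw [hY, exp_half]
    ring
  · rw [Set.indicator_of_notMem hi]

/-- T5 -/
theorem F_top {n : ℕ} {sg : ℝ} {ι : Type} [Countable ι] {Q : ι → USq} {W : ℝ} (h : PP n sg Q W) :
    ∀ᵐ X : ℝ, 0 < X → X < n + sg →
      F Q (X, (n : ℝ) + 2) = -Complex.exp (Complex.I * ((-(2 * π * sg) : ℝ) : ℂ)) := by
  have hsg0 := h.sg_pos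
  have hsg1 := h.sg_lt
  have hcount : (⋃ i : ι, ({(Q i).p + 1 / 2, (Q i).p - 1 / 2} : Set ℝ)).Countable :=
    Set.countable_iUnion fun i => (Set.toFinite _).countable
  filter_upwards [hcount.ae_notMem volume] with X hX h1 h2
  have hz : ((X, (n : ℝ) + 2) : ℝ × ℝ) ∉ box n sg := by
    intro hc
    have := hc.2.2.2
    simp only at this
    linarith
  have key : ∀ i, ((X, (n : ℝ) + 2) : ℝ × ℝ) ∈ (Q i).C →
      (Q i).Y (X, (n : ℝ) + 2) = 1 / 2 - sg ∧ ((X, (n : ℝ) + 2) : ℝ × ℝ) ∈ (Q i).O := by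
    intro i hi
    obtain ⟨hb, ha⟩ := ax h hz hi
    obtain ⟨m, hm⟩ := h.top i _ hi h1 h2 (by simp only; linarith)
    have hY : (Q i).Y (X, (n : ℝ) + 2) = ((n + 2 - m : ℤ) : ℝ) - 1 / 2 - sg := by
      simp only [USq.Y, hb, ha, hm]
      push_cast
      ring
    have hX' : (Q i).X (X, (n : ℝ) + 2) = X - (Q i).p := by
      simp only [USq.X, hb, ha]
      ring
    have hY0 : (Q i).Y (X, (n : ℝ) + 2) = 1 / 2 - sg := by
      have h3 : |(Q i).Y (X, (n : ℝ) + 2)| ≤ 1 / 2 := hi.2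
      rw [hY] at h3 ⊢
      rw [abs_le] at h3
      have h4 : (0 : ℝ) < ((n + 2 - m : ℤ) : ℝ) := by linarith [h3.1]
      have h5 : ((n + 2 - m : ℤ) : ℝ) < 2 := by linarith [h3.2]
      have h6 : (0 : ℤ) < (n + 2 - m : ℤ) := by exact_mod_cast h4
      have h7 : (n + 2 - m : ℤ) < 2 := by exact_mod_cast h5
      have : (n + 2 - m : ℤ) = 1 := by omega
      rw [this]; norm_num
    refine ⟨hY0, ?_, ?_⟩
    · have h3 : |(Q i).X (X, (n : ℝ) + 2)| ≤ 1 / 2 := hi.1
      refine lt_of_le_of_ne h3 ?_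
      intro heq
      apply hX
      rw [Set.mem_iUnion]
      refine ⟨i, ?_⟩
      rw [hX'] at heq
      rcases abs_eq (by norm_num) |>.mp heq with h8 | h8
      · left; linarith
      · right
        simp only [Set.mem_singleton_iff]
        linarith
    · rw [hY0, abs_lt]
      constructor <;> linarith
  obtain ⟨i, hi⟩ := h.out_cov _ hz
  have huniq : ∀ j, j ≠ i → ((X, (n : ℝ) + 2) : ℝ × ℝ) ∉ (Q j).C := by
    intro j hj hjc
    exact Set.disjoint_left.mp (h.disj j i hj) (key j hjc).2 (key i hi).2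
  unfold F
  rw [finsum_eq_single _ i]
  · rw [Set.indicator_of_mem hi, (key i hi).1]
    have e : (2 * π * Complex.I * ((1 / 2 - sg : ℝ) : ℂ)) =
        π * Complex.I + Complex.I * ((-(2 * π * sg) : ℝ) : ℂ) := by
      push_cast
      ring
    rw [e, Complex.exp_add, Complex.exp_pi_mul_I]
    ring
  · intro j hj
    rw [Set.indicator_of_notMem (huniq j hj)]

end H40.PK
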