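import Pool.Agent.H40.PK.Defs
import Pool.Agent.H40.PK.Rig
import Pool.Graph.R_seed8.H282R4.PK.SlopeLem
import Pool.Agent.H40.PK.Fin
import Pool.Agent.H40.PK.Geo

/-! Slopes of the cells. -/

namespace H40.PK

open H282R4.PK

open MeasureTheory
open scoped Real ENNReal
open H282R3.SQ (USq)

namespace Slopes

theorem om_nonneg {ι : Type} (Q : ι → USq) (c : ℤ × ℤ) : 0 ≤ om Q c := ENNReal.toReal_nonneg

theorem C0_pos : 0 < C0 := by unfold C0; norm_num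

/-- the chosen square -/
theorem chosen {ι : Type} {Q : ι → USq} {c : ℤ × ℤ} (hc : nice Q c) :
    ∃ i, ((Q i).C ∩ cell c).Nonempty ∧ |slope (Q i)| ≤ 1 / 4 ∧ bet Q c = slope (Q i) := by
  refine ⟨hc.2.choose, hc.2.choose_spec.1, hc.2.choose_spec.2, ?_⟩
  unfold bet
  rw [dif_pos hc]

/-- squares meeting the neighbourhood lie in the `7 × 7` block -/
theorem sub_Kg (S : USq) (c : ℤ × ℤ) (z : ℝ × ℝ) (hz : z ∈ S.C) (h1 : (c.1 : ℝ) - 1 ≤ z.1)
    (h2 : z.1 ≤ c.1 + 2) (h3 : (c.2 : ℝ) - 1 ≤ z.2) (h4 : z.2 ≤ c.2 + 2) : S.C ⊆ Kg c := by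
  intro x hx
  obtain ⟨d1, d2⟩ := diam S x z hx hz
  rw [abs_lt] at d1 d2
  refine ⟨?_, ?_, ?_, ?_⟩ <;> linarith [d1.1, d1.2, d2.1, d2.2]

theorem sub_Kg_cell (S : USq) (c c' : ℤ × ℤ) (hS : (S.C ∩ cell c').Nonempty)
    (h1 : |c.1 - c'.1| ≤ 1) (h2 : |c.2 - c'.2| ≤ 1) : S.C ⊆ Kg c := by
  obtain ⟨z, hz, k1, k2, k3, k4⟩ := hS
  rw [abs_le] at h1 h2
  have a1 : ((c.1 : ℤ) : ℝ) - 1 ≤ c'.1 := by
    have : c.1 - 1 ≤ c'.1 := by linarith [h1.2]
    exact_mod_cast this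
  have a2 : ((c'.1 : ℤ) : ℝ) ≤ c.1 + 1 := by
    have : c'.1 ≤ c.1 + 1 := by linarith [h1.1]
    exact_mod_cast this
  have a3 : ((c.2 : ℤ) : ℝ) - 1 ≤ c'.2 := by
    have : c.2 - 1 ≤ c'.2 := by linarith [h2.2]
    exact_mod_cast this
  have a4 : ((c'.2 : ℤ) : ℝ) ≤ c.2 + 1 := by
    have : c'.2 ≤ c.2 + 1 := by linarith [h2.1]
    exact_mod_cast this
  exact sub_Kg S c z hz (by linarith) (by linarith) (by linarith) (by linarith)

theorem sub_Kg_self (S : USq) (c : ℤ × ℤ) (hS : (S.C ∩ cell c).Nonempty) : S.C ⊆ Kg c :=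
  sub_Kg_cell S c c hS (by simp) (by simp)

/-- comparison of slopes in a block with little waste -/
theorem slope_rig {n : ℕ} {sg : ℝ} {ι : Type} [Countable ι] {Q : ι → USq} {W : ℝ} (h : PP n sg Q W)
    (c : ℤ × ℤ) (hom : om Q c ≤ 1 / (16 * C0)) (i j : ι) (hi : (Q i).C ⊆ Kg c)
    (hj : (Q j).C ⊆ Kg c) (hs : |slope (Q i)| ≤ 1 / 4) :
    |slope (Q j) - slope (Q i)| ≤ 2 * C0 * om Q c := by
  have h1 := rig h c i j hi hj
  have h2 : C0 * om Q c ≤ 1 / 16 := by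
    calc C0 * om Q c ≤ C0 * (1 / (16 * C0)) := mul_le_mul_of_nonneg_left hom C0_pos.le
      _ = 1 / 16 := by
        have := C0_pos.ne'
        field_simp
  have h3 := slope_lemma (Q i) (Q j) (h.norm i) (h.norm j) hs (h1.trans h2)
  linarith

end Slopes

open Slopes

/-- T4 -/
theorem bet_le {ι : Type} (Q : ι → USq) (c : ℤ × ℤ) : |bet Q c| ≤ 1 / 4 := by
  by_cases hc : nice Q c
  · obtain ⟨i, _, h1, h2⟩ := chosen hc
    rw [h2]
    exact h1
  · unfold bet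
    rw [dif_neg hc]
    norm_num

/-- T4 -/
theorem gam_nonneg {ι : Type} (Q : ι → USq) (c : ℤ × ℤ) : 0 ≤ gam Q c := by
  unfold gam
  split_ifs
  · exact abs_nonneg _
  · norm_num

/-- T4 -/
theorem gam_le {ι : Type} (Q : ι → USq) (c : ℤ × ℤ) : gam Q c ≤ 1 / 4 := by
  unfold gam
  split_ifs
  · exact bet_le Q c
  · norm_num

/-- T4 -/
theorem slope_close {n : ℕ} {sg : ℝ} {ι : Type} [Countable ι] {Q : ι → USq} {W : ℝ} (h : PP n sg Q W)
    (c : ℤ × ℤ) (hc : nice Q c) (i : ι) (hi : (Q i).C ⊆ Kg c) :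
    |slope (Q i) - bet Q c| ≤ 2 * C0 * om Q c := by
  obtain ⟨i0, hm, hs, hb⟩ := chosen hc
  rw [hb]
  exact slope_rig h c hc.1 i0 i (sub_Kg_self _ c hm) hi hs

/-- T4 -/
theorem bet_close {n : ℕ} {sg : ℝ} {ι : Type} [Countable ι] {Q : ι → USq} {W : ℝ} (h : PP n sg Q W)
    (c c' : ℤ × ℤ) (h1 : |c.1 - c'.1| ≤ 1) (h2 : |c.2 - c'.2| ≤ 1) (hc : nice Q c)
    (hc' : nice Q c') : |bet Q c - bet Q c'| ≤ 4 * C0 * (om Q c + om Q c') := by
  obtain ⟨i, hm, hs, hb⟩ := chosen hc'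
  have h3 := slope_close h c hc i (sub_Kg_cell _ c c' hm h1 h2)
  rw [← hb, abs_sub_comm] at h3
  have p1 := mul_nonneg C0_pos.le (om_nonneg Q c)
  have p2 := mul_nonneg C0_pos.le (om_nonneg Q c')
  nlinarith

namespace Slopes

theorem quarter_le {ι : Type} {Q : ι → USq} {c : ℤ × ℤ} (hom : ¬ om Q c ≤ 1 / (16 * C0)) :
    1 / 4 ≤ 4 * C0 * om Q c := by
  have hc := C0_pos
  rw [not_le, div_lt_iff₀ (by positivity)] at hom
  nlinarith

theorem om_lt_one {ι : Type} {Q : ι → USq} {c : ℤ × ℤ} (hom : om Q c ≤ 1 / (16 * C0)) :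
    om Q c < 1 := by
  refine lt_of_le_of_lt hom ?_
  unfold C0
  norm_num

theorem gam_nice {ι : Type} {Q : ι → USq} {c : ℤ × ℤ} (hc : nice Q c) :
    gam Q c = |bet Q c| := by
  unfold gam
  rw [if_pos hc]

theorem gam_not_nice {ι : Type} {Q : ι → USq} {c : ℤ × ℤ} (hc : ¬ nice Q c) :
    gam Q c = 1 / 4 := by
  unfold gam
  rw [if_neg hc]

theorem gam_close_aux {n : ℕ} {sg : ℝ} {ι : Type} [Countable ι] {Q : ι → USq} {W : ℝ} (h : PP n sg Q W)
    (c c' : ℤ × ℤ) (h1 : |c.1 - c'.1| ≤ 1) (h2 : |c.2 - c'.2| ≤ 1) (hc : nice Q c)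
    (hc' : ¬ nice Q c') : |gam Q c - gam Q c'| ≤ 4 * C0 * (om Q c + om Q c') := by
  have p1 := mul_nonneg C0_pos.le (om_nonneg Q c)
  have p2 := mul_nonneg C0_pos.le (om_nonneg Q c')
  have g0 := gam_nonneg Q c
  have g1 := gam_le Q c
  rw [gam_not_nice hc', abs_sub_comm, abs_of_nonneg (by linarith)]
  by_cases hom : om Q c' ≤ 1 / (16 * C0)
  · obtain ⟨i, hi⟩ := exists_meet h c' (om_lt_one hom)
    have hs : 1 / 4 < |slope (Q i)| := by
      by_contra hcon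
      exact hc' ⟨hom, i, hi, not_lt.1 hcon⟩
    have h3 := slope_close h c hc i (sub_Kg_cell _ c c' hi h1 h2)
    have h4 : |slope (Q i)| - |bet Q c| ≤ |slope (Q i) - bet Q c| := abs_sub_abs_le_abs_sub _ _
    rw [gam_nice hc]
    nlinarith
  · have := quarter_le hom
    nlinarith

end Slopes

/-- T4 -/
theorem gam_close {n : ℕ} {sg : ℝ} {ι : Type} [Countable ι] {Q : ι → USq} {W : ℝ} (h : PP n sg Q W)
    (c c' : ℤ × ℤ) (h1 : |c.1 - c'.1| ≤ 1) (h2 : |c.2 - c'.2| ≤ 1) :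
    |gam Q c - gam Q c'| ≤ 4 * C0 * (om Q c + om Q c') := by
  by_cases hc : nice Q c
  · by_cases hc' : nice Q c'
    · rw [gam_nice hc, gam_nice hc']
      exact (abs_abs_sub_abs_le_abs_sub _ _).trans (bet_close h c c' h1 h2 hc hc')
    · exact gam_close_aux h c c' h1 h2 hc hc'
  · by_cases hc' : nice Q c'
    · rw [abs_sub_comm, add_comm]
      exact gam_close_aux h c' c (by rwa [abs_sub_comm]) (by rwa [abs_sub_comm]) hc' hc
    · rw [gam_not_nice hc, gam_not_nice hc', sub_self, abs_zero]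
      have p1 := om_nonneg Q c
      have p2 := om_nonneg Q c'
      have p3 := C0_pos
      positivity

/-- T4: near the outside the slopes are small. -/
theorem wall {n : ℕ} {sg : ℝ} {ι : Type} [Countable ι] {Q : ι → USq} {W : ℝ} (h : PP n sg Q W)
    (c : ℤ × ℤ) (z : ℝ × ℝ) (hz : z ∉ box n sg) (h1 : (c.1 : ℝ) - 1 ≤ z.1) (h2 : z.1 ≤ c.1 + 2)
    (h3 : (c.2 : ℝ) - 1 ≤ z.2) (h4 : z.2 ≤ c.2 + 2) :
    gam Q c ≤ 4 * C0 * om Q c ∧ |bet Q c| ≤ 4 * C0 * om Q c := by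
  by_cases hom : om Q c ≤ 1 / (16 * C0)
  · obtain ⟨i, hi⟩ := h.out_cov z hz
    have hb : (Q i).b = 0 := h.out_ax i (fun hsub => hz (hsub hi))
    have hsl : slope (Q i) = 0 := by
      unfold H282R4.PK.slope
      rw [hb, zero_div]
    have hiK : (Q i).C ⊆ Kg c := sub_Kg _ c z hi h1 h2 h3 h4
    have key : ∀ j, (Q j).C ⊆ Kg c → |slope (Q j)| ≤ 2 * C0 * om Q c := by
      intro j hj
      have := slope_rig h c hom i j hiK hj (by rw [hsl]; norm_num)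
      rwa [hsl, sub_zero] at this
    have p1 := mul_nonneg C0_pos.le (om_nonneg Q c)
    have h5 : C0 * om Q c ≤ 1 / 16 := by
      calc C0 * om Q c ≤ C0 * (1 / (16 * C0)) := mul_le_mul_of_nonneg_left hom C0_pos.le
        _ = 1 / 16 := by
          have := C0_pos.ne'
          field_simp
    obtain ⟨j, hj⟩ := exists_meet h c (om_lt_one hom)
    have hn : nice Q c := ⟨hom, j, hj, by
      have := key j (sub_Kg_self _ c hj)
      linarith⟩
    obtain ⟨i0, hm, _, hb0⟩ := chosen hn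
    have h6 := key i0 (sub_Kg_self _ c hm)
    rw [gam_nice hn, hb0]
    constructor <;> linarith
  · have h5 := quarter_le hom
    exact ⟨(gam_le Q c).trans h5, (bet_le Q c).trans h5⟩

/-- T4: far outside there is no waste and no slope. -/
theorem far_bet {n : ℕ} {sg : ℝ} {ι : Type} [Countable ι] {Q : ι → USq} {W : ℝ} (h : PP n sg Q W)
    (c : ℤ × ℤ) (hc : c.1 < -6 ∨ (n : ℤ) + 6 < c.1) : bet Q c = 0 := by
  have hfar : (c.1 : ℝ) ≤ -7 ∨ (n : ℝ) + 7 ≤ c.1 := by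
    rcases hc with hc | hc
    · left
      have : c.1 ≤ -7 := by omega
      exact_mod_cast this
    · right
      have : (n : ℤ) + 7 ≤ c.1 := by omega
      exact_mod_cast this
  have hG : Gap Q ∩ Rg c = ∅ := by
    rw [Set.eq_empty_iff_forall_notMem]
    rintro z ⟨hzG, k1, k2, k3, k4⟩
    by_cases hz : z ∈ box n sg
    · obtain ⟨b1, b2, b3, b4⟩ := hz
      rcases hfar with hf | hf <;> linarith [h.sg_lt]
    · obtain ⟨i, hi⟩ := h.out_cov z hz
      exact hzG (Set.mem_iUnion.2 ⟨i, hi⟩)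
  have hom : om Q c = 0 := by
    unfold om
    rw [hG]
    simp
  have hw := (wall h c ((c.1 : ℝ) + 1 / 2, (c.2 : ℝ) + 1 / 2) (by
    rintro ⟨b1, b2, b3, b4⟩
    simp only at b1 b2 b3 b4
    rcases hfar with hf | hf <;> linarith [h.sg_lt]) (by simp only; linarith) (by simp only; linarith)
    (by simp only; linarith) (by simp only; linarith)).2
  rw [hom, mul_zero] at hw
  exact abs_nonpos_iff.1 hw

end H40.PK
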