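import Pool.Agent.H40.PK.Defs
import Pool.Graph.R_seed8.H282R4.PK.LineAux

/-! T6 (helper58): the vertical phase along one line. -/

namespace H40.PK

open H282R4.PK

open MeasureTheory
open scoped Real ENNReal
open H282R3.SQ (USq)

namespace LineF

open Set

theorem Y_line (Q : USq) (z v : ℝ × ℝ) (s : ℝ) :
    Q.Y (z + s • v) = Q.Y z + s * (-Q.b * v.1 + Q.a * v.2) := by
  simp only [USq.Y, Prod.fst_add, Prod.snd_add, Prod.smul_fst, Prod.smul_snd, smul_eq_mul]
  ring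

theorem X_line (Q : USq) (z v : ℝ × ℝ) (s : ℝ) :
    Q.X (z + s • v) = Q.X z + s * (Q.a * v.1 + Q.b * v.2) := by
  simp only [USq.X, Prod.fst_add, Prod.snd_add, Prod.smul_fst, Prod.smul_snd, smul_eq_mul]
  ring

theorem continuous_line (z v : ℝ × ℝ) : Continuous fun s : ℝ => z + s • v := by fun_prop

/-- the trace of a square on a line -/
def K (Q : USq) (z v : ℝ × ℝ) : Set ℝ := {s | z + s • v ∈ Q.C}

theorem isClosed_K (Q : USq) (z v : ℝ × ℝ) : IsClosed (K Q z v) :=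
  (H282R3.SQ.isClosed_C Q).preimage (continuous_line z v)

theorem isOpen_KO (Q : USq) (z v : ℝ × ℝ) : IsOpen {s : ℝ | z + s • v ∈ Q.O} :=
  (H282R3.SQ.isOpen_O Q).preimage (continuous_line z v)

theorem ordConnected_K (Q : USq) (z v : ℝ × ℝ) : (K Q z v).OrdConnected := by
  constructor
  rintro x ⟨hx1, hx2⟩ y ⟨hy1, hy2⟩ t ⟨ht1, ht2⟩
  show z + t • v ∈ Q.C
  rw [X_line] at hx1 hy1
  rw [Y_line] at hx2 hy2
  constructor
  · rw [X_line]
    rw [abs_le] at hx1 hy1 ⊢
    generalize Q.a * v.1 + Q.b * v.2 = c at *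
    rcases le_total 0 c with hc | hc
    · constructor <;> nlinarith
    · constructor <;> nlinarith
  · rw [Y_line]
    rw [abs_le] at hx2 hy2 ⊢
    generalize -Q.b * v.1 + Q.a * v.2 = c at *
    rcases le_total 0 c with hc | hc
    · constructor <;> nlinarith
    · constructor <;> nlinarith

theorem exp_half (y : ℝ) (hy : |y| = 1 / 2) : Complex.exp (2 * π * Complex.I * y) = -1 := by
  rcases (abs_eq (by norm_num : (0 : ℝ) ≤ 1 / 2)).1 hy with h | h
  · rw [h]
    have : 2 * (π : ℂ) * Complex.I * ((1 / 2 : ℝ) : ℂ) = π * Complex.I := by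
      push_cast; ring
    rw [this, Complex.exp_pi_mul_I]
  · rw [h]
    have : 2 * (π : ℂ) * Complex.I * ((-(1 / 2) : ℝ) : ℂ) = -(π * Complex.I) := by
      push_cast; ring
    rw [this, Complex.exp_neg, Complex.exp_pi_mul_I]
    norm_num

theorem norm_exp (y : ℝ) : ‖Complex.exp (2 * π * Complex.I * y)‖ = 1 := by
  have : 2 * (π : ℂ) * Complex.I * (y : ℂ) = ((2 * π * y : ℝ) : ℂ) * Complex.I := by
    push_cast; ring
  rw [this, Complex.norm_exp_ofReal_mul_I]

theorem norm_exp_neg (y : ℝ) : ‖Complex.exp (-(2 * π * Complex.I * y))‖ = 1 := by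
  have : -(2 * (π : ℂ) * Complex.I * (y : ℂ)) = ((-(2 * π * y) : ℝ) : ℂ) * Complex.I := by
    push_cast; ring
  rw [this, Complex.norm_exp_ofReal_mul_I]

/-- the phase at a point of the line as a finite sum -/
theorem F_line {ι : Type} (Q : ι → USq) (I : Finset ι) (z : ℝ × ℝ)
    (hI : ∀ i, z ∈ (Q i).C → i ∈ I) :
    F Q z = -1 + ∑ i ∈ I, (Q i).C.indicator
      (fun z => Complex.exp (2 * π * Complex.I * (Q i).Y z) + 1) z := by
  unfold F
  congr 1
  apply finsum_eq_sum_of_support_subset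
  intro i hi
  apply hI
  by_contra h
  exact hi (indicator_of_notMem h _)

end LineF

open LineF in
/-- T6: the phase along one line in the direction of the vertical reference vector `w`. -/
theorem line_F {n : ℕ} {sg : ℝ} {ι : Type} [Countable ι] {Q : ι → USq} {W : ℝ} (h : PP n sg Q W)
    (z0 w : ℝ × ℝ) (hw : w.1 ^ 2 + w.2 ^ 2 = 1) (hw2 : |w.1| ≤ w.2 / 4) (ℓ : ℝ) (hℓ : 0 ≤ ℓ)
    (I : Finset ι) (hI : ∀ i, ∀ s ∈ Set.Icc 0 ℓ, z0 + s • w ∈ (Q i).C → i ∈ I)
    (hgen : ∀ᵐ s : ℝ, s ∈ Set.Icc 0 ℓ → ∀ i j, z0 + s • w ∈ (Q i).C → z0 + s • w ∈ (Q j).C →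
      i = j) :
    ‖F Q (z0 + ℓ • w) * Complex.exp (-(2 * π * Complex.I * ℓ)) - F Q z0‖ ≤
      2 * π * (volume {s : ℝ | s ∈ Set.Icc 0 ℓ ∧ z0 + s • w ∈ Gap Q}).toReal +
      ∑ i ∈ I, (2 * π * |1 - (-(Q i).b * w.1 + (Q i).a * w.2)| *
          (volume {s : ℝ | s ∈ Set.Icc 0 ℓ ∧ z0 + s • w ∈ (Q i).C}).toReal +
        {i | ∃ s ∈ Set.Icc 0 ℓ, z0 + s • w ∈ (Q i).C ∧ |(Q i).X (z0 + s • w)| = 1 / 2}.indicator
          (fun _ => (4 : ℝ)) i) := by
  classical
  set κ : ι → ℝ := fun i => -(Q i).b * w.1 + (Q i).a * w.2 with hκ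
  set φ : ι → ℝ → ℂ := fun i s =>
    (Complex.exp (2 * π * Complex.I * (Q i).Y (z0 + s • w)) + 1) *
      Complex.exp (-(2 * π * Complex.I * s)) with hφ
  set D : ℝ → ℂ := fun s => -(2 * π * Complex.I) * Complex.exp (-(2 * π * Complex.I * s)) with hD
  set φ' : ι → ℝ → ℂ := fun i s =>
    (2 * π * Complex.I * κ i) * Complex.exp (2 * π * Complex.I * (Q i).Y (z0 + s • w)) *
      Complex.exp (-(2 * π * Complex.I * s)) +
    (Complex.exp (2 * π * Complex.I * (Q i).Y (z0 + s • w)) + 1) *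
      (-(2 * π * Complex.I) * Complex.exp (-(2 * π * Complex.I * s))) with hφ'
  have hYc : ∀ i, Continuous fun s : ℝ => (Q i).Y (z0 + s • w) := fun i =>
    (H282R3.SQ.continuous_Y (Q i)).comp (continuous_line z0 w)
  have hexpd : ∀ s : ℝ, HasDerivAt (fun s : ℝ => Complex.exp (-(2 * π * Complex.I * s)))
      (-(2 * π * Complex.I) * Complex.exp (-(2 * π * Complex.I * s))) s := by
    intro s
    have h1 : HasDerivAt (fun s : ℝ => (s : ℂ)) 1 s := Complex.ofRealCLM.hasDerivAt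
    have h2 : HasDerivAt (fun s : ℝ => -(2 * (π : ℂ) * Complex.I * s))
        (-(2 * (π : ℂ) * Complex.I * 1)) s := (h1.const_mul (2 * (π : ℂ) * Complex.I)).neg
    have h3 := h2.cexp
    convert h3 using 1
    ring
  have hder : ∀ i s, HasDerivAt (φ i) (φ' i s) s := by
    intro i s
    have h0 : HasDerivAt (fun s : ℝ => ((Q i).Y z0 + s * κ i : ℝ)) (κ i) s := by
      simpa using ((hasDerivAt_id s).mul_const (κ i)).const_add ((Q i).Y z0)
    have h1 : HasDerivAt (fun s : ℝ => (((Q i).Y (z0 + s • w) : ℝ) : ℂ)) (κ i : ℂ) s := by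
      have := h0.ofReal_comp
      simpa only [Y_line] using this
    have h2 := ((h1.const_mul (2 * (π : ℂ) * Complex.I)).cexp.add_const 1).mul (hexpd s)
    refine HasDerivAt.congr_deriv h2 ?_
    simp only [hφ']
    ring
  have hDc : Continuous D := by
    rw [hD]; fun_prop
  have hφ'c : ∀ i, Continuous (φ' i) := by
    intro i
    have := hYc i
    simp only [hφ']
    fun_prop
  have hDn : ∀ s, ‖D s‖ ≤ 2 * π := by
    intro s
    simp only [hD]
    rw [norm_mul, norm_exp_neg, mul_one, norm_neg, norm_mul, norm_mul, Complex.norm_I, mul_one]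
    simp [abs_of_pos Real.pi_pos]
  have hchord : ∀ i, ‖(K (Q i) z0 w).indicator (φ i) ℓ - (K (Q i) z0 w).indicator (φ i) 0 -
      ∫ s in (0 : ℝ)..ℓ, (K (Q i) z0 w).indicator D s‖ ≤
      (2 * π * |1 - κ i|) * (volume {s : ℝ | s ∈ Set.Icc (0 : ℝ) ℓ ∧ s ∈ K (Q i) z0 w}).toReal +
      {i | ∃ s ∈ Set.Icc 0 ℓ, z0 + s • w ∈ (Q i).C ∧ |(Q i).X (z0 + s • w)| = 1 / 2}.indicator
          (fun _ => (4 : ℝ)) i := by
    intro i
    refine LineAux.chord (K (Q i) z0 w) {s : ℝ | z0 + s • w ∈ (Q i).O}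
      {s : ℝ | |(Q i).X (z0 + s • w)| = 1 / 2} (isClosed_K _ _ _) (ordConnected_K _ _ _)
      (isOpen_KO _ _ _) (fun s hs => H282R3.SQ.O_subset_C _ hs) (φ i) (φ' i) D (hder i) (hφ'c i)
      hDc _ ?_ ?_ ?_ ℓ hℓ _ ?_ ?_
    · intro s
      have : φ' i s - D s = (2 * π * Complex.I * ((κ i - 1 : ℝ) : ℂ)) *
          (Complex.exp (2 * π * Complex.I * (Q i).Y (z0 + s • w)) *
            Complex.exp (-(2 * π * Complex.I * s))) := by
        simp only [hφ', hD]
        push_cast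
        ring
      rw [this]
      simp only [norm_mul, norm_exp, norm_exp_neg, Complex.norm_I, Complex.norm_real,
        Real.norm_eq_abs, abs_sub_comm (κ i) 1, mul_one, abs_of_pos Real.pi_pos]
      simp
    · intro s hs hsO hsC
      have hY : |(Q i).Y (z0 + s • w)| = 1 / 2 := by
        by_contra hcon
        exact hsO ⟨lt_of_le_of_ne hs.1 hsC, lt_of_le_of_ne hs.2 hcon⟩
      simp only [hφ]
      rw [exp_half _ hY]
      ring
    · intro s
      simp only [hφ]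
      rw [norm_mul, norm_exp_neg, mul_one]
      refine (norm_add_le _ _).trans ?_
      rw [norm_exp]
      norm_num
    · apply Set.indicator_nonneg
      intro _ _; norm_num
    · rintro ⟨s, hs1, hs2, hs3⟩
      exact Set.indicator_of_mem (s := {i | ∃ s ∈ Set.Icc 0 ℓ, z0 + s • w ∈ (Q i).C ∧
        |(Q i).X (z0 + s • w)| = 1 / 2}) ⟨s, hs1, hs2, hs3⟩ _
  have hH : ∀ s ∈ Set.Icc (0 : ℝ) ℓ, F Q (z0 + s • w) * Complex.exp (-(2 * π * Complex.I * s)) =
      -Complex.exp (-(2 * π * Complex.I * s)) + ∑ i ∈ I, (K (Q i) z0 w).indicator (φ i) s := by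
    intro s hs
    rw [F_line Q I (z0 + s • w) (fun i hi => hI i s hs hi), add_mul, Finset.sum_mul]
    congr 1
    · ring
    · apply Finset.sum_congr rfl
      intro i _
      by_cases hi : z0 + s • w ∈ (Q i).C
      · rw [Set.indicator_of_mem hi, Set.indicator_of_mem (show s ∈ K (Q i) z0 w from hi)]
      · rw [Set.indicator_of_notMem hi, Set.indicator_of_notMem (show s ∉ K (Q i) z0 w from hi),
          zero_mul]
  have hF0 : F Q z0 = -1 + ∑ i ∈ I, (K (Q i) z0 w).indicator (φ i) 0 := by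
    have := hH 0 ⟨le_refl _, hℓ⟩
    simpa using this
  have hDint : ∫ s in (0 : ℝ)..ℓ, D s = Complex.exp (-(2 * π * Complex.I * ℓ)) - 1 := by
    rw [intervalIntegral.integral_eq_sub_of_hasDerivAt (fun s _ => hexpd s)
      (hDc.intervalIntegrable _ _)]
    simp
  have hgap := LineAux.gap_part I (fun i => K (Q i) z0 w) (fun i => isClosed_K _ _ _) ℓ hℓ
    {s : ℝ | z0 + s • w ∈ Gap Q} (by
      intro s hs
      constructor
      · intro hG i _ hiK
        exact hG (Set.mem_iUnion.2 ⟨i, hiK⟩)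
      · intro hall hU
        obtain ⟨i, hi⟩ := Set.mem_iUnion.1 hU
        exact hall i (hI i s hs hi) hi) (by
      filter_upwards [hgen] with s hs hsI i _ j _ hi hj
      exact hs hsI i j hi hj) D hDc (2 * π) hDn
  have hkey : F Q (z0 + ℓ • w) * Complex.exp (-(2 * π * Complex.I * ℓ)) - F Q z0 =
      (∑ i ∈ I, (∫ s in (0 : ℝ)..ℓ, (K (Q i) z0 w).indicator D s) - ∫ s in (0 : ℝ)..ℓ, D s) +
      ∑ i ∈ I, ((K (Q i) z0 w).indicator (φ i) ℓ - (K (Q i) z0 w).indicator (φ i) 0 -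
        ∫ s in (0 : ℝ)..ℓ, (K (Q i) z0 w).indicator D s) := by
    rw [hH ℓ ⟨hℓ, le_refl _⟩, hF0, hDint, Finset.sum_sub_distrib, Finset.sum_sub_distrib]
    ring
  rw [hkey]
  refine (norm_add_le _ _).trans (add_le_add hgap ?_)
  refine (norm_sum_le _ _).trans (Finset.sum_le_sum fun i _ => ?_)
  exact hchord i

end H40.PK
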