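import Pool.Agent.H40.PK.Defs
import Pool.Graph.R_seed8.H282R3.SQ.Area
import Pool.Graph.R_seed8.H282R3.SQ.Contact
import Pool.Agent.H40.PK.LineF
import Pool.Agent.H40.PK.Fin

/-! Module LineInt of project PK (helper896): the integrated version of `line_F`. -/

namespace H40.PK

open H282R4.PK

open MeasureTheory
open scoped Real ENNReal
open H282R3.SQ (USq)

namespace LineInt

theorem volume_O (Q : USq) : volume Q.O = 1 := by
  set L := H282R3.SQ.linM Q.a Q.b (-Q.b) Q.a with hL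
  have hdet : LinearMap.det L = 1 := by
    rw [hL, H282R3.SQ.linM_det]; linarith [Q.unit]
  set v : ℝ × ℝ := L (Q.p, Q.q) with hv
  have hC : Q.O = L ⁻¹' ((fun w => w - v) ⁻¹' (Set.Ioo (-(1 / 2) : ℝ) (1 / 2) ×ˢ
      Set.Ioo (-(1 / 2) : ℝ) (1 / 2))) := by
    ext z
    simp only [USq.O, Set.mem_ofPred_eq, Set.mem_preimage, Set.mem_prod, Set.mem_Ioo, USq.X, USq.Y,
      hv, hL, H282R3.SQ.linM_apply, Prod.fst_sub, Prod.snd_sub, abs_lt]
    constructor
    · rintro ⟨⟨h1, h2⟩, h3, h4⟩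
      refine ⟨⟨?_, ?_⟩, ?_, ?_⟩ <;> linarith
    · rintro ⟨⟨h1, h2⟩, h3, h4⟩
      refine ⟨⟨?_, ?_⟩, ?_, ?_⟩ <;> linarith
  rw [hC, Measure.addHaar_preimage_linearMap volume (by rw [hdet]; exact one_ne_zero), hdet]
  have : (fun w : ℝ × ℝ => w - v) ⁻¹' (Set.Ioo (-(1 / 2) : ℝ) (1 / 2) ×ˢ
      Set.Ioo (-(1 / 2) : ℝ) (1 / 2)) = (fun w : ℝ × ℝ => w + (-v)) ⁻¹'
      (Set.Ioo (-(1 / 2) : ℝ) (1 / 2) ×ˢ Set.Ioo (-(1 / 2) : ℝ) (1 / 2)) := by
    ext w; simp [sub_eq_add_neg]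
  rw [this, measure_preimage_add_right, Measure.volume_eq_prod, Measure.prod_prod,
    Real.volume_Ioo]
  norm_num

theorem volume_bd (Q : USq) : volume (Q.C \ Q.O) = 0 := by
  rw [measure_sdiff (H282R3.SQ.O_subset_C Q) (H282R3.SQ.isOpen_O Q).measurableSet.nullMeasurableSet
    (by rw [volume_O]; exact ENNReal.one_ne_top), H282R3.SQ.volume_C, volume_O]
  simp

theorem inter_null {n : ℕ} {sg : ℝ} {ι : Type} {Q : ι → USq} {W : ℝ} (h : PP n sg Q W) {i j : ι}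
    (hij : i ≠ j) : volume ((Q i).C ∩ (Q j).C) = 0 := by
  refine measure_mono_null (t := ((Q i).C \ (Q i).O) ∪ ((Q j).C \ (Q j).O)) ?_
    (measure_union_null (volume_bd _) (volume_bd _))
  intro z hz
  by_cases hzi : z ∈ (Q i).O
  · by_cases hzj : z ∈ (Q j).O
    · exact absurd hzj (Set.disjoint_left.mp (h.disj i j hij) hzi)
    · exact Or.inr ⟨hz.2, hzj⟩
  · exact Or.inl ⟨hz.1, hzi⟩

/-- the parametrisation of the plane -/
def Ps (z0 e w : ℝ × ℝ) (p : ℝ × ℝ) : ℝ × ℝ := z0 + p.1 • e + p.2 • w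

theorem Ps_cont (z0 e w : ℝ × ℝ) : Continuous (Ps z0 e w) := by
  unfold Ps
  fun_prop

theorem vol_pre (z0 e w : ℝ × ℝ) (hdet : e.1 * w.2 - e.2 * w.1 ≠ 0) (S : Set (ℝ × ℝ)) :
    volume (Ps z0 e w ⁻¹' S) = ENNReal.ofReal |(e.1 * w.2 - e.2 * w.1)⁻¹| * volume S := by
  set L := H282R3.SQ.linM e.1 w.1 e.2 w.2 with hL
  have hd : LinearMap.det L = e.1 * w.2 - e.2 * w.1 := by
    rw [hL, H282R3.SQ.linM_det]; ring
  have h1 : Ps z0 e w ⁻¹' S = L ⁻¹' ((fun x => z0 + x) ⁻¹' S) := by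
    ext p
    simp only [Set.mem_preimage, Ps]
    have : z0 + p.1 • e + p.2 • w = z0 + L p := by
      rw [hL, H282R3.SQ.linM_apply]
      ext
      · simp only [Prod.fst_add, Prod.smul_fst, smul_eq_mul]; ring
      · simp only [Prod.snd_add, Prod.smul_snd, smul_eq_mul]; ring
    rw [this]
  rw [h1, Measure.addHaar_preimage_linearMap volume (by rw [hd]; exact hdet), hd,
    measure_preimage_add]

theorem fubini (z0 e w : ℝ × ℝ) (hdet : e.1 * w.2 - e.2 * w.1 ≠ 0) {S : Set (ℝ × ℝ)}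
    (hS : MeasurableSet S) :
    ∫⁻ t : ℝ, volume {s : ℝ | z0 + t • e + s • w ∈ S} =
      ENNReal.ofReal |(e.1 * w.2 - e.2 * w.1)⁻¹| * volume S := by
  rw [← vol_pre z0 e w hdet S, Measure.volume_eq_prod,
    Measure.prod_apply ((Ps_cont z0 e w).measurable hS)]
  rfl

theorem fubini_meas (z0 e w : ℝ × ℝ) {S : Set (ℝ × ℝ)} (hS : MeasurableSet S) :
    Measurable (fun t : ℝ => volume {s : ℝ | z0 + t • e + s • w ∈ S}) :=
  measurable_measure_prodMk_left ((Ps_cont z0 e w).measurable hS)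

/-- almost every line is generic -/
theorem ae_gen {n : ℕ} {sg : ℝ} {ι : Type} [Countable ι] {Q : ι → USq} {W : ℝ} (h : PP n sg Q W)
    (z0 e w : ℝ × ℝ) (hdet : e.1 * w.2 - e.2 * w.1 ≠ 0) :
    ∀ᵐ t : ℝ, ∀ᵐ s : ℝ, ∀ i j, z0 + t • e + s • w ∈ (Q i).C → z0 + t • e + s • w ∈ (Q j).C →
      i = j := by
  have h1 : ∀ᵐ p : ℝ × ℝ, ∀ i j, Ps z0 e w p ∈ (Q i).C → Ps z0 e w p ∈ (Q j).C → i = j := by
    rw [ae_all_iff]
    intro i
    rw [ae_all_iff]
    intro j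
    by_cases hij : i = j
    · exact Filter.Eventually.of_forall fun _ _ _ => hij
    · have h2 : volume (Ps z0 e w ⁻¹' ((Q i).C ∩ (Q j).C)) = 0 := by
        rw [vol_pre z0 e w hdet, inter_null h hij, mul_zero]
      rw [ae_iff]
      refine measure_mono_null ?_ h2
      intro p hp
      simp only [Set.mem_ofPred_eq] at hp
      push Not at hp
      exact ⟨hp.1, hp.2.1⟩
  rw [Measure.volume_eq_prod] at h1
  exact Measure.ae_ae_of_ae_prod h1

/-- the parameters of the lines which cross a lateral side -/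
def Tc (Q : USq) (z0 e w : ℝ × ℝ) : Set ℝ :=
  Metric.closedBall (((Q.p - z0.1) * w.2 - (Q.q - z0.2) * w.1 + (Q.a * w.2 - Q.b * w.1) / 2) /
    (e.1 * w.2 - e.2 * w.1)) (|Q.a * w.1 + Q.b * w.2| / (2 * |e.1 * w.2 - e.2 * w.1|)) ∪
  Metric.closedBall (((Q.p - z0.1) * w.2 - (Q.q - z0.2) * w.1 - (Q.a * w.2 - Q.b * w.1) / 2) /
    (e.1 * w.2 - e.2 * w.1)) (|Q.a * w.1 + Q.b * w.2| / (2 * |e.1 * w.2 - e.2 * w.1|))

theorem Tc_meas (Q : USq) (z0 e w : ℝ × ℝ) : MeasurableSet (Tc Q z0 e w) :=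
  Metric.isClosed_closedBall.measurableSet.union Metric.isClosed_closedBall.measurableSet

theorem Tc_vol (Q : USq) (z0 e w : ℝ × ℝ) (hdet : e.1 * w.2 - e.2 * w.1 ≠ 0) :
    volume (Tc Q z0 e w) ≤
      ENNReal.ofReal (2 * |Q.a * w.1 + Q.b * w.2| / |e.1 * w.2 - e.2 * w.1|) := by
  refine (measure_union_le _ _).trans ?_
  rw [Real.volume_closedBall, Real.volume_closedBall, ← ENNReal.ofReal_add (by positivity)
    (by positivity)]
  apply ENNReal.ofReal_le_ofReal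
  have : 0 < |e.1 * w.2 - e.2 * w.1| := abs_pos.mpr hdet
  apply le_of_eq
  field_simp
  ring

theorem Tc_sub (Q : USq) (z0 e w : ℝ × ℝ) (hdet : e.1 * w.2 - e.2 * w.1 ≠ 0) (t s : ℝ)
    (hC : z0 + t • e + s • w ∈ Q.C) (hX : |Q.X (z0 + t • e + s • w)| = 1 / 2) :
    t ∈ Tc Q z0 e w := by
  set D := e.1 * w.2 - e.2 * w.1 with hD
  set z := z0 + t • e + s • w with hz
  have hz1 : z.1 = z0.1 + t * e.1 + s * w.1 := by
    rw [hz]; simp only [Prod.fst_add, Prod.smul_fst, smul_eq_mul]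
  have hz2 : z.2 = z0.2 + t * e.2 + s * w.2 := by
    rw [hz]; simp only [Prod.snd_add, Prod.smul_snd, smul_eq_mul]
  have hu := Q.unit
  have e1 : z.1 - Q.p = Q.a * Q.X z - Q.b * Q.Y z := by
    unfold USq.X USq.Y
    linear_combination -(z.1 - Q.p) * hu
  have e2 : z.2 - Q.q = Q.b * Q.X z + Q.a * Q.Y z := by
    unfold USq.X USq.Y
    linear_combination -(z.2 - Q.q) * hu
  have e3 : t * D = (Q.p - z0.1) * w.2 - (Q.q - z0.2) * w.1 +
      (Q.a * w.2 - Q.b * w.1) * Q.X z - (Q.a * w.1 + Q.b * w.2) * Q.Y z := by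
    rw [hD]
    linear_combination w.2 * (e1 - hz1) - w.1 * (e2 - hz2)
  have hY : |Q.Y z| ≤ 1 / 2 := hC.2
  have hDp : 0 < |D| := abs_pos.mpr hdet
  have key : ∀ x : ℝ, Q.X z = x →
      |t - ((Q.p - z0.1) * w.2 - (Q.q - z0.2) * w.1 + (Q.a * w.2 - Q.b * w.1) * x) / D| ≤
        |Q.a * w.1 + Q.b * w.2| / (2 * |D|) := by
    intro x hx
    rw [hx] at e3
    have e4 : t - ((Q.p - z0.1) * w.2 - (Q.q - z0.2) * w.1 + (Q.a * w.2 - Q.b * w.1) * x) / D =
        (-((Q.a * w.1 + Q.b * w.2) * Q.Y z)) / D := by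
      field_simp
      linear_combination e3
    rw [e4, abs_div, abs_neg, abs_mul, div_le_div_iff₀ hDp (by positivity)]
    nlinarith [abs_nonneg (Q.a * w.1 + Q.b * w.2), abs_nonneg (Q.Y z), mul_nonneg (abs_nonneg (Q.a * w.1 + Q.b * w.2)) hDp.le]
  rcases (abs_eq (by norm_num)).mp hX with hx | hx
  · left
    rw [Metric.mem_closedBall, Real.dist_eq]
    have := key _ hx
    convert this using 3
    ring
  · right
    rw [Metric.mem_closedBall, Real.dist_eq]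
    have := key _ hx
    convert this using 3
    ring

/-- the deviation of the rotation speed -/
theorem kap_le (Q : USq) (hn : |Q.b| ≤ Q.a) (w : ℝ × ℝ) (hw : w.1 ^ 2 + w.2 ^ 2 = 1)
    (hw2 : |w.1| ≤ w.2 / 4) : |1 - (-Q.b * w.1 + Q.a * w.2)| ≤ |Q.a * w.1 + Q.b * w.2| := by
  have hu := Q.unit
  have ha : 0 ≤ Q.a := (abs_nonneg _).trans hn
  have hw0 : 0 ≤ w.2 := by linarith [abs_nonneg w.1]
  set κ := -Q.b * w.1 + Q.a * w.2 with hκ
  set σ := Q.a * w.1 + Q.b * w.2 with hσ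
  have h1 : κ ^ 2 + σ ^ 2 = 1 := by
    rw [hκ, hσ]
    linear_combination hw * (Q.a ^ 2 + Q.b ^ 2) + hu
  have h2 : |Q.b * w.1| ≤ Q.a * (w.2 / 4) := by
    rw [abs_mul]
    exact mul_le_mul hn hw2 (abs_nonneg _) ha
  have h3 : 0 ≤ κ := by
    rw [hκ]
    have := (abs_le.mp h2).2
    nlinarith [mul_nonneg ha hw0]
  have h4 : κ ≤ 1 := by nlinarith [sq_nonneg σ]
  have h5 : |σ| ≤ 1 := by
    rw [← sq_abs σ] at h1
    nlinarith [sq_nonneg κ, abs_nonneg σ]
  have h6 : 1 - κ ≤ |σ| := by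
    have : σ ^ 2 ≤ |σ| := by
      rw [← sq_abs σ]
      nlinarith [abs_nonneg σ]
    nlinarith
  rw [abs_of_nonneg (by linarith)]
  exact h6

end LineInt

open LineInt

/-- T7: integrated version (Fubini), start points `z0 + t e`, end points at distance `ℓ t`. -/
theorem line_int {n : ℕ} {sg : ℝ} {ι : Type} [Countable ι] {Q : ι → USq} {W : ℝ} (h : PP n sg Q W)
    (z0 e w : ℝ × ℝ) (hw : w.1 ^ 2 + w.2 ^ 2 = 1) (hw2 : |w.1| ≤ w.2 / 4) (J : ℝ) (hJ : 0 < J)
    (hdet : J ≤ |e.1 * w.2 - e.2 * w.1|) (t1 t2 : ℝ) (ℓ : ℝ → ℝ) (hℓ : ∀ t, 0 ≤ ℓ t)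
    (B : Set (ℝ × ℝ)) (hBm : MeasurableSet B) (hB : Bornology.IsBounded B)
    (hsub : ∀ t ∈ Set.Icc t1 t2, ∀ s ∈ Set.Icc 0 (ℓ t), z0 + t • e + s • w ∈ B) :
    ∫⁻ t in Set.Icc t1 t2, ‖F Q (z0 + t • e + ℓ t • w) *
        Complex.exp (-(2 * π * Complex.I * (ℓ t : ℝ))) - F Q (z0 + t • e)‖ₑ ≤
      ENNReal.ofReal (20 / J * Dev Q w B) := by
  classical
  have hdp : 0 < |e.1 * w.2 - e.2 * w.1| := hJ.trans_le hdet
  have hd0 : e.1 * w.2 - e.2 * w.1 ≠ 0 := abs_pos.mp hdp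
  have hfin := fin_meet h B hB
  set I : Finset ι := hfin.toFinset with hI
  have hmemI : ∀ i, i ∈ I ↔ ((Q i).C ∩ B).Nonempty := by
    intro i
    rw [hI, Set.Finite.mem_toFinset]
    rfl
  have hGB : MeasurableSet (Gap Q ∩ B) := (measurableSet_Gap h).inter hBm
  have hBfin : volume B < ⊤ := hB.measure_lt_top
  have hGfin : volume (Gap Q ∩ B) ≠ ⊤ :=
    ((measure_mono Set.inter_subset_right).trans_lt hBfin).ne
  have hpi := Real.pi_pos
  -- the dominating function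
  set g : ℝ → ℝ≥0∞ := fun t => ENNReal.ofReal (2 * π) *
      volume {s : ℝ | z0 + t • e + s • w ∈ Gap Q ∩ B} +
    ∑ i ∈ I, (ENNReal.ofReal (2 * π * |1 - (-(Q i).b * w.1 + (Q i).a * w.2)|) *
      volume {s : ℝ | z0 + t • e + s • w ∈ (Q i).C} +
      4 * (Tc (Q i) z0 e w).indicator 1 t) with hg
  have hbound : ∀ᵐ t : ℝ, t ∈ Set.Icc t1 t2 →
      ‖F Q (z0 + t • e + ℓ t • w) * Complex.exp (-(2 * π * Complex.I * (ℓ t : ℝ))) -
        F Q (z0 + t • e)‖ₑ ≤ g t := by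
    filter_upwards [ae_gen h z0 e w hd0] with t ht hti
    have hline := line_F h (z0 + t • e) w hw hw2 (ℓ t) (hℓ t) I
      (by
        intro i s hs hsC
        rw [hmemI]
        exact ⟨_, hsC, hsub t hti s hs⟩)
      (by
        filter_upwards [ht] with s hs _
        exact hs)
    have e1 : ‖F Q (z0 + t • e + ℓ t • w) * Complex.exp (-(2 * π * Complex.I * (ℓ t : ℝ))) -
        F Q (z0 + t • e)‖ₑ ≤ ENNReal.ofReal (2 * π * (volume {s : ℝ | s ∈ Set.Icc 0 (ℓ t) ∧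
          z0 + t • e + s • w ∈ Gap Q}).toReal +
      ∑ i ∈ I, (2 * π * |1 - (-(Q i).b * w.1 + (Q i).a * w.2)| *
          (volume {s : ℝ | s ∈ Set.Icc 0 (ℓ t) ∧ z0 + t • e + s • w ∈ (Q i).C}).toReal +
        {i | ∃ s ∈ Set.Icc 0 (ℓ t), z0 + t • e + s • w ∈ (Q i).C ∧
          |(Q i).X (z0 + t • e + s • w)| = 1 / 2}.indicator (fun _ => (4 : ℝ)) i)) := by
      rw [← ofReal_norm]
      exact ENNReal.ofReal_le_ofReal hline
    refine e1.trans ?_
    have hind : ∀ i, (0:ℝ) ≤ {i | ∃ s ∈ Set.Icc 0 (ℓ t), z0 + t • e + s • w ∈ (Q i).C ∧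
          |(Q i).X (z0 + t • e + s • w)| = 1 / 2}.indicator (fun _ => (4 : ℝ)) i :=
      fun i => Set.indicator_nonneg (fun _ _ => by norm_num) i
    rw [ENNReal.ofReal_add (by positivity) (Finset.sum_nonneg fun i _ =>
      add_nonneg (by positivity) (hind i)), ENNReal.ofReal_mul (by positivity),
      ENNReal.ofReal_sum_of_nonneg fun i _ => add_nonneg (by positivity) (hind i)]
    rw [hg]
    refine add_le_add ?_ (Finset.sum_le_sum fun i _ => ?_)
    · refine mul_le_mul_right ?_ _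
      refine ENNReal.ofReal_toReal_le.trans (measure_mono ?_)
      rintro s ⟨hs, hsG⟩
      exact ⟨hsG, hsub t hti s hs⟩
    · rw [ENNReal.ofReal_add (by positivity) (hind i), ENNReal.ofReal_mul (by positivity)]
      refine add_le_add ?_ ?_
      · refine mul_le_mul_right ?_ _
        refine ENNReal.ofReal_toReal_le.trans (measure_mono ?_)
        rintro s ⟨hs, hsG⟩
        exact hsG
      · by_cases hi : i ∈ {i | ∃ s ∈ Set.Icc 0 (ℓ t), z0 + t • e + s • w ∈ (Q i).C ∧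
          |(Q i).X (z0 + t • e + s • w)| = 1 / 2}
        · rw [Set.indicator_of_mem hi]
          obtain ⟨s, _, hs1, hs2⟩ := hi
          rw [Set.indicator_of_mem (Tc_sub (Q i) z0 e w hd0 t s hs1 hs2)]
          simp
        · rw [Set.indicator_of_notMem hi]
          simp
  -- integrate
  have h1 : ∫⁻ t in Set.Icc t1 t2, ‖F Q (z0 + t • e + ℓ t • w) *
        Complex.exp (-(2 * π * Complex.I * (ℓ t : ℝ))) - F Q (z0 + t • e)‖ₑ ≤ ∫⁻ t, g t := by
    refine (lintegral_mono_ae ?_).trans (setLIntegral_le_lintegral _ _)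
    rw [ae_restrict_iff' measurableSet_Icc]
    exact hbound
  refine h1.trans ?_
  have hms : ∀ i, Measurable (fun t : ℝ => ENNReal.ofReal (2 * π *
      |1 - (-(Q i).b * w.1 + (Q i).a * w.2)|) * volume {s : ℝ | z0 + t • e + s • w ∈ (Q i).C}) :=
    fun i => (fubini_meas z0 e w (H282R3.SQ.measurableSet_C (Q i))).const_mul _
  have hmi : ∀ i, Measurable (fun t : ℝ => (4 : ℝ≥0∞) * (Tc (Q i) z0 e w).indicator 1 t) :=
    fun i => (measurable_one.indicator (Tc_meas (Q i) z0 e w)).const_mul _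
  have hadd : ∀ i ∈ I, Measurable (fun t : ℝ => ENNReal.ofReal (2 * π *
      |1 - (-(Q i).b * w.1 + (Q i).a * w.2)|) * volume {s : ℝ | z0 + t • e + s • w ∈ (Q i).C} +
      (4 : ℝ≥0∞) * (Tc (Q i) z0 e w).indicator 1 t) := fun i _ => (hms i).add (hmi i)
  have h2 : ∫⁻ t, g t = ENNReal.ofReal (2 * π) * (ENNReal.ofReal |(e.1 * w.2 - e.2 * w.1)⁻¹| *
      volume (Gap Q ∩ B)) +
    ∑ i ∈ I, (ENNReal.ofReal (2 * π * |1 - (-(Q i).b * w.1 + (Q i).a * w.2)|) *
      (ENNReal.ofReal |(e.1 * w.2 - e.2 * w.1)⁻¹| * volume (Q i).C) +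
      4 * volume (Tc (Q i) z0 e w)) := by
    rw [hg]
    rw [lintegral_add_left ((fubini_meas z0 e w hGB).const_mul _),
      lintegral_const_mul _ (fubini_meas z0 e w hGB), fubini z0 e w hd0 hGB,
      lintegral_finsetSum _ hadd]
    congr 1
    refine Finset.sum_congr rfl fun i _ => ?_
    rw [lintegral_add_left (hms i),
      lintegral_const_mul _ (fubini_meas z0 e w (H282R3.SQ.measurableSet_C (Q i))),
      fubini z0 e w hd0 (H282R3.SQ.measurableSet_C (Q i)),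
      lintegral_const_mul _ (measurable_one.indicator (Tc_meas (Q i) z0 e w)),
      lintegral_indicator_one (Tc_meas (Q i) z0 e w)]
  rw [h2]
  set d := |e.1 * w.2 - e.2 * w.1| with hd
  have hinv : |(e.1 * w.2 - e.2 * w.1)⁻¹| = 1 / d := by
    rw [abs_inv, one_div]
  rw [hinv]
  set G := (volume (Gap Q ∩ B)).toReal with hG
  have hG' : volume (Gap Q ∩ B) = ENNReal.ofReal G := (ENNReal.ofReal_toReal hGfin).symm
  have hG0 : 0 ≤ G := ENNReal.toReal_nonneg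
  have h3 : ENNReal.ofReal (2 * π) * (ENNReal.ofReal (1 / d) * volume (Gap Q ∩ B)) +
    ∑ i ∈ I, (ENNReal.ofReal (2 * π * |1 - (-(Q i).b * w.1 + (Q i).a * w.2)|) *
      (ENNReal.ofReal (1 / d) * volume (Q i).C) + 4 * volume (Tc (Q i) z0 e w)) ≤
      ENNReal.ofReal (2 * π * (1 / d * G) + ∑ i ∈ I,
        (2 * π * |1 - (-(Q i).b * w.1 + (Q i).a * w.2)| * (1 / d) +
          4 * (2 * |(Q i).a * w.1 + (Q i).b * w.2| / d))) := by
    rw [ENNReal.ofReal_add (by positivity) (Finset.sum_nonneg fun i _ => by positivity),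
      ENNReal.ofReal_sum_of_nonneg fun i _ => by positivity]
    refine add_le_add ?_ (Finset.sum_le_sum fun i _ => ?_)
    · rw [hG', ← ENNReal.ofReal_mul (by positivity), ← ENNReal.ofReal_mul (by positivity)]
    · rw [ENNReal.ofReal_add (by positivity) (by positivity)]
      refine add_le_add ?_ ?_
      · rw [H282R3.SQ.volume_C, mul_one, ← ENNReal.ofReal_mul (by positivity)]
      · rw [ENNReal.ofReal_mul (by norm_num)]
        have h4 : ENNReal.ofReal 4 = 4 := by norm_num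
        rw [h4]
        exact mul_le_mul_right (Tc_vol (Q i) z0 e w hd0) _
  refine h3.trans (ENNReal.ofReal_le_ofReal ?_)
  -- the real inequality
  have hDev : Dev Q w B = G + ∑ i ∈ I, |(Q i).a * w.1 + (Q i).b * w.2| := by
    unfold Dev
    rw [finsum_mem_eq_finite_toFinset_sum _ hfin]
  rw [hDev]
  have h5 : ∀ i ∈ I, 2 * π * |1 - (-(Q i).b * w.1 + (Q i).a * w.2)| * (1 / d) +
      4 * (2 * |(Q i).a * w.1 + (Q i).b * w.2| / d) ≤ 20 / J * |(Q i).a * w.1 + (Q i).b * w.2| := by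
    intro i _
    have hk := kap_le (Q i) (h.norm i) w hw hw2
    have hp4 := Real.pi_lt_d2
    set σ := |(Q i).a * w.1 + (Q i).b * w.2| with hσ
    have hσ0 : 0 ≤ σ := abs_nonneg _
    have h6 : 2 * π * |1 - (-(Q i).b * w.1 + (Q i).a * w.2)| * (1 / d) + 4 * (2 * σ / d) ≤
        20 * σ / d := by
      rw [mul_one_div, mul_div_assoc', ← add_div]
      refine div_le_div_of_nonneg_right ?_ hdp.le
      nlinarith
    refine h6.trans ?_
    rw [div_mul_eq_mul_div]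
    exact div_le_div_of_nonneg_left (by positivity) hJ hdet
  have h7 : 2 * π * (1 / d * G) ≤ 20 / J * G := by
    have hp4 := Real.pi_lt_d2
    have h8 : 2 * π * (1 / d * G) ≤ 20 * G / d := by
      rw [one_div_mul_eq_div, mul_div_assoc']
      refine div_le_div_of_nonneg_right ?_ hdp.le
      nlinarith
    refine h8.trans ?_
    rw [div_mul_eq_mul_div]
    exact div_le_div_of_nonneg_left (by positivity) hJ hdet
  rw [mul_add, Finset.mul_sum]
  exact add_le_add h7 (Finset.sum_le_sum h5)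

end H40.PK
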