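import Pool.Agent.H40.PK.Defs
import Pool.Agent.H40.PK.Flow
import Pool.Agent.H40.PK.Fends

/-! Module Energy of project PK. -/

set_option autoImplicit false

namespace H40.PK

open H282R4.PK

open MeasureTheory
open scoped Real ENNReal
open H282R3.SQ (USq)

namespace Energy

theorem sin_ge {sg d : ℝ} (hd : 0 < d) (hd1 : d ≤ sg) (hd2 : d ≤ 1 - sg) :
    2 * d ≤ Real.sin (π * sg) := by
  have hpi := Real.pi_pos
  rcases le_total sg (1 / 2) with h | h
  · have h1 := Real.mul_le_sin (x := π * sg) (by nlinarith) (by nlinarith)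
    have h2 : 2 / π * (π * sg) = 2 * sg := by field_simp
    rw [h2] at h1
    linarith
  · have h1 := Real.mul_le_sin (x := π - π * sg) (by nlinarith) (by nlinarith)
    have h2 : 2 / π * (π - π * sg) = 2 * (1 - sg) := by field_simp
    rw [h2, Real.sin_pi_sub] at h1
    linarith

theorem phase_ge {Λ r sg d : ℝ} (hd : 0 < d) (hd1 : d ≤ sg) (hd2 : d ≤ 1 - sg) (h0 : 0 ≤ Λ)
    (hr : r < d)
    (h : ‖-Complex.exp (Complex.I * ((-(2 * π * sg) : ℝ) : ℂ)) +
      Complex.exp (Complex.I * (Λ : ℝ))‖ ≤ r) : 3 * d ≤ Λ := by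
  have h1 : ‖Complex.exp (Complex.I * (Λ : ℝ)) - 1‖ ≤ Λ := by
    have := Real.norm_exp_I_mul_ofReal_sub_one_le (x := Λ)
    rwa [Real.norm_eq_abs, abs_of_nonneg h0] at this
  have h2 : ‖Complex.exp (Complex.I * ((-(2 * π * sg) : ℝ) : ℂ)) - 1‖ =
      2 * Real.sin (π * sg) := by
    have h3 := Complex.norm_exp_I_mul_ofReal_sub_one (-(2 * π * sg))
    rw [h3]
    have h4 : -(2 * π * sg) / 2 = -(π * sg) := by ring
    have h5 := sin_ge hd hd1 hd2
    rw [h4, Real.sin_neg, Real.norm_eq_abs, mul_neg, abs_neg, abs_of_nonneg (by linarith)]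
  have h6 := sin_ge hd hd1 hd2
  have h7 : ‖Complex.exp (Complex.I * ((-(2 * π * sg) : ℝ) : ℂ)) - 1‖ ≤
      ‖-Complex.exp (Complex.I * ((-(2 * π * sg) : ℝ) : ℂ)) +
      Complex.exp (Complex.I * (Λ : ℝ))‖ + ‖Complex.exp (Complex.I * (Λ : ℝ)) - 1‖ := by
    have e : Complex.exp (Complex.I * ((-(2 * π * sg) : ℝ) : ℂ)) - 1 =
        -(-Complex.exp (Complex.I * ((-(2 * π * sg) : ℝ) : ℂ)) +
          Complex.exp (Complex.I * (Λ : ℝ))) + (Complex.exp (Complex.I * (Λ : ℝ)) - 1) := by ring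
    calc _ = ‖-(-Complex.exp (Complex.I * ((-(2 * π * sg) : ℝ) : ℂ)) +
          Complex.exp (Complex.I * (Λ : ℝ))) + (Complex.exp (Complex.I * (Λ : ℝ)) - 1)‖ := by
          rw [← e]
      _ ≤ _ := (norm_add_le _ _).trans (by rw [norm_neg])
  linarith

end Energy

/-- T18 -/
theorem energy_lower {n : ℕ} {sg : ℝ} {ι : Type} [Countable ι] {Q : ι → USq} {W : ℝ} (h : PP n sg Q W)
    {d : ℝ} (hd : 0 < d) (hd1 : d ≤ sg) (hd2 : d ≤ 1 - sg)
    (τ : ℝ) (h0 : 0 < τ) (h1 : τ < 1 / 4) (hτ : 10 ^ 22 * W ≤ τ * (n + sg))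
    (hWd : 10 ^ 23 * W ≤ d * (n + sg)) :
    d * ((n : ℝ) + sg) / 20 ≤ energy n Q τ := by
  have hsg0 := h.sg_pos
  have hsg1 := h.sg_lt
  have hdlt : d ≤ 1 := by linarith
  obtain ⟨P, Λ, Er, m, s, e, hFS, hs, he, hs1, hl1, he1⟩ :=
    flow h τ h0 h1 ((n : ℤ) + 2) (by omega) le_rfl
  refine le_trans ?_ he1
  obtain ⟨x, hx⟩ : ∃ x : ℝ, x = (n : ℝ) + sg := ⟨_, rfl⟩
  have hpot := hFS.pot
  have hright := hFS.right
  have hleft := hFS.left
  have htop := F_top h
  rw [← hx] at hpot hright hτ hWd htop ⊢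
  have hx0 : 0 < x := by
    rw [hx]
    have : (0:ℝ) ≤ n := Nat.cast_nonneg _
    linarith
  have hW := h.W_nonneg
  have hτx : τ * x ≤ x / 4 := by nlinarith
  have hτx0 : 0 < τ * x := by positivity
  -- the measure of `P` is finite
  have hPfin : volume P ≠ ⊤ := by
    refine ne_top_of_le_ne_top ?_ (measure_mono hFS.sub)
    rw [Real.volume_Icc]
    exact ENNReal.ofReal_ne_top
  obtain ⟨p, hp⟩ : ∃ p : ℝ, p = (volume P).toReal := ⟨_, rfl⟩
  have hpE : volume P = ENNReal.ofReal p := by rw [hp, ENNReal.ofReal_toReal hPfin]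
  have hp0 : 0 ≤ p := by rw [hp]; exact ENNReal.toReal_nonneg
  -- lower bound for `p`
  have hp1 : 0.999 * x ≤ p := by
    have a1 : ENNReal.ofReal (τ * x) ≤ ENNReal.ofReal τ * volume P +
        ENNReal.ofReal (10 * C0 * s + 4 * C0 * lvl n Q ((n : ℤ) + 2)) := le_trans le_add_self hpot
    rw [hpE, ← ENNReal.ofReal_mul h0.le] at a1
    have a2 : 10 * C0 * s + 4 * C0 * lvl n Q ((n : ℤ) + 2) ≤ 1694 * 10 ^ 15 * W := by
      unfold C0
      nlinarith
    have a3 := a1.trans (add_le_add_right (ENNReal.ofReal_le_ofReal a2) _)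
    rw [← ENNReal.ofReal_add (by positivity) (by positivity),
      ENNReal.ofReal_le_ofReal_iff (by positivity)] at a3
    have a4 : 1694 * 10 ^ 15 * W ≤ τ * (0.001 * x) := by nlinarith
    have a5 : τ * (0.999 * x) ≤ τ * p := by linarith
    exact le_of_mul_le_mul_left a5 h0
  have hside : ENNReal.ofReal (4 * C0 * s) ≤ ENNReal.ofReal (0.001 * x) := by
    refine ENNReal.ofReal_le_ofReal ?_
    unfold C0
    nlinarith
  -- the bad set
  have hEr : volume (P ∩ {X | d ≤ Er X}) ≤ ENNReal.ofReal (0.31 * x) := by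
    have a1 : ENNReal.ofReal d * volume (P ∩ {X | d ≤ Er X}) ≤
        ∫⁻ X in P, ENNReal.ofReal (Er X) := by
      have a2 := mul_meas_ge_le_lintegral₀ (μ := volume.restrict P)
        (f := fun X => ENNReal.ofReal (Er X)) (hFS.measEr.ennreal_ofReal.aemeasurable)
        (ENNReal.ofReal d)
      refine le_trans (mul_le_mul_right ?_ _) a2
      rw [Measure.restrict_apply (measurableSet_le measurable_const hFS.measEr.ennreal_ofReal)]
      refine measure_mono ?_
      intro X hX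
      refine ⟨?_, hX.1⟩
      simp only [Set.mem_ofPred_eq]
      exact ENNReal.ofReal_le_ofReal hX.2
    have a3 : ENNReal.ofReal d * volume (P ∩ {X | d ≤ Er X}) ≤
        ENNReal.ofReal d * ENNReal.ofReal (0.31 * x) := by
      refine a1.trans (hFS.err.trans ?_)
      rw [← ENNReal.ofReal_mul hd.le]
      refine ENNReal.ofReal_le_ofReal ?_
      have a4 : 10 ^ 20 * s ≤ 10 ^ 20 * (121 * W) := mul_le_mul_of_nonneg_left hs1 (by norm_num)
      have a5 : 0 < d * x := by positivity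
      nlinarith
    exact (ENNReal.mul_le_mul_iff_right (by simpa using hd) ENNReal.ofReal_ne_top).1 a3
  -- the good set
  obtain ⟨G, hG⟩ : ∃ G : Set ℝ, G = (P ∩ Set.Ioo 0 x) ∩ {X | Er X < d} := ⟨_, rfl⟩
  have hGmeas : MeasurableSet G := by
    rw [hG]
    exact (hFS.measP.inter measurableSet_Ioo).inter (measurableSet_lt hFS.measEr measurable_const)
  have hcover : P ⊆ (P ∩ Set.Iio 0) ∪ ((P ∩ Set.Ioi x) ∪ (({0} ∪ {x}) ∪
      ((P ∩ {X | d ≤ Er X}) ∪ G))) := by
    intro X hX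
    rcases lt_trichotomy X 0 with a | a | a
    · exact Or.inl ⟨hX, a⟩
    · exact Or.inr (Or.inr (Or.inl (Or.inl a)))
    rcases lt_trichotomy X x with b | b | b
    · rcases le_or_gt d (Er X) with c | c
      · exact Or.inr (Or.inr (Or.inr (Or.inl ⟨hX, c⟩)))
      · refine Or.inr (Or.inr (Or.inr (Or.inr ?_)))
        rw [hG]
        exact ⟨⟨hX, a, b⟩, c⟩
    · exact Or.inr (Or.inr (Or.inl (Or.inr b)))
    · exact Or.inr (Or.inl ⟨hX, b⟩)
  have hvol : ENNReal.ofReal p ≤ ENNReal.ofReal (0.001 * x) + (ENNReal.ofReal (0.001 * x) +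
      (0 + (ENNReal.ofReal (0.31 * x) + volume G))) := by
    rw [← hpE]
    refine (measure_mono hcover).trans ?_
    refine (measure_union_le _ _).trans (add_le_add (hleft.trans hside) ?_)
    refine (measure_union_le _ _).trans (add_le_add (hright.trans hside) ?_)
    refine (measure_union_le _ _).trans (add_le_add ?_ ?_)
    · refine (measure_union_le _ _).trans ?_
      simp
    · exact (measure_union_le _ _).trans (add_le_add hEr le_rfl)
  have hGfin : volume G ≠ ⊤ := by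
    refine ne_top_of_le_ne_top hPfin (measure_mono ?_)
    rw [hG]
    exact fun X hX => hX.1.1
  obtain ⟨g, hg⟩ : ∃ g : ℝ, g = (volume G).toReal := ⟨_, rfl⟩
  have hgE : volume G = ENNReal.ofReal g := by rw [hg, ENNReal.ofReal_toReal hGfin]
  have hg0 : 0 ≤ g := by rw [hg]; exact ENNReal.toReal_nonneg
  have hg1 : 0.6 * x ≤ g := by
    rw [hgE, zero_add, ← ENNReal.ofReal_add (by positivity) hg0,
      ← ENNReal.ofReal_add (by positivity) (by positivity),
      ← ENNReal.ofReal_add (by positivity) (by positivity),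
      ENNReal.ofReal_le_ofReal_iff (by positivity)] at hvol
    linarith
  -- the phase on the good set
  have hint : ENNReal.ofReal (3 * d) * volume G ≤ ∫⁻ X in P, ENNReal.ofReal (Λ X) := by
    have hGP : G ⊆ P := by rw [hG]; exact fun X hX => hX.1.1
    refine le_trans ?_ (lintegral_mono_set hGP)
    rw [← setLIntegral_const]
    refine lintegral_mono_ae ?_
    rw [ae_restrict_iff' hGmeas]
    filter_upwards [htop] with X hX hXG
    rw [hG] at hXG
    refine ENNReal.ofReal_le_ofReal ?_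
    have b1 := hFS.phase X hXG.1.1
    have b2 := hX hXG.1.2.1 hXG.1.2.2
    have b3 : (((n : ℤ) + 2 : ℤ) : ℝ) = (n : ℝ) + 2 := by push_cast; ring
    rw [b3, b2] at b1
    exact Energy.phase_ge hd hd1 hd2 (hFS.Λ_nonneg X hXG.1.1) hXG.2 b1
  have hfin := hint.trans hFS.en
  rw [hgE, ← ENNReal.ofReal_mul (by positivity), ENNReal.ofReal_le_ofReal_iff (by positivity)] at hfin
  have hpi := Real.pi_lt_four
  have c1 : 3 * d * (0.6 * x) ≤ 3 * d * g := mul_le_mul_of_nonneg_left hg1 (by positivity)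
  have c2 : π * e ≤ 4 * e := mul_le_mul_of_nonneg_right hpi.le he
  have c3 : 0 < d * x := by positivity
  nlinarith

end H40.PK
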