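import Pool.Agent.H40.PK.Defs
import Pool.Agent.H40.PK.Fmeas
import Pool.Agent.H40.PK.Geo
import Pool.Graph.R_seed8.H282R3.SQ.Contact

/-! Module Fnorm (helper57): the phases have modulus one almost everywhere. -/

namespace H40.PK

open H282R4.PK

open MeasureTheory
open scoped Real ENNReal
open H282R3.SQ (USq)

namespace Fnorm

/-- the centre moves a point of the closed square into the open square -/
theorem mem_O_of_mem_C (Q : USq) (z : ℝ × ℝ) (hz : z ∈ Q.C) (t : ℝ) (ht0 : 0 < t) (ht1 : t ≤ 1) :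
    ((1 - t) * z.1 + t * Q.p, (1 - t) * z.2 + t * Q.q) ∈ Q.O := by
  have hX : Q.X ((1 - t) * z.1 + t * Q.p, (1 - t) * z.2 + t * Q.q) = (1 - t) * Q.X z := by
    simp only [USq.X]; ring
  have hY : Q.Y ((1 - t) * z.1 + t * Q.p, (1 - t) * z.2 + t * Q.q) = (1 - t) * Q.Y z := by
    simp only [USq.Y]; ring
  obtain ⟨h1, h2⟩ := hz
  have h3 : 0 ≤ 1 - t := by linarith
  refine ⟨?_, ?_⟩
  · rw [hX, abs_mul, abs_of_nonneg h3]
    nlinarith [abs_nonneg (Q.X z)]
  · rw [hY, abs_mul, abs_of_nonneg h3]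
    nlinarith [abs_nonneg (Q.Y z)]

/-- a point of an open square lies in no other closed square -/
theorem not_mem_C {Q Q' : USq} (hd : Disjoint Q.O Q'.O) {z : ℝ × ℝ} (hz : z ∈ Q.O) : z ∉ Q'.C := by
  intro hC
  have hcont : Continuous fun t : ℝ => ((1 - t) * z.1 + t * Q'.p, (1 - t) * z.2 + t * Q'.q) := by
    fun_prop
  have hopen : IsOpen ((fun t : ℝ => ((1 - t) * z.1 + t * Q'.p, (1 - t) * z.2 + t * Q'.q)) ⁻¹'
      Q.O) := (H282R3.SQ.isOpen_O Q).preimage hcont
  have h0 : (0 : ℝ) ∈ (fun t : ℝ => ((1 - t) * z.1 + t * Q'.p, (1 - t) * z.2 + t * Q'.q)) ⁻¹'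
      Q.O := by
    simp only [Set.mem_preimage, sub_zero, one_mul, zero_mul, add_zero]
    exact hz
  obtain ⟨ε, hε, hball⟩ := Metric.isOpen_iff.1 hopen 0 h0
  have ht : min (ε / 2) 1 ∈ Metric.ball (0 : ℝ) ε := by
    rw [Metric.mem_ball, dist_zero_right, Real.norm_of_nonneg (by positivity)]
    exact (min_le_left _ _).trans_lt (by linarith)
  have h1 := hball ht
  have h2 := mem_O_of_mem_C Q' z hC (min (ε / 2) 1) (by positivity) (min_le_right _ _)
  exact Set.disjoint_left.1 hd h1 h2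

theorem exp_half {y : ℝ} (hy : |y| = 1 / 2) : Complex.exp (2 * π * Complex.I * y) + 1 = 0 := by
  rcases (abs_eq (by norm_num : (0 : ℝ) ≤ 1 / 2)).1 hy with h | h
  · have : (2 * π * Complex.I * (y : ℂ)) = π * Complex.I := by
      rw [h]; push_cast; ring
    rw [this, Complex.exp_pi_mul_I]; ring
  · have : (2 * π * Complex.I * (y : ℂ)) = -(π * Complex.I) := by
      rw [h]; push_cast; ring
    rw [this, Complex.exp_neg, Complex.exp_pi_mul_I]; norm_num

theorem norm_exp (y : ℝ) : ‖Complex.exp (2 * π * Complex.I * y)‖ = 1 := by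
  have : (2 * π * Complex.I * (y : ℂ)) = ((2 * π * y : ℝ) : ℂ) * Complex.I := by
    push_cast; ring
  rw [this, Complex.norm_exp_ofReal_mul_I]

/-- the phase at a point off the lateral sides -/
theorem norm_F_of {ι : Type} {Q : ι → USq} (hd : ∀ i j, i ≠ j → Disjoint (Q i).O (Q j).O)
    (z : ℝ × ℝ) (hz : ∀ i, |(Q i).X z| ≠ 1 / 2) : ‖F Q z‖ = 1 := by
  by_cases h : ∃ i, z ∈ (Q i).O
  · obtain ⟨i, hi⟩ := h
    have h1 : ∀ j, j ≠ i → (Q j).C.indicator
        (fun z => Complex.exp (2 * π * Complex.I * (Q j).Y z) + 1) z = 0 := by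
      intro j hj
      exact Set.indicator_of_notMem (not_mem_C (hd i j hj.symm) hi) _
    rw [F, finsum_eq_single _ i h1, Set.indicator_of_mem (H282R3.SQ.O_subset_C _ hi)]
    rw [neg_add_cancel_comm_assoc]
    exact norm_exp _
  · push Not at h
    have h1 : ∀ j, (Q j).C.indicator
        (fun z => Complex.exp (2 * π * Complex.I * (Q j).Y z) + 1) z = 0 := by
      intro j
      by_cases hj : z ∈ (Q j).C
      · rw [Set.indicator_of_mem hj]
        refine exp_half ?_
        by_contra hY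
        exact h j ⟨lt_of_le_of_ne hj.1 (hz j), lt_of_le_of_ne hj.2 hY⟩
      · exact Set.indicator_of_notMem hj _
    rw [F, finsum_congr h1, finsum_zero]
    simp

end Fnorm

open Fnorm

/-- T5: on every horizontal line the phase has modulus one almost everywhere. -/
theorem norm_F_horiz {n : ℕ} {sg : ℝ} {ι : Type} [Countable ι] {Q : ι → USq} {W : ℝ} (h : PP n sg Q W)
    (y : ℝ) : ∀ᵐ X : ℝ, ‖F Q (X, y)‖ = 1 := by
  have hS : (⋃ i, ({(Q i).p + (1 / 2 - (Q i).b * (y - (Q i).q)) / (Q i).a,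
      (Q i).p + (-(1 / 2) - (Q i).b * (y - (Q i).q)) / (Q i).a} : Set ℝ)).Countable :=
    Set.countable_iUnion fun i => (Set.toFinite _).countable
  have hS0 := hS.measure_zero volume
  have hae : ∀ᵐ X : ℝ, X ∉ (⋃ i, ({(Q i).p + (1 / 2 - (Q i).b * (y - (Q i).q)) / (Q i).a,
      (Q i).p + (-(1 / 2) - (Q i).b * (y - (Q i).q)) / (Q i).a} : Set ℝ)) :=
    measure_eq_zero_iff_ae_notMem.1 hS0
  filter_upwards [hae] with X hX
  refine norm_F_of h.disj (X, y) fun i hi => hX ?_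
  have ha : 0 < (Q i).a := by
    have h1 := h.norm i
    have h2 := (Q i).unit
    have h3 : 0 ≤ (Q i).a := (abs_nonneg _).trans h1
    rcases h3.eq_or_lt with h4 | h4
    · rw [← h4] at h1 h2
      have h5 : (Q i).b = 0 := abs_nonpos_iff.1 h1
      rw [h5] at h2
      norm_num at h2
    · exact h4
  rw [Set.mem_iUnion]
  refine ⟨i, ?_⟩
  simp only [USq.X] at hi
  rcases (abs_eq (by norm_num : (0 : ℝ) ≤ 1 / 2)).1 hi with h1 | h1
  · left
    field_simp
    linarith
  · right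
    rw [Set.mem_singleton_iff]
    field_simp
    linarith

namespace Fnorm

theorem swap_ae {n : ℕ} {sg : ℝ} {ι : Type} [Countable ι] {Q : ι → USq} {W : ℝ} (h : PP n sg Q W) :
    ∀ᵐ z : ℝ × ℝ, ‖F Q z.swap‖ = 1 := by
  have hm : MeasurableSet {z : ℝ × ℝ | ‖F Q z.swap‖ = 1} :=
    measurableSet_eq_fun ((measurable_F h).comp measurable_swap).norm measurable_const
  rw [Measure.volume_eq_prod]
  exact (Measure.ae_prod_mem_iff_ae_ae_mem hm).2
    (Filter.Eventually.of_forall fun x => norm_F_horiz h x)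

end Fnorm

/-- T5 -/
theorem norm_F_ae {n : ℕ} {sg : ℝ} {ι : Type} [Countable ι] {Q : ι → USq} {W : ℝ} (h : PP n sg Q W) :
    ∀ᵐ z : ℝ × ℝ, ‖F Q z‖ = 1 ∧ ‖FH Q z‖ = 1 := by
  have h1 : ∀ᵐ z : ℝ × ℝ, ‖F Q z‖ = 1 := by
    have hp : Measure.QuasiMeasurePreserving (Prod.swap : ℝ × ℝ → ℝ × ℝ) volume volume :=
      (Measure.measurePreserving_swap (μ := (volume : Measure ℝ))
        (ν := (volume : Measure ℝ))).quasiMeasurePreserving
    filter_upwards [hp.ae (Fnorm.swap_ae h)] with z hz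
    rwa [Prod.swap_swap] at hz
  filter_upwards [h1, Fnorm.swap_ae h.trans] with z hz hz'
  exact ⟨hz, hz'⟩

end H40.PK
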