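import Pool.Agent.H40.PK.Defs
import Pool.Graph.R_seed8.H282R3.SQ.Area
import Pool.Agent.H40.PK.Geo
import Pool.Agent.H40.PK.Fin
import Pool.Agent.H40.PK.Fmeas
import Pool.Agent.H40.PK.Fnorm
import Pool.Agent.H40.PK.LineInt
import Pool.Agent.H40.PK.LineId

/-! Module Core of project PK: the core of the local lemma. -/

namespace H40.PK

open H282R4.PK

open MeasureTheory
open scoped Real ENNReal
open H282R3.SQ (USq)

namespace Core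

/-- frame point -/
noncomputable def P (z : ℤ × ℤ) (w : ℝ × ℝ) (ξ ζ : ℝ) : ℝ × ℝ :=
  (z.1 + ξ * w.2 + ζ * w.1, z.2 - ξ * w.1 + ζ * w.2)

/-- `exp (2 π i x)` -/
noncomputable def ee (x : ℝ) : ℂ := Complex.exp (2 * π * Complex.I * x)

theorem ee_add (x y : ℝ) : ee (x + y) = ee x * ee y := by
  unfold ee; rw [← Complex.exp_add]; congr 1; push_cast; ring

theorem norm_ee (x : ℝ) : ‖ee x‖ = 1 := by
  unfold ee
  rw [show 2 * (π : ℂ) * Complex.I * x = ((2 * π * x : ℝ) : ℂ) * Complex.I by push_cast; ring]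
  exact Complex.norm_exp_ofReal_mul_I _

theorem ee_zero : ee 0 = 1 := by unfold ee; simp

theorem conj_ee (x : ℝ) : (starRingEnd ℂ) (ee x) = ee (-x) := by
  unfold ee; rw [← Complex.exp_conj]; congr 1
  simp only [map_mul, Complex.conj_I, Complex.conj_ofReal, map_ofNat]
  push_cast
  ring

theorem measurable_ee : Measurable ee := by
  unfold ee; fun_prop

theorem continuous_ee : Continuous ee := by
  unfold ee; fun_prop

variable {ι : Type}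

/-- vertical phase in the frame -/
noncomputable def AA (Q : ι → USq) (z : ℤ × ℤ) (w : ℝ × ℝ) (ξ ζ : ℝ) : ℂ :=
  F Q (P z w ξ ζ) * ee (-ζ)

/-- horizontal phase in the frame -/
noncomputable def BB (Q : ι → USq) (z : ℤ × ℤ) (w : ℝ × ℝ) (ξ ζ : ℝ) : ℂ :=
  FH Q (P z w ξ ζ) * ee (-ξ)

theorem BB_eq (Q : ι → USq) (z : ℤ × ℤ) (w : ℝ × ℝ) (ξ ζ : ℝ) :
    BB Q z w ξ ζ = AA (fun i => tr (Q i)) (z.2, z.1) (-w.1, w.2) ζ ξ := by
  unfold BB AA FH P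
  congr 2
  ext
  · simp only []; ring
  · simp only []; ring

theorem Gf_eq (Q : ι → USq) (z : ℤ × ℤ) (w : ℝ × ℝ) (ξ ζ : ℝ) :
    Gf Q (P z w ξ ζ) * ee (ξ - ζ) = AA Q z w ξ ζ * (ee ξ + (starRingEnd ℂ) (BB Q z w ξ ζ)) := by
  unfold Gf AA BB
  rw [map_mul, conj_ee, neg_neg, sub_eq_add_neg, ee_add]
  ring

theorem continuous_P (z : ℤ × ℤ) (w : ℝ × ℝ) : Continuous fun p : ℝ × ℝ => P z w p.1 p.2 := by
  unfold P; fun_prop

theorem mem_Bx {z : ℤ × ℤ} {w : ℝ × ℝ} (hw : w.1 ^ 2 + w.2 ^ 2 = 1) (hw2 : |w.1| ≤ w.2 / 4)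
    {L : ℕ} (hL : 1 ≤ L) (hLw : L * |w.1| ≤ 1 / 8) {ξ ζ : ℝ} (h1 : -1 ≤ ξ) (h2 : ξ ≤ L + 1)
    (h3 : -1 ≤ ζ) (h4 : ζ ≤ L + 1) : P z w ξ ζ ∈ Bx L z := by
  have hL' : (1 : ℝ) ≤ L := by exact_mod_cast hL
  have hw0 : 0 ≤ w.2 := by linarith [abs_nonneg w.1]
  have hw1 : w.2 ≤ 1 := by nlinarith [sq_nonneg w.1]
  have ha := abs_nonneg w.1
  have hb : |w.1| ≤ 1 / 8 := by nlinarith
  have key : ∀ x : ℝ, -1 ≤ x → x ≤ L + 1 → |x * w.1| ≤ 1 / 4 := by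
    intro x hx1 hx2
    rw [abs_mul]
    have : |x| ≤ L + 1 := abs_le.2 ⟨by linarith, hx2⟩
    calc |x| * |w.1| ≤ (L + 1) * |w.1| := by gcongr
      _ = L * |w.1| + |w.1| := by ring
      _ ≤ 1 / 4 := by linarith
  have k1 := abs_le.1 (key ξ h1 h2)
  have k2 := abs_le.1 (key ζ h3 h4)
  have m : ∀ x : ℝ, -1 ≤ x → x ≤ L + 1 → -1 ≤ x * w.2 ∧ x * w.2 ≤ L + 1 := by
    intro x hx1 hx2
    constructor
    · rcases le_or_gt 0 x with h | h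
      · nlinarith
      · nlinarith
    · rcases le_or_gt 0 x with h | h
      · nlinarith
      · nlinarith
  have m1 := m ξ h1 h2
  have m2 := m ζ h3 h4
  simp only [Bx, P, Set.mem_ofPred_eq]
  refine ⟨?_, ?_, ?_, ?_⟩ <;> linarith [k1.1, k1.2, k2.1, k2.2, m1.1, m1.2, m2.1, m2.2]

theorem isBounded_Bx (L : ℕ) (z : ℤ × ℤ) : Bornology.IsBounded (Bx L z) := by
  have : Bx L z ⊆ Set.Icc ((z.1 : ℝ) - 3) (z.1 + L + 4) ×ˢ Set.Icc ((z.2 : ℝ) - 3) (z.2 + L + 4) := by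
    intro x hx
    simp only [Bx, Set.mem_ofPred_eq] at hx
    exact ⟨⟨hx.1, hx.2.1⟩, ⟨hx.2.2.1, hx.2.2.2⟩⟩
  exact ((Metric.isBounded_Icc _ _).prod (Metric.isBounded_Icc _ _)).subset this

theorem measurableSet_Bx (L : ℕ) (z : ℤ × ℤ) : MeasurableSet (Bx L z) := by
  have : Bx L z = Set.Icc ((z.1 : ℝ) - 3) (z.1 + L + 4) ×ˢ Set.Icc ((z.2 : ℝ) - 3) (z.2 + L + 4) := by
    ext x
    simp only [Bx, Set.mem_ofPred_eq, Set.mem_prod, Set.mem_Icc]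
    tauto
  rw [this]
  exact measurableSet_Icc.prod measurableSet_Icc

theorem Dev_tr (Q : ι → USq) (w : ℝ × ℝ) (L : ℕ) (z : ℤ × ℤ) :
    Dev (fun i => tr (Q i)) (-w.1, w.2) (Bx L (z.2, z.1)) = Dev Q w (Bx L z) := by
  have hB : ∀ x : ℝ × ℝ, x ∈ Bx L (z.2, z.1) ↔ (x.2, x.1) ∈ Bx L z := by
    intro x
    simp only [Bx, Set.mem_ofPred_eq]
    tauto
  have hG : Gap (fun i => tr (Q i)) ∩ Bx L (z.2, z.1) =
      (MeasurableEquiv.prodComm : ℝ × ℝ ≃ᵐ ℝ × ℝ) ⁻¹' (Gap Q ∩ Bx L z) := by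
    ext x
    simp only [Gap, Set.mem_inter_iff, Set.mem_compl_iff, Set.mem_iUnion, mem_tr_C, hB,
      Set.mem_preimage]
    rfl
  unfold Dev
  congr 1
  · rw [hG]
    congr 1
    have hsw : MeasurePreserving (⇑(MeasurableEquiv.prodComm : ℝ × ℝ ≃ᵐ ℝ × ℝ)) volume volume :=
      Measure.measurePreserving_swap (μ := (volume : Measure ℝ)) (ν := (volume : Measure ℝ))
    exact hsw.measure_preimage_equiv _
  · have hs : {i | ((tr (Q i)).C ∩ Bx L (z.2, z.1)).Nonempty} = {i | ((Q i).C ∩ Bx L z).Nonempty} := by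
      ext i
      simp only [Set.mem_ofPred_eq]
      constructor
      · rintro ⟨x, hx1, hx2⟩
        exact ⟨(x.2, x.1), (mem_tr_C _ _).1 hx1, (hB x).1 hx2⟩
      · rintro ⟨x, hx1, hx2⟩
        exact ⟨(x.2, x.1), (mem_tr_C _ _).2 hx1, (hB _).2 hx2⟩
    rw [hs]
    refine finsum_congr fun i => finsum_congr fun _ => ?_
    simp only [tr]
    rw [← abs_neg]
    congr 1
    ring

theorem F_bdd {n : ℕ} {sg : ℝ} {Q : ι → USq} {W : ℝ} (h : PP n sg Q W) (B : Set (ℝ × ℝ))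
    (hB : Bornology.IsBounded B) : ∃ M : ℝ, ∀ z ∈ B, ‖F Q z‖ ≤ M := by
  classical
  have hfin := fin_meet h B hB
  refine ⟨1 + ∑ i ∈ hfin.toFinset, 2, fun z hz => ?_⟩
  unfold F
  rw [finsum_eq_sum_of_support_subset (s := hfin.toFinset)]
  · refine (norm_add_le _ _).trans ?_
    rw [norm_neg, norm_one]
    gcongr
    refine (norm_sum_le _ _).trans ?_
    refine Finset.sum_le_sum fun i _ => ?_
    by_cases hi : z ∈ (Q i).C
    · rw [Set.indicator_of_mem hi]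
      refine (norm_add_le _ _).trans ?_
      have := norm_ee ((Q i).Y z)
      unfold ee at this
      rw [this, norm_one]; norm_num
    · rw [Set.indicator_of_notMem hi]
      simp
  · intro i hi
    rw [Function.mem_support] at hi
    have : z ∈ (Q i).C := by
      by_contra hc
      exact hi (Set.indicator_of_notMem hc _)
    simp only [Set.Finite.coe_toFinset, Set.mem_ofPred_eq]
    exact ⟨z, this, hz⟩

/-- the line lemma in the frame -/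
theorem LA {n : ℕ} {sg : ℝ} [Countable ι] {Q : ι → USq} {W : ℝ} (h : PP n sg Q W)
    (z : ℤ × ℤ) (w : ℝ × ℝ) (hw : w.1 ^ 2 + w.2 ^ 2 = 1) (hw2 : |w.1| ≤ w.2 / 4)
    (L : ℕ) (α β c t1 t2 : ℝ) (hα : 0 < α) (d : ℝ → ℝ) (hd : ∀ t ∈ Set.Icc t1 t2, c ≤ d t)
    (hsub : ∀ t ∈ Set.Icc t1 t2, ∀ ζ ∈ Set.Icc c (d t), P z w (t * α + β) ζ ∈ Bx L z) :
    ∫⁻ t in Set.Icc t1 t2, ‖AA Q z w (t * α + β) (d t) - AA Q z w (t * α + β) c‖ₑ ≤
      ENNReal.ofReal (20 / α) * ENNReal.ofReal (Dev Q w (Bx L z)) := by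
  have key := line_int h (P z w β c) (α * w.2, -(α * w.1)) w hw hw2 α hα
    (by
      have : α * w.2 * w.2 - -(α * w.1) * w.1 = α := by
        linear_combination α * hw
      simp only []
      rw [this]
      exact le_abs_self _) t1 t2 (fun t => max (d t - c) 0) (fun t => le_max_right _ _)
    (Bx L z) (measurableSet_Bx L z) (isBounded_Bx L z)
    (by
      intro t ht s hs
      simp only [max_eq_left (sub_nonneg.2 (hd t ht))] at hs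
      have := hsub t ht (c + s) ⟨by linarith [hs.1], by linarith [hs.2]⟩
      convert this using 1
      unfold P
      ext
      · simp only [Prod.fst_add, Prod.smul_fst, smul_eq_mul]; ring
      · simp only [Prod.snd_add, Prod.smul_snd, smul_eq_mul]; ring)
  rw [← ENNReal.ofReal_mul (by positivity)]
  refine le_trans (le_of_eq ?_) key
  refine setLIntegral_congr_fun measurableSet_Icc ?_
  intro t ht
  simp only [max_eq_left (sub_nonneg.2 (hd t ht))]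
  have e1 : P z w β c + t • (α * w.2, -(α * w.1)) + (d t - c) • w = P z w (t * α + β) (d t) := by
    unfold P
    ext
    · simp only [Prod.fst_add, Prod.smul_fst, smul_eq_mul]; ring
    · simp only [Prod.snd_add, Prod.smul_snd, smul_eq_mul]; ring
  have e2 : P z w β c + t • (α * w.2, -(α * w.1)) = P z w (t * α + β) c := by
    unfold P
    ext
    · simp only [Prod.fst_add, Prod.smul_fst, smul_eq_mul]; ring
    · simp only [Prod.snd_add, Prod.smul_snd, smul_eq_mul]; ring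
  rw [e1, e2]
  unfold AA
  have e3 : F Q (P z w (t * α + β) (d t)) * ee (-(d t)) - F Q (P z w (t * α + β) c) * ee (-c) =
      (F Q (P z w (t * α + β) (d t)) * Complex.exp (-(2 * π * Complex.I * ((d t - c : ℝ) : ℂ))) -
        F Q (P z w (t * α + β) c)) * ee (-c) := by
    have : ee (-(d t)) = Complex.exp (-(2 * π * Complex.I * ((d t - c : ℝ) : ℂ))) * ee (-c) := by
      have h1 : ee (-(d t)) = ee (-(d t - c)) * ee (-c) := by
        rw [← ee_add]; congr 1; ring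
      rw [h1]
      congr 1
      unfold ee
      congr 1
      push_cast
      ring
    rw [this]; ring
  rw [e3, ← ofReal_norm, ← ofReal_norm, norm_mul, norm_ee, mul_one]

/-- the transposed line lemma in the frame -/
theorem LB {n : ℕ} {sg : ℝ} [Countable ι] {Q : ι → USq} {W : ℝ} (h : PP n sg Q W)
    (z : ℤ × ℤ) (w : ℝ × ℝ) (hw : w.1 ^ 2 + w.2 ^ 2 = 1) (hw2 : |w.1| ≤ w.2 / 4)
    (L : ℕ) (α β c t1 t2 : ℝ) (hα : 0 < α) (d : ℝ → ℝ) (hd : ∀ t ∈ Set.Icc t1 t2, c ≤ d t)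
    (hsub : ∀ t ∈ Set.Icc t1 t2, ∀ ξ ∈ Set.Icc c (d t), P z w ξ (t * α + β) ∈ Bx L z) :
    ∫⁻ t in Set.Icc t1 t2, ‖BB Q z w (d t) (t * α + β) - BB Q z w c (t * α + β)‖ₑ ≤
      ENNReal.ofReal (20 / α) * ENNReal.ofReal (Dev Q w (Bx L z)) := by
  have key := LA h.trans (z.2, z.1) (-w.1, w.2) (by simpa using hw) (by simpa using hw2) L α β c
    t1 t2 hα d hd (by
      intro t ht ξ hξ
      have := hsub t ht ξ hξ
      simp only [Bx, P, Set.mem_ofPred_eq] at this ⊢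
      refine ⟨?_, ?_, ?_, ?_⟩ <;> linarith [this.1, this.2.1, this.2.2.1, this.2.2.2])
  rw [Dev_tr] at key
  simp only [BB_eq]
  exact key

theorem lint_scale (g : ℝ → ℝ≥0∞) (a c : ℝ) (ha : 0 < a) :
    ∫⁻ s in Set.Icc (0 : ℝ) 1, g (s * a + c) = ENNReal.ofReal (1 / a) *
      ∫⁻ x in Set.Icc c (c + a), g x := by
  have himg : (fun s : ℝ => s * a + c) '' Set.Icc (0 : ℝ) 1 = Set.Icc c (c + a) := by
    ext x
    constructor
    · rintro ⟨s, ⟨h1, h2⟩, rfl⟩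
      constructor
      · simp only []; nlinarith
      · simp only []; nlinarith
    · rintro ⟨h1, h2⟩
      refine ⟨(x - c) / a, ⟨div_nonneg (by linarith) ha.le, (div_le_one ha).2 (by linarith)⟩, ?_⟩
      simp only []
      field_simp
      ring
  have := lintegral_image_eq_lintegral_abs_deriv_mul (s := Set.Icc (0 : ℝ) 1)
    (f := fun s : ℝ => s * a + c) (f' := fun _ => a) measurableSet_Icc
    (fun x _ => by
      simpa using (((hasDerivAt_id x).mul_const a).add_const c).hasDerivWithinAt)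
    (fun x _ y _ hxy => by
      have : x * a = y * a := by simpa using hxy
      exact mul_right_cancel₀ ha.ne' this) g
  rw [himg] at this
  rw [this, lintegral_const_mul' _ _ ENNReal.ofReal_ne_top, ← mul_assoc,
    ← ENNReal.ofReal_mul (by positivity), abs_of_pos ha, one_div, inv_mul_cancel₀ ha.ne',
    ENNReal.ofReal_one, one_mul]

/-- the error in the identity -/
noncomputable def EE (Q : ι → USq) (z : ℤ × ℤ) (w : ℝ × ℝ) (ℓ ξ ζ : ℝ) : ℂ :=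
  AA Q z w (ξ + ℓ) ζ * (ee (ξ + ℓ) + (starRingEnd ℂ) (BB Q z w (ξ + ℓ) ζ)) -
    AA Q z w ξ ζ * (ee ξ + (starRingEnd ℂ) (BB Q z w ξ ζ)) -
    2 * π * Complex.I * ∫ σ in (0 : ℝ)..ℓ, ee (ξ + σ) * AA Q z w (ξ + σ) ζ

theorem norm_EE (Q : ι → USq) (z : ℤ × ℤ) (w : ℝ × ℝ) (ℓ ξ ζ : ℝ) :
    ‖EE Q z w ℓ ξ ζ‖ = ‖Gf Q (P z w (ξ + ℓ) ζ) * ee ℓ - Gf Q (P z w ξ ζ) -
        2 * π * Complex.I * ∫ σ in (0 : ℝ)..ℓ, ee σ * F Q (P z w (ξ + σ) ζ)‖ := by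
  have hI : ∫ σ in (0 : ℝ)..ℓ, ee (ξ + σ) * AA Q z w (ξ + σ) ζ =
      (∫ σ in (0 : ℝ)..ℓ, ee σ * F Q (P z w (ξ + σ) ζ)) * ee (ξ - ζ) := by
    rw [← intervalIntegral.integral_mul_const]
    congr 1
    ext σ
    unfold AA
    rw [show ξ - ζ = ξ + -ζ by ring, ee_add ξ σ, ee_add ξ (-ζ)]
    ring
  have : EE Q z w ℓ ξ ζ = (Gf Q (P z w (ξ + ℓ) ζ) * ee ℓ - Gf Q (P z w ξ ζ) -
        2 * π * Complex.I * ∫ σ in (0 : ℝ)..ℓ, ee σ * F Q (P z w (ξ + σ) ζ)) * ee (ξ - ζ) := by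
    unfold EE
    rw [hI, ← Gf_eq, ← Gf_eq, show ξ + ℓ - ζ = ℓ + (ξ - ζ) by ring, ee_add ℓ (ξ - ζ)]
    ring
  rw [this, norm_mul, norm_ee, mul_one]

theorem LE {n : ℕ} {sg : ℝ} [Countable ι] {Q : ι → USq} {W : ℝ} (h : PP n sg Q W)
    (z : ℤ × ℤ) (w : ℝ × ℝ) (hw : w.1 ^ 2 + w.2 ^ 2 = 1) (hw2 : |w.1| ≤ w.2 / 4)
    (L : ℕ) (ξ ℓ a c : ℝ) (ha : 0 < a) (hℓ : 0 ≤ ℓ)
    (hsub : ∀ ζ ∈ Set.Icc c (c + a), ∀ s ∈ Set.Icc 0 ℓ, P z w (ξ + s) ζ ∈ Bx L z) :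
    ∫⁻ s in Set.Icc (0 : ℝ) 1, ‖EE Q z w ℓ ξ (s * a + c)‖ₑ ≤
      ENNReal.ofReal (40 / a) * ENNReal.ofReal (Dev Q w (Bx L z)) := by
  have e : ∀ ζ s : ℝ, P z w ξ 0 + ζ • w + s • (w.2, -w.1) = P z w (ξ + s) ζ := by
    intro ζ s
    unfold P
    ext
    · simp only [Prod.fst_add, Prod.smul_fst, smul_eq_mul]; ring
    · simp only [Prod.snd_add, Prod.smul_snd, smul_eq_mul]; ring
  have e0 : ∀ ζ : ℝ, P z w ξ 0 + ζ • w = P z w ξ ζ := by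
    intro ζ
    unfold P
    ext
    · simp only [Prod.fst_add, Prod.smul_fst, smul_eq_mul]; ring
    · simp only [Prod.snd_add, Prod.smul_snd, smul_eq_mul]; ring
  have e1 : ∀ ζ s : ℝ, P z w ξ ζ + s • (w.2, -w.1) = P z w (ξ + s) ζ := by
    intro ζ s
    rw [← e, e0]
  have key := line_id h (P z w ξ 0) w hw hw2 c (c + a) ℓ hℓ (Bx L z) (measurableSet_Bx L z)
    (isBounded_Bx L z) (by
      intro t ht s hs
      rw [e]
      exact hsub t ht s hs)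
  simp only [e0, e1] at key
  rw [lint_scale (fun x => ‖EE Q z w ℓ ξ x‖ₑ) a c ha]
  have k2 : ∫⁻ x in Set.Icc c (c + a), ‖EE Q z w ℓ ξ x‖ₑ ≤ ENNReal.ofReal (40 * Dev Q w (Bx L z)) := by
    refine le_trans (le_of_eq ?_) key
    refine lintegral_congr fun x => ?_
    rw [← ofReal_norm, ← ofReal_norm, norm_EE]
    rfl
  calc _ ≤ ENNReal.ofReal (1 / a) * ENNReal.ofReal (40 * Dev Q w (Bx L z)) := by gcongr
    _ = _ := by
      rw [← ENNReal.ofReal_mul (by positivity), ← ENNReal.ofReal_mul (by positivity)]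
      congr 1
      ring

theorem alg1 (A00 A01 A10 A11 B00 B01 B10 B11 e0 e1 T0 T1 : ℂ) (he0 : ‖e0‖ ≤ 1) (he1 : ‖e1‖ ≤ 1)
    (hB11 : ‖B11‖ ≤ 1) (hB01 : ‖B01‖ ≤ 1) (hA10 : ‖A10‖ ≤ 1) :
    ‖A10 - A00‖ * ‖B01 - B00‖ ≤
      ‖A10 * (e1 + (starRingEnd ℂ) B10) - A00 * (e0 + (starRingEnd ℂ) B00) - T0‖ +
      ‖A11 * (e1 + (starRingEnd ℂ) B11) - A01 * (e0 + (starRingEnd ℂ) B01) - T1‖ +
      ‖T1 - T0‖ + 2 * ‖A11 - A10‖ + 2 * ‖A01 - A00‖ + ‖B10 - B00‖ + ‖B11 - B01‖ := by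
  set c := starRingEnd ℂ with hc
  have id : (A10 - A00) * c (B01 - B00) =
      -(A10 * (e1 + c B10) - A00 * (e0 + c B00) - T0) +
      (A11 * (e1 + c B11) - A01 * (e0 + c B01) - T1) +
      (T1 - T0) - (A11 - A10) * (e1 + c B11) + (A01 - A00) * (e0 + c B01) +
      A10 * c (B10 - B00) - A10 * c (B11 - B01) := by
    simp only [map_sub]
    ring
  have n1 : ‖A10 - A00‖ * ‖B01 - B00‖ = ‖(A10 - A00) * c (B01 - B00)‖ := by
    rw [norm_mul, hc, RCLike.norm_conj]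
  have p1 : ‖(A11 - A10) * (e1 + c B11)‖ ≤ 2 * ‖A11 - A10‖ := by
    rw [norm_mul, mul_comm]
    gcongr
    refine (norm_add_le _ _).trans ?_
    rw [hc, RCLike.norm_conj]; linarith
  have p2 : ‖(A01 - A00) * (e0 + c B01)‖ ≤ 2 * ‖A01 - A00‖ := by
    rw [norm_mul, mul_comm]
    gcongr
    refine (norm_add_le _ _).trans ?_
    rw [hc, RCLike.norm_conj]; linarith
  have p3 : ‖A10 * c (B10 - B00)‖ ≤ ‖B10 - B00‖ := by
    rw [norm_mul, hc, RCLike.norm_conj]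
    exact mul_le_of_le_one_left (norm_nonneg _) hA10
  have p4 : ‖A10 * c (B11 - B01)‖ ≤ ‖B11 - B01‖ := by
    rw [norm_mul, hc, RCLike.norm_conj]
    exact mul_le_of_le_one_left (norm_nonneg _) hA10
  rw [n1, id]
  have t : ∀ a b c d e f g : ℂ, ‖-a + b + c - d + e + f - g‖ ≤
      ‖a‖ + ‖b‖ + ‖c‖ + ‖d‖ + ‖e‖ + ‖f‖ + ‖g‖ := by
    intro a b c d e f g
    calc ‖-a + b + c - d + e + f - g‖ ≤ ‖-a + b + c - d + e + f‖ + ‖g‖ := norm_sub_le _ _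
      _ ≤ ‖-a + b + c - d + e‖ + ‖f‖ + ‖g‖ := by gcongr; exact norm_add_le _ _
      _ ≤ ‖-a + b + c - d‖ + ‖e‖ + ‖f‖ + ‖g‖ := by gcongr; exact norm_add_le _ _
      _ ≤ ‖-a + b + c‖ + ‖d‖ + ‖e‖ + ‖f‖ + ‖g‖ := by gcongr; exact norm_sub_le _ _
      _ ≤ ‖-a + b‖ + ‖c‖ + ‖d‖ + ‖e‖ + ‖f‖ + ‖g‖ := by gcongr; exact norm_add_le _ _
      _ ≤ ‖-a‖ + ‖b‖ + ‖c‖ + ‖d‖ + ‖e‖ + ‖f‖ + ‖g‖ := by gcongr; exact norm_add_le _ _
      _ = _ := by rw [norm_neg]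
  refine (t _ _ _ _ _ _ _).trans ?_
  linarith

theorem alg2 (a1 a2 A0 A1 b1 b2 B0 B1 : ℂ) (ha1 : ‖a1‖ ≤ 1) (ha2 : ‖a2‖ ≤ 1)
    (hB0 : ‖B0‖ ≤ 1) (hB1 : ‖B1‖ ≤ 1) :
    ‖a2 - a1‖ * ‖b2 - b1‖ ≤ ‖A1 - A0‖ * ‖B1 - B0‖ +
      2 * (‖a1 - A0‖ + ‖a2 - A1‖) + 2 * (‖b1 - B0‖ + ‖b2 - B1‖) := by
  have h1 : ‖a2 - a1‖ ≤ ‖A1 - A0‖ + (‖a1 - A0‖ + ‖a2 - A1‖) := by
    calc ‖a2 - a1‖ = ‖(A1 - A0) - (a1 - A0) + (a2 - A1)‖ := by congr 1; ring
      _ ≤ ‖(A1 - A0) - (a1 - A0)‖ + ‖a2 - A1‖ := norm_add_le _ _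
      _ ≤ ‖A1 - A0‖ + ‖a1 - A0‖ + ‖a2 - A1‖ := by gcongr; exact norm_sub_le _ _
      _ = _ := by ring
  have h2 : ‖b2 - b1‖ ≤ ‖B1 - B0‖ + (‖b1 - B0‖ + ‖b2 - B1‖) := by
    calc ‖b2 - b1‖ = ‖(B1 - B0) - (b1 - B0) + (b2 - B1)‖ := by congr 1; ring
      _ ≤ ‖(B1 - B0) - (b1 - B0)‖ + ‖b2 - B1‖ := norm_add_le _ _
      _ ≤ ‖B1 - B0‖ + ‖b1 - B0‖ + ‖b2 - B1‖ := by gcongr; exact norm_sub_le _ _
      _ = _ := by ring
  have h3 : ‖a2 - a1‖ ≤ 2 := (norm_sub_le _ _).trans (by linarith)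
  have h4 : ‖B1 - B0‖ ≤ 2 := (norm_sub_le _ _).trans (by linarith)
  have q1 : 0 ≤ ‖a1 - A0‖ + ‖a2 - A1‖ := by positivity
  have q2 : 0 ≤ ‖b1 - B0‖ + ‖b2 - B1‖ := by positivity
  calc ‖a2 - a1‖ * ‖b2 - b1‖ ≤ ‖a2 - a1‖ * (‖B1 - B0‖ + (‖b1 - B0‖ + ‖b2 - B1‖)) := by gcongr
    _ = ‖a2 - a1‖ * ‖B1 - B0‖ + ‖a2 - a1‖ * (‖b1 - B0‖ + ‖b2 - B1‖) := by ring
    _ ≤ (‖A1 - A0‖ + (‖a1 - A0‖ + ‖a2 - A1‖)) * ‖B1 - B0‖ +
        2 * (‖b1 - B0‖ + ‖b2 - B1‖) := by gcongr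
    _ = ‖A1 - A0‖ * ‖B1 - B0‖ + (‖a1 - A0‖ + ‖a2 - A1‖) * ‖B1 - B0‖ +
        2 * (‖b1 - B0‖ + ‖b2 - B1‖) := by ring
    _ ≤ ‖A1 - A0‖ * ‖B1 - B0‖ + (‖a1 - A0‖ + ‖a2 - A1‖) * 2 +
        2 * (‖b1 - B0‖ + ‖b2 - B1‖) := by gcongr
    _ = _ := by ring

theorem alg3 (a1 a2 b1 b2 A00 A01 A10 A11 B00 B01 B10 B11 e0 e1 T0 T1 m0 m1 n0 n1 : ℂ)
    (he0 : ‖e0‖ ≤ 1) (he1 : ‖e1‖ ≤ 1)
    (hB11 : ‖B11‖ ≤ 1) (hB01 : ‖B01‖ ≤ 1) (hA10 : ‖A10‖ ≤ 1)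
    (ha1 : ‖a1‖ ≤ 1) (ha2 : ‖a2‖ ≤ 1) (hB00 : ‖B00‖ ≤ 1) :
    ‖a2 - a1‖ₑ * ‖b2 - b1‖ₑ ≤
      ‖A10 * (e1 + (starRingEnd ℂ) B10) - A00 * (e0 + (starRingEnd ℂ) B00) - T0‖ₑ +
      ‖A11 * (e1 + (starRingEnd ℂ) B11) - A01 * (e0 + (starRingEnd ℂ) B01) - T1‖ₑ +
      ‖T1 - T0‖ₑ + 2 * ‖A11 - A10‖ₑ + 2 * ‖A01 - A00‖ₑ + ‖B10 - B00‖ₑ + ‖B11 - B01‖ₑ +
      2 * (‖a1 - m0‖ₑ + ‖A00 - m0‖ₑ + ‖a2 - m1‖ₑ + ‖A10 - m1‖ₑ) +
      2 * (‖b1 - n0‖ₑ + ‖B00 - n0‖ₑ + ‖b2 - n1‖ₑ + ‖B01 - n1‖ₑ) := by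
  have h1 := alg1 A00 A01 A10 A11 B00 B01 B10 B11 e0 e1 T0 T1 he0 he1 hB11 hB01 hA10
  have h2 := alg2 a1 a2 A00 A10 b1 b2 B00 B01 ha1 ha2 hB00 hB01
  have t : ∀ x y m : ℂ, ‖x - y‖ ≤ ‖x - m‖ + ‖y - m‖ := by
    intro x y m
    calc ‖x - y‖ = ‖(x - m) - (y - m)‖ := by congr 1; ring
      _ ≤ _ := norm_sub_le _ _
  have t1 := t a1 A00 m0
  have t2 := t a2 A10 m1
  have t3 := t b1 B00 n0
  have t4 := t b2 B01 n1
  have hR : ‖a2 - a1‖ * ‖b2 - b1‖ ≤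
      ‖A10 * (e1 + (starRingEnd ℂ) B10) - A00 * (e0 + (starRingEnd ℂ) B00) - T0‖ +
      ‖A11 * (e1 + (starRingEnd ℂ) B11) - A01 * (e0 + (starRingEnd ℂ) B01) - T1‖ +
      ‖T1 - T0‖ + 2 * ‖A11 - A10‖ + 2 * ‖A01 - A00‖ + ‖B10 - B00‖ + ‖B11 - B01‖ +
      2 * (‖a1 - m0‖ + ‖A00 - m0‖ + ‖a2 - m1‖ + ‖A10 - m1‖) +
      2 * (‖b1 - n0‖ + ‖B00 - n0‖ + ‖b2 - n1‖ + ‖B01 - n1‖) := by linarith
  simp only [enorm_eq_nnnorm]
  norm_cast

/-- the measure on the unit square -/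
noncomputable def μs : Measure (ℝ × ℝ) :=
  (volume.restrict (Set.Icc (0 : ℝ) 1)).prod (volume.restrict (Set.Icc (0 : ℝ) 1))

theorem bd_s (T : ℝ × ℝ → ℝ≥0∞) (hT : Measurable T) (c : ℝ≥0∞)
    (h : ∀ t ∈ Set.Icc (0 : ℝ) 1, ∫⁻ s in Set.Icc (0 : ℝ) 1, T (t, s) ≤ c) :
    ∫⁻ p, T p ∂μs ≤ c := by
  unfold μs
  rw [lintegral_prod T hT.aemeasurable]
  calc ∫⁻ x in Set.Icc (0 : ℝ) 1, ∫⁻ y in Set.Icc (0 : ℝ) 1, T (x, y) ≤
      ∫⁻ x in Set.Icc (0 : ℝ) 1, c := by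
        refine lintegral_mono_ae ?_
        filter_upwards [ae_restrict_mem measurableSet_Icc] with t ht using h t ht
    _ = c := by simp

theorem bd_t (T : ℝ × ℝ → ℝ≥0∞) (hT : Measurable T) (c : ℝ≥0∞)
    (h : ∀ s ∈ Set.Icc (0 : ℝ) 1, ∫⁻ t in Set.Icc (0 : ℝ) 1, T (t, s) ≤ c) :
    ∫⁻ p, T p ∂μs ≤ c := by
  unfold μs
  rw [lintegral_prod_symm T hT.aemeasurable]
  calc ∫⁻ y in Set.Icc (0 : ℝ) 1, ∫⁻ x in Set.Icc (0 : ℝ) 1, T (x, y) ≤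
      ∫⁻ y in Set.Icc (0 : ℝ) 1, c := by
        refine lintegral_mono_ae ?_
        filter_upwards [ae_restrict_mem measurableSet_Icc] with t ht using h t ht
    _ = c := by simp

/-- measurable with integral at most `c D` -/
def Good (D : ℝ≥0∞) (T : ℝ × ℝ → ℝ≥0∞) (c : ℝ) : Prop :=
  Measurable T ∧ 0 ≤ c ∧ ∫⁻ p, T p ∂μs ≤ ENNReal.ofReal c * D

theorem Good.add {D : ℝ≥0∞} {T T' : ℝ × ℝ → ℝ≥0∞} {c c' : ℝ} (h : Good D T c)
    (h' : Good D T' c') : Good D (fun p => T p + T' p) (c + c') := by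
  refine ⟨h.1.add h'.1, add_nonneg h.2.1 h'.2.1, ?_⟩
  rw [lintegral_add_left h.1, ENNReal.ofReal_add h.2.1 h'.2.1, add_mul]
  exact add_le_add h.2.2 h'.2.2

theorem Good.two {D : ℝ≥0∞} {T : ℝ × ℝ → ℝ≥0∞} {c : ℝ} (h : Good D T c) :
    Good D (fun p => 2 * T p) (2 * c) := by
  refine ⟨h.1.const_mul 2, by have := h.2.1; positivity, ?_⟩
  rw [lintegral_const_mul _ h.1, ENNReal.ofReal_mul (by norm_num), mul_assoc]
  rw [ENNReal.ofReal_ofNat]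
  gcongr
  exact h.2.2

theorem ae_frame {n : ℕ} {sg : ℝ} [Countable ι] {Q : ι → USq} {W : ℝ} (h : PP n sg Q W)
    (z : ℤ × ℤ) (w : ℝ × ℝ) (hw : w.1 ^ 2 + w.2 ^ 2 = 1) (a c d : ℝ) (ha : 0 < a) :
    ∀ᵐ p : ℝ × ℝ, ‖F Q (P z w (p.1 * a + c) (p.2 * a + d))‖ = 1 ∧
      ‖FH Q (P z w (p.1 * a + c) (p.2 * a + d))‖ = 1 := by
  have h0 := norm_F_ae h
  rw [ae_iff] at h0 ⊢
  set N : Set (ℝ × ℝ) := {x | ¬(‖F Q x‖ = 1 ∧ ‖FH Q x‖ = 1)} with hN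
  set M := H282R3.SQ.linM (a * w.2) (a * w.1) (-(a * w.1)) (a * w.2) with hM
  have hdet : LinearMap.det M = a ^ 2 := by
    rw [hM, H282R3.SQ.linM_det]
    linear_combination a ^ 2 * hw
  have hset : {p : ℝ × ℝ | ¬(‖F Q (P z w (p.1 * a + c) (p.2 * a + d))‖ = 1 ∧
      ‖FH Q (P z w (p.1 * a + c) (p.2 * a + d))‖ = 1)} =
      M ⁻¹' ((fun x => x + P z w c d) ⁻¹' N) := by
    ext p
    have : M p + P z w c d = P z w (p.1 * a + c) (p.2 * a + d) := by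
      rw [hM, H282R3.SQ.linM_apply]
      unfold P
      ext
      · simp only [Prod.fst_add]; ring
      · simp only [Prod.snd_add]; ring
    simp only [Set.mem_preimage, this, hN, Set.mem_ofPred_eq]
  rw [hset, Measure.addHaar_preimage_linearMap volume (by rw [hdet]; positivity),
    measure_preimage_add_right, h0, mul_zero]

theorem Tdiff {n : ℕ} {sg : ℝ} [Countable ι] {Q : ι → USq} {W : ℝ} (h : PP n sg Q W)
    (z : ℤ × ℤ) (w : ℝ × ℝ) (hw : w.1 ^ 2 + w.2 ^ 2 = 1) (hw2 : |w.1| ≤ w.2 / 4)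
    (L : ℕ) (ξ ℓ ζ0 ζ1 : ℝ) (hℓ : 0 ≤ ℓ) (hζ : ζ0 ≤ ζ1)
    (hsub : ∀ t ∈ Set.Icc 0 ℓ, ∀ ζ ∈ Set.Icc ζ0 ζ1, P z w (ξ + t) ζ ∈ Bx L z) :
    ‖(2 * π * Complex.I * ∫ σ in (0 : ℝ)..ℓ, ee (ξ + σ) * AA Q z w (ξ + σ) ζ1) -
      2 * π * Complex.I * ∫ σ in (0 : ℝ)..ℓ, ee (ξ + σ) * AA Q z w (ξ + σ) ζ0‖ₑ ≤
      ENNReal.ofReal (40 * π) * ENNReal.ofReal (Dev Q w (Bx L z)) := by
  obtain ⟨M, hM⟩ := F_bdd h (Bx L z) (isBounded_Bx L z)
  have hFm := measurable_F h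
  have hmeas : ∀ ζ : ℝ, Measurable fun σ : ℝ => ee (ξ + σ) * AA Q z w (ξ + σ) ζ := by
    intro ζ
    unfold AA
    have h1 : Measurable fun σ : ℝ => P z w (ξ + σ) ζ := by
      unfold P; fun_prop
    have h2 : Measurable fun σ : ℝ => ee (ξ + σ) := measurable_ee.comp (by fun_prop)
    exact h2.mul ((hFm.comp h1).mul_const _)
  have hint : ∀ ζ ∈ Set.Icc ζ0 ζ1, IntervalIntegrable
      (fun σ : ℝ => ee (ξ + σ) * AA Q z w (ξ + σ) ζ) volume 0 ℓ := by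
    intro ζ hζm
    rw [intervalIntegrable_iff_integrableOn_Ioc_of_le hℓ]
    refine Measure.integrableOn_of_bounded (M := M) (by simp)
      (hmeas ζ).aestronglyMeasurable ?_
    filter_upwards [ae_restrict_mem measurableSet_Ioc] with σ hσ
    unfold AA
    rw [norm_mul, norm_mul, norm_ee, norm_ee, one_mul, mul_one]
    exact hM _ (hsub σ ⟨hσ.1.le, hσ.2⟩ ζ hζm)
  rw [← mul_sub, ← intervalIntegral.integral_sub (hint ζ1 ⟨hζ, le_refl _⟩)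
    (hint ζ0 ⟨le_refl _, hζ⟩), intervalIntegral.integral_of_le hℓ]
  have key := LA h z w hw hw2 L 1 ξ ζ0 0 ℓ one_pos (fun _ => ζ1) (fun _ _ => hζ) (by
    intro t ht ζ hζ'
    have := hsub t ht ζ hζ'
    rwa [add_comm, ← mul_one t] at this)
  have e1 : ‖(2 * π * Complex.I : ℂ)‖ₑ = ENNReal.ofReal (2 * π) := by
    rw [← ofReal_norm]
    congr 1
    simp [abs_of_pos Real.pi_pos]
  rw [enorm_mul, e1]
  calc ENNReal.ofReal (2 * π) * ‖∫ σ in Set.Ioc 0 ℓ, (ee (ξ + σ) * AA Q z w (ξ + σ) ζ1 -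
        ee (ξ + σ) * AA Q z w (ξ + σ) ζ0)‖ₑ
      ≤ ENNReal.ofReal (2 * π) * ∫⁻ σ in Set.Ioc 0 ℓ, ‖ee (ξ + σ) * AA Q z w (ξ + σ) ζ1 -
        ee (ξ + σ) * AA Q z w (ξ + σ) ζ0‖ₑ := by
        gcongr
        exact enorm_integral_le_lintegral_enorm _
    _ ≤ ENNReal.ofReal (2 * π) * ∫⁻ σ in Set.Icc 0 ℓ, ‖ee (ξ + σ) * AA Q z w (ξ + σ) ζ1 -
        ee (ξ + σ) * AA Q z w (ξ + σ) ζ0‖ₑ := by
        gcongr
        exact Set.Ioc_subset_Icc_self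
    _ = ENNReal.ofReal (2 * π) * ∫⁻ σ in Set.Icc 0 ℓ, ‖AA Q z w (σ * 1 + ξ) ζ1 -
        AA Q z w (σ * 1 + ξ) ζ0‖ₑ := by
        congr 1
        refine lintegral_congr fun σ => ?_
        rw [← mul_sub, ← ofReal_norm, ← ofReal_norm, norm_mul, norm_ee, one_mul,
          show ξ + σ = σ * 1 + ξ by ring]
    _ ≤ ENNReal.ofReal (2 * π) * (ENNReal.ofReal (20 / 1) * ENNReal.ofReal (Dev Q w (Bx L z))) := by
        gcongr
    _ = _ := by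
        rw [← mul_assoc, ← ENNReal.ofReal_mul (by positivity)]
        congr 2
        ring

theorem measurable_AA {n : ℕ} {sg : ℝ} [Countable ι] {Q : ι → USq} {W : ℝ} (h : PP n sg Q W)
    (z : ℤ × ℤ) (w : ℝ × ℝ) : Measurable fun p : ℝ × ℝ => AA Q z w p.1 p.2 := by
  unfold AA
  exact ((measurable_F h).comp (continuous_P z w).measurable).mul
    (measurable_ee.comp measurable_snd.neg)

theorem measurable_BB {n : ℕ} {sg : ℝ} [Countable ι] {Q : ι → USq} {W : ℝ} (h : PP n sg Q W)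
    (z : ℤ × ℤ) (w : ℝ × ℝ) : Measurable fun p : ℝ × ℝ => BB Q z w p.1 p.2 := by
  unfold BB
  exact ((measurable_FH h).comp (continuous_P z w).measurable).mul
    (measurable_ee.comp measurable_fst.neg)

theorem measurable_EE {n : ℕ} {sg : ℝ} [Countable ι] {Q : ι → USq} {W : ℝ} (h : PP n sg Q W)
    (z : ℤ × ℤ) (w : ℝ × ℝ) (ℓ : ℝ) (hℓ : 0 ≤ ℓ) :
    Measurable fun p : ℝ × ℝ => EE Q z w ℓ p.1 p.2 := by
  have hA := measurable_AA h z w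
  have hB := measurable_BB h z w
  unfold EE
  have m1 : Measurable fun p : ℝ × ℝ => AA Q z w (p.1 + ℓ) p.2 :=
    hA.comp (f := fun p : ℝ × ℝ => (p.1 + ℓ, p.2)) (by fun_prop)
  have m2 : Measurable fun p : ℝ × ℝ => BB Q z w (p.1 + ℓ) p.2 :=
    hB.comp (f := fun p : ℝ × ℝ => (p.1 + ℓ, p.2)) (by fun_prop)
  have c1 : Measurable (starRingEnd ℂ) := Complex.continuous_conj.measurable
  have m3 : Measurable fun p : ℝ × ℝ => ee (p.1 + ℓ) := measurable_ee.comp (by fun_prop)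
  have m4 : Measurable fun p : ℝ × ℝ => ee p.1 := measurable_ee.comp (by fun_prop)
  have m5 : Measurable fun p : ℝ × ℝ => ∫ σ in (0 : ℝ)..ℓ, ee (p.1 + σ) * AA Q z w (p.1 + σ) p.2 := by
    simp only [intervalIntegral.integral_of_le hℓ]
    have : StronglyMeasurable fun q : (ℝ × ℝ) × ℝ =>
        ee (q.1.1 + q.2) * AA Q z w (q.1.1 + q.2) q.1.2 := by
      refine Measurable.stronglyMeasurable ?_
      have k1 : Measurable fun q : (ℝ × ℝ) × ℝ => ee (q.1.1 + q.2) :=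
        measurable_ee.comp (by fun_prop)
      have k2 : Measurable fun q : (ℝ × ℝ) × ℝ => AA Q z w (q.1.1 + q.2) q.1.2 :=
        hA.comp (f := fun q : (ℝ × ℝ) × ℝ => (q.1.1 + q.2, q.1.2)) (by fun_prop)
      exact k1.mul k2
    exact (this.integral_prod_right' (ν := volume.restrict (Set.Ioc 0 ℓ))).measurable
  exact ((m1.mul (m3.add (c1.comp m2))).sub (hA.mul (m4.add (c1.comp hB)))).sub
    (m5.const_mul _)

end Core

open H40.PK.Core in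
/-- T11: core of the local lemma. `w = (-b, a)` is the vertical reference vector, `b = -w.1`. -/
theorem LL_core {n : ℕ} {sg : ℝ} {ι : Type} [Countable ι] {Q : ι → USq} {W : ℝ} (h : PP n sg Q W)
    (z : ℤ × ℤ) (w : ℝ × ℝ) (hw : w.1 ^ 2 + w.2 ^ 2 = 1) (hw2 : |w.1| ≤ w.2 / 4)
    (L : ℕ) (hL : 1 ≤ L) (hLw : L * |w.1| ≤ 1 / 8) :
    (∫⁻ t in Set.Icc (0 : ℝ) 1, ‖F Q (z.1 + t + L, (z.2 : ℝ)) *
        Complex.exp (2 * π * Complex.I * (-(L * w.1) : ℝ)) - F Q (z.1 + t, (z.2 : ℝ))‖ₑ) *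
      (∫⁻ s in Set.Icc (0 : ℝ) 1, ‖FH Q ((z.1 : ℝ), z.2 + s + L) *
        Complex.exp (2 * π * Complex.I * (L * w.1 : ℝ)) - FH Q ((z.1 : ℝ), z.2 + s)‖ₑ) ≤
      ENNReal.ofReal (1000 * Dev Q w (Bx L z)) := by
  -- numerical facts
  have hL' : (1 : ℝ) ≤ L := by exact_mod_cast hL
  have hb := abs_nonneg w.1
  have ha0 : 0 ≤ w.2 := by linarith
  have ha : 24 / 25 ≤ w.2 := by
    have h1 : w.1 ^ 2 ≤ (w.2 / 4) ^ 2 := by
      rw [← sq_abs]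
      gcongr
    by_contra hc
    push Not at hc
    nlinarith
  have ha1 : w.2 ≤ 1 := by nlinarith [sq_nonneg w.1]
  have hapos : 0 < w.2 := by linarith
  have hb8 : |w.1| ≤ 1 / 8 := by nlinarith
  obtain ⟨ℓ, hℓdef⟩ : ∃ ℓ : ℝ, ℓ = L * w.2 := ⟨_, rfl⟩
  have hℓ0 : 0 ≤ ℓ := by rw [hℓdef]; positivity
  have hℓL : ℓ ≤ L := by rw [hℓdef]; nlinarith
  have hbb := abs_le.1 hb8
  have hLb := abs_le.1 (show |L * w.1| ≤ 1 / 8 by rwa [abs_mul, Nat.abs_cast])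
  have htb : ∀ t ∈ Set.Icc (0 : ℝ) 1, -(1 / 8) ≤ t * w.1 ∧ t * w.1 ≤ 1 / 8 := by
    intro t ht
    refine abs_le.1 ?_
    rw [abs_mul, abs_of_nonneg ht.1]
    nlinarith [ht.1, ht.2]
  obtain ⟨D, hD⟩ : ∃ D, D = ENNReal.ofReal (Dev Q w (Bx L z)) := ⟨_, rfl⟩
  have hta : ∀ t ∈ Set.Icc (0 : ℝ) 1, 0 ≤ t * w.2 ∧ t * w.2 ≤ 1 := by
    intro t ht
    exact ⟨mul_nonneg ht.1 ha0, by nlinarith [ht.1, ht.2]⟩
  have hAm := measurable_AA h z w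
  have hBm := measurable_BB h z w
  have hEm := measurable_EE h z w ℓ hℓ0
  have mm : ∀ {ξ ζ : ℝ}, -1 ≤ ξ → ξ ≤ L + 1 → -1 ≤ ζ → ζ ≤ L + 1 → P z w ξ ζ ∈ Bx L z :=
    fun h1 h2 h3 h4 => mem_Bx hw hw2 hL hLw h1 h2 h3 h4
  have mA : ∀ f g f' g' : ℝ × ℝ → ℝ, Measurable f → Measurable g → Measurable f' →
      Measurable g' → Measurable fun p => ‖AA Q z w (f p) (g p) - AA Q z w (f' p) (g' p)‖ₑ := by
    intro f g f' g' hf hg hf' hg'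
    exact ((hAm.comp (hf.prodMk hg)).sub (hAm.comp (hf'.prodMk hg'))).enorm
  have mB : ∀ f g f' g' : ℝ × ℝ → ℝ, Measurable f → Measurable g → Measurable f' →
      Measurable g' → Measurable fun p => ‖BB Q z w (f p) (g p) - BB Q z w (f' p) (g' p)‖ₑ := by
    intro f g f' g' hf hg hf' hg'
    exact ((hBm.comp (hf.prodMk hg)).sub (hBm.comp (hf'.prodMk hg'))).enorm
  have c20 : (0 : ℝ) ≤ 20 / w.2 := by positivity
  have c40 : (0 : ℝ) ≤ 40 / w.2 := by positivity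
  have G1 : Good D (fun p => ‖EE Q z w ℓ (p.1 * w.2 + 0) (p.2 * w.2 + 0)‖ₑ) (40 / w.2) := by
    refine ⟨(hEm.comp (f := fun p : ℝ × ℝ => (p.1 * w.2 + 0, p.2 * w.2 + 0))
      (by fun_prop)).enorm, c40, ?_⟩
    refine bd_s _ (hEm.comp (f := fun p : ℝ × ℝ => (p.1 * w.2 + 0, p.2 * w.2 + 0))
      (by fun_prop)).enorm _ ?_
    intro t ht
    rw [hD]
    refine LE h z w hw hw2 L (t * w.2 + 0) ℓ w.2 0 hapos hℓ0 ?_
    intro ζ hζ s hs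
    have := hta t ht
    exact mm (by linarith [hs.1]) (by linarith [hs.2]) (by linarith [hζ.1])
      (by linarith [hζ.2])
  have G2 : Good D (fun p => ‖EE Q z w ℓ (p.1 * w.2 + 0) (p.2 * w.2 + ℓ)‖ₑ) (40 / w.2) := by
    refine ⟨(hEm.comp (f := fun p : ℝ × ℝ => (p.1 * w.2 + 0, p.2 * w.2 + ℓ))
      (by fun_prop)).enorm, c40, ?_⟩
    refine bd_s _ (hEm.comp (f := fun p : ℝ × ℝ => (p.1 * w.2 + 0, p.2 * w.2 + ℓ))
      (by fun_prop)).enorm _ ?_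
    intro t ht
    rw [hD]
    refine LE h z w hw hw2 L (t * w.2 + 0) ℓ w.2 ℓ hapos hℓ0 ?_
    intro ζ hζ s hs
    have := hta t ht
    exact mm (by linarith [hs.1]) (by linarith [hs.2]) (by linarith [hζ.1])
      (by linarith [hζ.2])
  have GA : ∀ β : ℝ, 0 ≤ β → β ≤ ℓ → Good D (fun p => ‖AA Q z w (p.1 * w.2 + β) (p.2 * w.2 + ℓ) -
      AA Q z w (p.1 * w.2 + β) (p.2 * w.2 + 0)‖ₑ) (20 / w.2) := by
    intro β hβ hβ'
    refine ⟨mA _ _ _ _ (by fun_prop) (by fun_prop) (by fun_prop) (by fun_prop), c20,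
      bd_t _ (mA _ _ _ _ (by fun_prop) (by fun_prop) (by fun_prop) (by fun_prop)) _ ?_⟩
    intro s hs
    rw [hD]
    have hs' := hta s hs
    refine LA h z w hw hw2 L w.2 β (s * w.2 + 0) 0 1 hapos (fun _ => s * w.2 + ℓ)
      (fun _ _ => by linarith) ?_
    intro t ht ζ hζ
    have := hta t ht
    exact mm (by linarith) (by linarith) (by linarith [hζ.1]) (by linarith [hζ.2])
  have GB : ∀ β : ℝ, 0 ≤ β → β ≤ ℓ → Good D (fun p => ‖BB Q z w (p.1 * w.2 + ℓ) (p.2 * w.2 + β) -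
      BB Q z w (p.1 * w.2 + 0) (p.2 * w.2 + β)‖ₑ) (20 / w.2) := by
    intro β hβ hβ'
    refine ⟨mB _ _ _ _ (by fun_prop) (by fun_prop) (by fun_prop) (by fun_prop), c20,
      bd_s _ (mB _ _ _ _ (by fun_prop) (by fun_prop) (by fun_prop) (by fun_prop)) _ ?_⟩
    intro t ht
    rw [hD]
    have ht' := hta t ht
    refine LB h z w hw hw2 L w.2 β (t * w.2 + 0) 0 1 hapos (fun _ => t * w.2 + ℓ)
      (fun _ _ => by linarith) ?_
    intro s hs ξ hξ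
    have := hta s hs
    exact mm (by linarith [hξ.1]) (by linarith [hξ.2]) (by linarith) (by linarith)
  have G7a : Good D (fun p => ‖AA Q z w (p.1 * w.2 + 0) (p.1 * w.1) -
      AA Q z w (p.1 * w.2 + 0) (-1)‖ₑ) (20 / w.2) := by
    refine ⟨mA _ _ _ _ (by fun_prop) (by fun_prop) (by fun_prop) (by fun_prop), c20,
      bd_t _ (mA _ _ _ _ (by fun_prop) (by fun_prop) (by fun_prop) (by fun_prop)) _ ?_⟩
    intro s hs
    rw [hD]
    refine LA h z w hw hw2 L w.2 0 (-1) 0 1 hapos (fun t => t * w.1)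
      (fun t ht => by linarith [(htb t ht).1]) ?_
    intro t ht ζ hζ
    have := hta t ht
    have := htb t ht
    exact mm (by linarith) (by linarith) (by linarith [hζ.1]) (by linarith [hζ.2])
  have G8a : Good D (fun p => ‖AA Q z w (p.1 * w.2 + ℓ) ((p.1 + L) * w.1) -
      AA Q z w (p.1 * w.2 + ℓ) (-1)‖ₑ) (20 / w.2) := by
    refine ⟨mA _ _ _ _ (by fun_prop) (by fun_prop) (by fun_prop) (by fun_prop), c20,
      bd_t _ (mA _ _ _ _ (by fun_prop) (by fun_prop) (by fun_prop) (by fun_prop)) _ ?_⟩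
    intro s hs
    rw [hD]
    refine LA h z w hw hw2 L w.2 ℓ (-1) 0 1 hapos (fun t => (t + L) * w.1)
      (fun t ht => by linarith [(htb t ht).1, add_mul t (L : ℝ) w.1]) ?_
    intro t ht ζ hζ
    have := hta t ht
    have := htb t ht
    exact mm (by linarith) (by linarith) (by linarith [hζ.1])
      (by linarith [hζ.2, add_mul t (L : ℝ) w.1])
  have GAm : ∀ β : ℝ, 0 ≤ β → β ≤ ℓ → Good D (fun p => ‖AA Q z w (p.1 * w.2 + β) (p.2 * w.2 + 0) -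
      AA Q z w (p.1 * w.2 + β) (-1)‖ₑ) (20 / w.2) := by
    intro β hβ hβ'
    refine ⟨mA _ _ _ _ (by fun_prop) (by fun_prop) (by fun_prop) (by fun_prop), c20,
      bd_t _ (mA _ _ _ _ (by fun_prop) (by fun_prop) (by fun_prop) (by fun_prop)) _ ?_⟩
    intro s hs
    rw [hD]
    have hs' := hta s hs
    refine LA h z w hw hw2 L w.2 β (-1) 0 1 hapos (fun _ => s * w.2 + 0)
      (fun _ _ => by linarith) ?_
    intro t ht ζ hζ
    have := hta t ht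
    exact mm (by linarith) (by linarith) (by linarith [hζ.1]) (by linarith [hζ.2])
  have G9a : Good D (fun p => ‖BB Q z w (-(p.2 * w.1)) (p.2 * w.2 + 0) -
      BB Q z w (-1) (p.2 * w.2 + 0)‖ₑ) (20 / w.2) := by
    refine ⟨mB _ _ _ _ (by fun_prop) (by fun_prop) (by fun_prop) (by fun_prop), c20,
      bd_s _ (mB _ _ _ _ (by fun_prop) (by fun_prop) (by fun_prop) (by fun_prop)) _ ?_⟩
    intro t ht
    rw [hD]
    refine LB h z w hw hw2 L w.2 0 (-1) 0 1 hapos (fun s => -(s * w.1))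
      (fun s hs => by linarith [(htb s hs).2]) ?_
    intro s hs ξ hξ
    have := hta s hs
    have := htb s hs
    exact mm (by linarith [hξ.1]) (by linarith [hξ.2]) (by linarith) (by linarith)
  have G10a : Good D (fun p => ‖BB Q z w (-((p.2 + L) * w.1)) (p.2 * w.2 + ℓ) -
      BB Q z w (-1) (p.2 * w.2 + ℓ)‖ₑ) (20 / w.2) := by
    refine ⟨mB _ _ _ _ (by fun_prop) (by fun_prop) (by fun_prop) (by fun_prop), c20,
      bd_s _ (mB _ _ _ _ (by fun_prop) (by fun_prop) (by fun_prop) (by fun_prop)) _ ?_⟩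
    intro t ht
    rw [hD]
    refine LB h z w hw hw2 L w.2 ℓ (-1) 0 1 hapos (fun s => -((s + L) * w.1))
      (fun s hs => by linarith [(htb s hs).2, add_mul s (L : ℝ) w.1]) ?_
    intro s hs ξ hξ
    have := hta s hs
    have := htb s hs
    exact mm (by linarith [hξ.1]) (by linarith [hξ.2, add_mul s (L : ℝ) w.1]) (by linarith)
      (by linarith)
  have GBm : ∀ β : ℝ, 0 ≤ β → β ≤ ℓ → Good D (fun p => ‖BB Q z w (p.1 * w.2 + 0) (p.2 * w.2 + β) -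
      BB Q z w (-1) (p.2 * w.2 + β)‖ₑ) (20 / w.2) := by
    intro β hβ hβ'
    refine ⟨mB _ _ _ _ (by fun_prop) (by fun_prop) (by fun_prop) (by fun_prop), c20,
      bd_s _ (mB _ _ _ _ (by fun_prop) (by fun_prop) (by fun_prop) (by fun_prop)) _ ?_⟩
    intro t ht
    rw [hD]
    have ht' := hta t ht
    refine LB h z w hw hw2 L w.2 β (-1) 0 1 hapos (fun _ => t * w.2 + 0)
      (fun _ _ => by linarith) ?_
    intro s hs ξ hξ
    have := hta s hs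
    exact mm (by linarith [hξ.1]) (by linarith [hξ.2]) (by linarith) (by linarith)
  have GC : Good D (fun _ => ENNReal.ofReal (40 * π) * D) (40 * π) := by
    refine ⟨measurable_const, by positivity, bd_s _ measurable_const _ ?_⟩
    intro t _
    simp
  have Gtot := ((((((((G1.add G2).add GC).add (GA ℓ hℓ0 le_rfl).two).add (GA 0 le_rfl hℓ0).two).add
    (GB 0 le_rfl hℓ0)).add (GB ℓ hℓ0 le_rfl)).add
    (((G7a.add (GAm 0 le_rfl hℓ0)).add G8a).add (GAm ℓ hℓ0 le_rfl)).two).add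
    (((G9a.add (GBm 0 le_rfl hℓ0)).add G10a).add (GBm ℓ hℓ0 le_rfl)).two)
  -- the two factors
  have fA : ∀ t : ℝ, ‖F Q (z.1 + t + L, (z.2 : ℝ)) *
        Complex.exp (2 * π * Complex.I * (-(L * w.1) : ℝ)) - F Q (z.1 + t, (z.2 : ℝ))‖ₑ =
      ‖AA Q z w (t * w.2 + ℓ) ((t + L) * w.1) - AA Q z w (t * w.2 + 0) (t * w.1)‖ₑ := by
    intro t
    have p1 : P z w (t * w.2 + 0) (t * w.1) = (z.1 + t, (z.2 : ℝ)) := by
      unfold P
      ext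
      · simp only []; linear_combination t * hw
      · simp only []; ring
    have p2 : P z w (t * w.2 + ℓ) ((t + L) * w.1) = (z.1 + t + L, (z.2 : ℝ)) := by
      unfold P
      rw [hℓdef]
      ext
      · simp only []; linear_combination (t + L) * hw
      · simp only []; ring
    unfold AA
    rw [p1, p2, show -((t + L) * w.1) = -(L * w.1) + -(t * w.1) by ring, ee_add, ← mul_assoc,
      ← sub_mul, ← ofReal_norm, ← ofReal_norm, norm_mul, norm_ee, mul_one]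
    rfl
  have fB : ∀ s : ℝ, ‖FH Q ((z.1 : ℝ), z.2 + s + L) *
        Complex.exp (2 * π * Complex.I * (L * w.1 : ℝ)) - FH Q ((z.1 : ℝ), z.2 + s)‖ₑ =
      ‖BB Q z w (-((s + L) * w.1)) (s * w.2 + ℓ) - BB Q z w (-(s * w.1)) (s * w.2 + 0)‖ₑ := by
    intro s
    have p1 : P z w (-(s * w.1)) (s * w.2 + 0) = ((z.1 : ℝ), z.2 + s) := by
      unfold P
      ext
      · simp only []; ring
      · simp only []; linear_combination s * hw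
    have p2 : P z w (-((s + L) * w.1)) (s * w.2 + ℓ) = ((z.1 : ℝ), z.2 + s + L) := by
      unfold P
      rw [hℓdef]
      ext
      · simp only []; ring
      · simp only []; linear_combination (s + L) * hw
    unfold BB
    rw [p1, p2, neg_neg, neg_neg, show (s + L) * w.1 = L * w.1 + s * w.1 by ring, ee_add,
      ← mul_assoc, ← sub_mul, ← ofReal_norm, ← ofReal_norm, norm_mul, norm_ee, mul_one]
    rfl
  simp only [fA, fB]
  have hprod : (∫⁻ t in Set.Icc (0 : ℝ) 1,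
        ‖AA Q z w (t * w.2 + ℓ) ((t + L) * w.1) - AA Q z w (t * w.2 + 0) (t * w.1)‖ₑ) *
      (∫⁻ s in Set.Icc (0 : ℝ) 1,
        ‖BB Q z w (-((s + L) * w.1)) (s * w.2 + ℓ) - BB Q z w (-(s * w.1)) (s * w.2 + 0)‖ₑ) =
      ∫⁻ p, ‖AA Q z w (p.1 * w.2 + ℓ) ((p.1 + L) * w.1) -
        AA Q z w (p.1 * w.2 + 0) (p.1 * w.1)‖ₑ *
        ‖BB Q z w (-((p.2 + L) * w.1)) (p.2 * w.2 + ℓ) -
        BB Q z w (-(p.2 * w.1)) (p.2 * w.2 + 0)‖ₑ ∂μs := by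
    unfold μs
    rw [← lintegral_prod_mul]
    · refine (Measurable.aemeasurable ?_)
      exact ((hAm.comp (f := fun t : ℝ => (t * w.2 + ℓ, (t + L) * w.1)) (by fun_prop)).sub
        (hAm.comp (f := fun t : ℝ => (t * w.2 + 0, t * w.1)) (by fun_prop))).enorm
    · refine (Measurable.aemeasurable ?_)
      exact ((hBm.comp (f := fun s : ℝ => (-((s + L) * w.1), s * w.2 + ℓ)) (by fun_prop)).sub
        (hBm.comp (f := fun s : ℝ => (-(s * w.1), s * w.2 + 0)) (by fun_prop))).enorm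
  rw [hprod]
  have hμs : μs = (volume : Measure (ℝ × ℝ)).restrict (Set.Icc (0 : ℝ) 1 ×ˢ Set.Icc (0 : ℝ) 1) := by
    unfold μs
    rw [Measure.prod_restrict]
    rfl
  have hmem : ∀ᵐ p ∂μs, p ∈ Set.Icc (0 : ℝ) 1 ×ˢ Set.Icc (0 : ℝ) 1 := by
    rw [hμs]
    exact ae_restrict_mem (measurableSet_Icc.prod measurableSet_Icc)
  have hfr : ∀ c d : ℝ, ∀ᵐ p ∂μs, ‖F Q (P z w (p.1 * w.2 + c) (p.2 * w.2 + d))‖ = 1 ∧
      ‖FH Q (P z w (p.1 * w.2 + c) (p.2 * w.2 + d))‖ = 1 := by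
    intro c d
    rw [hμs]
    exact ae_restrict_of_ae (ae_frame h z w hw w.2 c d hapos)
  have hhor : ∀ c : ℝ, ∀ᵐ p : ℝ × ℝ ∂μs, ‖F Q (c + p.1, (z.2 : ℝ))‖ = 1 := by
    intro c
    have h1 := norm_F_horiz h (z.2 : ℝ)
    have h2 : ∀ᵐ t : ℝ, ‖F Q (c + t, (z.2 : ℝ))‖ = 1 :=
      (measurePreserving_add_left volume c).quasiMeasurePreserving.ae h1
    have h3 : ∀ᵐ t ∂(volume.restrict (Set.Icc (0 : ℝ) 1)), ‖F Q (c + t, (z.2 : ℝ))‖ = 1 :=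
      ae_restrict_of_ae h2
    exact Measure.quasiMeasurePreserving_fst.ae h3
  refine le_trans ((lintegral_mono_ae ?_).trans Gtot.2.2) ?_
  · filter_upwards [hmem, hfr 0 0, hfr 0 ℓ, hfr ℓ 0, hfr ℓ ℓ, hhor z.1, hhor (z.1 + L)]
      with p hp h00 h01 h10 h11 hx hx'
    have hnA : ∀ ξ ζ : ℝ, ‖F Q (P z w ξ ζ)‖ = 1 → ‖AA Q z w ξ ζ‖ ≤ 1 := by
      intro ξ ζ h1
      unfold AA
      rw [norm_mul, norm_ee, h1, mul_one]
    have hnB : ∀ ξ ζ : ℝ, ‖FH Q (P z w ξ ζ)‖ = 1 → ‖BB Q z w ξ ζ‖ ≤ 1 := by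
      intro ξ ζ h1
      unfold BB
      rw [norm_mul, norm_ee, h1, mul_one]
    have p1 : P z w (p.1 * w.2 + 0) (p.1 * w.1) = (z.1 + p.1, (z.2 : ℝ)) := by
      unfold P
      ext
      · simp only []; linear_combination p.1 * hw
      · simp only []; ring
    have p2 : P z w (p.1 * w.2 + ℓ) ((p.1 + L) * w.1) = (z.1 + L + p.1, (z.2 : ℝ)) := by
      unfold P
      rw [hℓdef]
      ext
      · simp only []; linear_combination (p.1 + L) * hw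
      · simp only []; ring
    have key := alg3 (AA Q z w (p.1 * w.2 + 0) (p.1 * w.1))
      (AA Q z w (p.1 * w.2 + ℓ) ((p.1 + L) * w.1))
      (BB Q z w (-(p.2 * w.1)) (p.2 * w.2 + 0))
      (BB Q z w (-((p.2 + L) * w.1)) (p.2 * w.2 + ℓ))
      (AA Q z w (p.1 * w.2 + 0) (p.2 * w.2 + 0)) (AA Q z w (p.1 * w.2 + 0) (p.2 * w.2 + ℓ))
      (AA Q z w (p.1 * w.2 + ℓ) (p.2 * w.2 + 0)) (AA Q z w (p.1 * w.2 + ℓ) (p.2 * w.2 + ℓ))
      (BB Q z w (p.1 * w.2 + 0) (p.2 * w.2 + 0)) (BB Q z w (p.1 * w.2 + 0) (p.2 * w.2 + ℓ))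
      (BB Q z w (p.1 * w.2 + ℓ) (p.2 * w.2 + 0)) (BB Q z w (p.1 * w.2 + ℓ) (p.2 * w.2 + ℓ))
      (ee (p.1 * w.2 + 0)) (ee (p.1 * w.2 + ℓ))
      (2 * π * Complex.I * ∫ σ in (0 : ℝ)..ℓ, ee (p.1 * w.2 + 0 + σ) *
        AA Q z w (p.1 * w.2 + 0 + σ) (p.2 * w.2 + 0))
      (2 * π * Complex.I * ∫ σ in (0 : ℝ)..ℓ, ee (p.1 * w.2 + 0 + σ) *
        AA Q z w (p.1 * w.2 + 0 + σ) (p.2 * w.2 + ℓ))
      (AA Q z w (p.1 * w.2 + 0) (-1)) (AA Q z w (p.1 * w.2 + ℓ) (-1))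
      (BB Q z w (-1) (p.2 * w.2 + 0)) (BB Q z w (-1) (p.2 * w.2 + ℓ))
      (norm_ee _).le (norm_ee _).le (hnB _ _ h11.2) (hnB _ _ h01.2) (hnA _ _ h10.1)
      (hnA _ _ (by rw [p1]; exact hx)) (hnA _ _ (by rw [p2]; exact hx')) (hnB _ _ h00.2)
    refine key.trans ?_
    have hEE : ∀ ζ : ℝ, EE Q z w ℓ (p.1 * w.2 + 0) ζ =
        AA Q z w (p.1 * w.2 + ℓ) ζ * (ee (p.1 * w.2 + ℓ) +
          (starRingEnd ℂ) (BB Q z w (p.1 * w.2 + ℓ) ζ)) -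
        AA Q z w (p.1 * w.2 + 0) ζ * (ee (p.1 * w.2 + 0) +
          (starRingEnd ℂ) (BB Q z w (p.1 * w.2 + 0) ζ)) -
        2 * π * Complex.I * ∫ σ in (0 : ℝ)..ℓ, ee (p.1 * w.2 + 0 + σ) *
          AA Q z w (p.1 * w.2 + 0 + σ) ζ := by
      intro ζ
      unfold EE
      rw [show p.1 * w.2 + 0 + ℓ = p.1 * w.2 + ℓ by ring]
    have hT := Tdiff h z w hw hw2 L (p.1 * w.2 + 0) ℓ (p.2 * w.2 + 0) (p.2 * w.2 + ℓ) hℓ0
      (by linarith) (by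
        intro t ht ζ hζ
        have h1 := hta p.1 hp.1
        have h2 := hta p.2 hp.2
        exact mm (by linarith [ht.1]) (by linarith [ht.2]) (by linarith [hζ.1])
          (by linarith [hζ.2]))
    rw [← hD] at hT
    simp only [hEE]
    gcongr
  rw [hD, ← ENNReal.ofReal_mul Gtot.2.1]
  have hDev : 0 ≤ Dev Q w (Bx L z) := by
    unfold Dev
    refine add_nonneg ENNReal.toReal_nonneg ?_
    exact finsum_nonneg fun i => finsum_nonneg fun _ => abs_nonneg _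
  refine ENNReal.ofReal_le_ofReal ?_
  refine mul_le_mul_of_nonneg_right ?_ hDev
  have q1 : 20 / w.2 ≤ 21 := by
    rw [div_le_iff₀ hapos]; linarith
  have q2 : 40 / w.2 ≤ 42 := by
    rw [div_le_iff₀ hapos]; linarith
  have q3 : π ≤ 4 := Real.pi_le_four
  linarith

end H40.PK
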