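import Pool.Agent.H40.PK.Defs
import Pool.Agent.H40.PK.Energy
import Pool.Agent.H40.PK.Local
import Pool.Agent.H40.PK.SumUV
import Pool.Agent.H40.PK.SumE
import Pool.Agent.H40.PK.Slopes

/-!
Combination of the flow bounds, the local lemma and the energy lower bound.
-/

namespace H40.PK

open H282R4.PK

open MeasureTheory
open scoped Real ENNReal
open H282R3.SQ (USq)

namespace Combine

/-- interior cells -/
noncomputable def Zc (m : ℕ) : Finset (ℤ × ℤ) := Finset.Ico (0 : ℤ) m ×ˢ Finset.Ico (0 : ℤ) m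

theorem sum_Icc_le (f : ℝ → ℝ≥0∞) (m : ℕ) (r : ℝ) (hr : (m : ℝ) ≤ r) :
    ∑ i ∈ Finset.Ico (0 : ℤ) m, ∫⁻ X in Set.Icc (i : ℝ) (i + 1), f X ≤
      ∫⁻ X in Set.Icc (0 : ℝ) r, f X := by
  have h1 : ∀ i ∈ Finset.Ico (0 : ℤ) m, ∫⁻ X in Set.Icc (i : ℝ) (i + 1), f X =
      ∫⁻ X in Set.Ico (i : ℝ) (i + 1), f X := by
    intro i _
    exact setLIntegral_congr Ico_ae_eq_Icc.symm
  rw [Finset.sum_congr rfl h1, ← lintegral_biUnion_finset]
  · refine lintegral_mono_set ?_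
    intro X hX
    simp only [Set.mem_iUnion, Finset.mem_Ico, Set.mem_Ico, exists_prop] at hX
    obtain ⟨i, ⟨hi0, him⟩, hX0, hX1⟩ := hX
    have h2 : (0 : ℝ) ≤ i := by exact_mod_cast hi0
    have h3 : (i : ℝ) + 1 ≤ m := by exact_mod_cast him
    exact ⟨by linarith, by linarith⟩
  · intro i _ j _ hij
    refine Set.disjoint_left.mpr ?_
    intro X hi hj
    simp only [Set.mem_Ico] at hi hj
    apply hij
    have a1 : (i : ℝ) < j + 1 := by linarith [hi.1, hj.2]
    have a2 : (j : ℝ) < i + 1 := by linarith [hj.1, hi.2]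
    have b1 : i < j + 1 := by exact_mod_cast a1
    have b2 : j < i + 1 := by exact_mod_cast a2
    omega
  · intro i _
    exact measurableSet_Ico

/-- Markov inequality for finite sums of extended reals. -/
theorem count_mul_le {α : Type*} (Z : Finset α) (p : α → Prop) [DecidablePred p] (u : α → ℝ≥0∞)
    (t S : ℝ) (hS : 0 ≤ S) (h1 : ∀ z ∈ Z, p z → ENNReal.ofReal t ≤ u z)
    (h2 : ∑ z ∈ Z, u z ≤ ENNReal.ofReal S) : ((Z.filter p).card : ℝ) * t ≤ S := by
  have h3 : (Z.filter p).card • ENNReal.ofReal t ≤ ∑ z ∈ Z.filter p, u z :=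
    Finset.card_nsmul_le_sum _ _ _ (fun z hz => h1 z (Finset.mem_filter.mp hz).1
      (Finset.mem_filter.mp hz).2)
  have h4 : ∑ z ∈ Z.filter p, u z ≤ ∑ z ∈ Z, u z :=
    Finset.sum_le_sum_of_subset (Finset.filter_subset _ _)
  have h5 : ENNReal.ofReal (((Z.filter p).card : ℝ) * t) ≤ ENNReal.ofReal S := by
    rw [ENNReal.ofReal_mul (by positivity), ENNReal.ofReal_natCast, ← nsmul_eq_mul]
    exact h3.trans (h4.trans h2)
  exact (ENNReal.ofReal_le_ofReal_iff hS).mp h5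

/-- Markov inequality for finite sums of reals. -/
theorem count_mul_le' {α : Type*} (Z : Finset α) (p : α → Prop) [DecidablePred p] (u : α → ℝ)
    (t S : ℝ) (h0 : ∀ z ∈ Z, 0 ≤ u z) (h1 : ∀ z ∈ Z, p z → t ≤ u z)
    (h2 : ∑ z ∈ Z, u z ≤ S) : ((Z.filter p).card : ℝ) * t ≤ S := by
  have h3 : (Z.filter p).card • t ≤ ∑ z ∈ Z.filter p, u z :=
    Finset.card_nsmul_le_sum _ _ _ (fun z hz => h1 z (Finset.mem_filter.mp hz).1
      (Finset.mem_filter.mp hz).2)
  have h4 : ∑ z ∈ Z.filter p, u z ≤ ∑ z ∈ Z, u z :=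
    Finset.sum_le_sum_of_subset_of_nonneg (Finset.filter_subset _ _) (fun z hz _ => h0 z hz)
  rw [nsmul_eq_mul] at h3
  linarith

theorem E_nonneg {ι : Type} (Q : ι → USq) (L : ℕ) (z : ℤ × ℤ) : 0 ≤ E Q L z := by
  unfold E
  refine Finset.sum_nonneg (fun c _ => ?_)
  unfold pathsum
  refine add_nonneg (Finset.sum_nonneg (fun j _ => ?_)) (Finset.sum_nonneg (fun j _ => ?_)) <;>
    exact ENNReal.toReal_nonneg

theorem sum_U_Z {n : ℕ} {sg : ℝ} {ι : Type} [Countable ι] {Q : ι → USq} {W : ℝ} (h : PP n sg Q W)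
    (τ : ℝ) (h0 : 0 < τ) (h1 : τ < 1 / 4) (L m : ℕ) (hL : 1 ≤ L) (hm : m + L ≤ n) :
    ∑ z ∈ Zc m, U Q L z ≤ ENNReal.ofReal (n * (10 ^ 23 * (W / τ + L * τ * W))) := by
  unfold Zc
  rw [Finset.sum_product_right]
  have hW := h.W_nonneg
  have hS : 0 ≤ 10 ^ 23 * (W / τ + L * τ * W) := by positivity
  have h2 : ∀ k ∈ Finset.Ico (0 : ℤ) m, ∑ i ∈ Finset.Ico (0 : ℤ) m, U Q L (i, k) ≤
      ENNReal.ofReal (10 ^ 23 * (W / τ + L * τ * W)) := by
    intro k hk
    rw [Finset.mem_Ico] at hk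
    refine le_trans ?_ (sum_U h τ h0 h1 L hL k hk.1 (by omega))
    have hr : (m : ℝ) ≤ (n : ℝ) + sg - L := by
      have : (m : ℝ) + L ≤ n := by exact_mod_cast hm
      linarith [h.sg_pos]
    exact sum_Icc_le _ m _ hr
  refine (Finset.sum_le_sum h2).trans ?_
  have hmn : ((m : ℤ) - 0).toNat = m := by simp
  rw [Finset.sum_const, Int.card_Ico, nsmul_eq_mul, hmn,
    ENNReal.ofReal_mul (p := (n : ℝ)) (by positivity), ENNReal.ofReal_natCast]
  gcongr
  omega

theorem sum_V_Z {n : ℕ} {sg : ℝ} {ι : Type} [Countable ι] {Q : ι → USq} {W : ℝ} (h : PP n sg Q W)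
    (τ : ℝ) (h0 : 0 < τ) (h1 : τ < 1 / 4) (L m : ℕ) (hL : 1 ≤ L) (hm : m + L ≤ n) :
    ∑ z ∈ Zc m, V Q L z ≤ ENNReal.ofReal (n * (10 ^ 23 * (W / τ + L * τ * W))) := by
  unfold Zc
  rw [Finset.sum_product]
  have hW := h.W_nonneg
  have hS : 0 ≤ 10 ^ 23 * (W / τ + L * τ * W) := by positivity
  have h2 : ∀ k ∈ Finset.Ico (0 : ℤ) m, ∑ i ∈ Finset.Ico (0 : ℤ) m, V Q L (k, i) ≤
      ENNReal.ofReal (10 ^ 23 * (W / τ + L * τ * W)) := by
    intro k hk
    rw [Finset.mem_Ico] at hk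
    refine le_trans ?_ (sum_V h τ h0 h1 L hL k hk.1 (by omega))
    have hr : (m : ℝ) ≤ (n : ℝ) + sg - L := by
      have : (m : ℝ) + L ≤ n := by exact_mod_cast hm
      linarith [h.sg_pos]
    exact sum_Icc_le _ m _ hr
  refine (Finset.sum_le_sum h2).trans ?_
  have hmn : ((m : ℤ) - 0).toNat = m := by simp
  rw [Finset.sum_const, Int.card_Ico, nsmul_eq_mul, hmn,
    ENNReal.ofReal_mul (p := (n : ℝ)) (by positivity), ENNReal.ofReal_natCast]
  gcongr
  omega

open Classical in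
/-- cells of slope between `θ/4` and `θ` -/
noncomputable def cls {ι : Type} (Q : ι → USq) (m : ℕ) (θ : ℝ) : Finset (ℤ × ℤ) :=
  (Zc m).filter (fun z => nice Q z ∧ θ / 4 < |bet Q z| ∧ |bet Q z| ≤ θ)

theorem class_bound {n : ℕ} {sg : ℝ} {ι : Type} [Countable ι] {Q : ι → USq} {W : ℝ} (h : PP n sg Q W)
    (L m : ℕ) (hL : 17 ≤ L) (hm : m + L ≤ n) (θ : ℝ) (hθ : 0 < θ) (hLθ : L * θ ≤ 1 / 8) :
    θ ^ 2 * ((cls Q m θ).card : ℝ) ≤
      16 * 10 ^ 23 * n * W * (θ / Real.sqrt L) + 32 * 10 ^ 25 * (L * W) := by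
  classical
  have hW := h.W_nonneg
  have hLr : (17 : ℝ) ≤ L := by exact_mod_cast hL
  have hL0 : (0 : ℝ) < L := by linarith
  set s := Real.sqrt L with hs
  have hs0 : 0 < s := Real.sqrt_pos.mpr hL0
  have hss : s * s = L := Real.mul_self_sqrt hL0.le
  have hs4 : 4 < s := by
    rw [hs]
    exact Real.lt_sqrt_of_sq_lt (by linarith)
  have hτ0 : 0 < 1 / s := by positivity
  have hτ1 : 1 / s < 1 / 4 := by
    apply one_div_lt_one_div_of_lt <;> linarith
  set t := L * (θ / 4) with ht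
  have ht0 : 0 < t := by positivity
  set S := (n : ℝ) * (10 ^ 23 * (2 * W * s)) with hSdef
  have hS0 : 0 ≤ S := by positivity
  have hSeq : (n : ℝ) * (10 ^ 23 * (W / (1 / s) + L * (1 / s) * W)) = S := by
    rw [hSdef, ← hss]
    field_simp
    ring
  have hU := sum_U_Z h (1 / s) hτ0 hτ1 L m (by omega) hm
  have hV := sum_V_Z h (1 / s) hτ0 hτ1 L m (by omega) hm
  rw [hSeq] at hU hV
  have hE := sum_E h L (by omega) (Zc m)
  have cU := count_mul_le (Zc m) (fun z => ENNReal.ofReal t ≤ U Q L z) (fun z => U Q L z) t S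
    hS0 (fun z _ hz => hz) hU
  have cV := count_mul_le (Zc m) (fun z => ENNReal.ofReal t ≤ V Q L z) (fun z => V Q L z) t S
    hS0 (fun z _ hz => hz) hV
  have cE := count_mul_le' (Zc m) (fun z => t ^ 2 / 10 ^ 20 ≤ E Q L z) (fun z => E Q L z)
    (t ^ 2 / 10 ^ 20) (2 * 10 ^ 5 * (L : ℝ) ^ 3 * W) (fun z _ => E_nonneg Q L z)
    (fun z _ hz => hz) hE
  set NU := (((Zc m).filter (fun z => ENNReal.ofReal t ≤ U Q L z)).card : ℝ) with hNU
  set NV := (((Zc m).filter (fun z => ENNReal.ofReal t ≤ V Q L z)).card : ℝ) with hNV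
  set NE := (((Zc m).filter (fun z => t ^ 2 / 10 ^ 20 ≤ E Q L z)).card : ℝ) with hNE
  have hcard : ((cls Q m θ).card : ℝ) ≤ NU + NV + NE := by
    have hsub : cls Q m θ ⊆ ((Zc m).filter (fun z => ENNReal.ofReal t ≤ U Q L z) ∪
        (Zc m).filter (fun z => ENNReal.ofReal t ≤ V Q L z)) ∪
        (Zc m).filter (fun z => t ^ 2 / 10 ^ 20 ≤ E Q L z) := by
      intro z hz
      simp only [cls, Finset.mem_filter] at hz
      obtain ⟨hzZ, hn, hb1, hb2⟩ := hz
      have e1 : (L : ℝ) * |bet Q z| ≤ 1 / 8 := by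
        refine le_trans ?_ hLθ
        exact mul_le_mul_of_nonneg_left hb2 hL0.le
      have e2 : t ≤ L * |bet Q z| := by
        rw [ht]
        exact mul_le_mul_of_nonneg_left hb1.le hL0.le
      have e3 : ENNReal.ofReal t ≤ ENNReal.ofReal (L * |bet Q z|) := ENNReal.ofReal_le_ofReal e2
      simp only [Finset.mem_union, Finset.mem_filter]
      rcases local_lemma h z hn L (by omega) e1 with hl | hl | hl
      · left; left; exact ⟨hzZ, e3.trans hl⟩
      · left; right; exact ⟨hzZ, e3.trans hl⟩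
      · right
        refine ⟨hzZ, ?_⟩
        have e4 : t ^ 2 ≤ (L * bet Q z) ^ 2 := by
          rw [← sq_abs (L * bet Q z), abs_mul, abs_of_pos hL0]
          exact pow_le_pow_left₀ ht0.le e2 2
        rw [div_le_iff₀ (by positivity)]
        linarith
    have c1 := Finset.card_le_card hsub
    have c2 := Finset.card_union_le ((Zc m).filter (fun z => ENNReal.ofReal t ≤ U Q L z) ∪
        (Zc m).filter (fun z => ENNReal.ofReal t ≤ V Q L z))
        ((Zc m).filter (fun z => t ^ 2 / 10 ^ 20 ≤ E Q L z))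
    have c3 := Finset.card_union_le ((Zc m).filter (fun z => ENNReal.ofReal t ≤ U Q L z))
        ((Zc m).filter (fun z => ENNReal.ofReal t ≤ V Q L z))
    have c4 := c1.trans (c2.trans (Nat.add_le_add_right c3 _))
    have c5 : ((cls Q m θ).card : ℝ) ≤ _ := Nat.cast_le.mpr c4
    rw [Nat.cast_add, Nat.cast_add] at c5
    exact c5
  have hNU' : θ ^ 2 * NU ≤ 8 * 10 ^ 23 * n * W * (θ / s) := by
    have : NU ≤ S / t := by rw [le_div_iff₀ ht0]; exact cU
    calc θ ^ 2 * NU ≤ θ ^ 2 * (S / t) := mul_le_mul_of_nonneg_left this (by positivity)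
      _ = 8 * 10 ^ 23 * n * W * (θ / s) := by
        rw [ht, hSdef, ← hss]
        field_simp
        ring
  have hNV' : θ ^ 2 * NV ≤ 8 * 10 ^ 23 * n * W * (θ / s) := by
    have : NV ≤ S / t := by rw [le_div_iff₀ ht0]; exact cV
    calc θ ^ 2 * NV ≤ θ ^ 2 * (S / t) := mul_le_mul_of_nonneg_left this (by positivity)
      _ = 8 * 10 ^ 23 * n * W * (θ / s) := by
        rw [ht, hSdef, ← hss]
        field_simp
        ring
  have hNE' : θ ^ 2 * NE ≤ 32 * 10 ^ 25 * (L * W) := by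
    have : NE ≤ (2 * 10 ^ 5 * (L : ℝ) ^ 3 * W) / (t ^ 2 / 10 ^ 20) := by
      rw [le_div_iff₀ (by positivity)]; exact cE
    calc θ ^ 2 * NE ≤ θ ^ 2 * ((2 * 10 ^ 5 * (L : ℝ) ^ 3 * W) / (t ^ 2 / 10 ^ 20)) :=
          mul_le_mul_of_nonneg_left this (by positivity)
      _ = 32 * 10 ^ 25 * (L * W) := by
        rw [ht]
        field_simp
        ring
  have hfin : θ ^ 2 * ((cls Q m θ).card : ℝ) ≤ θ ^ 2 * (NU + NV + NE) :=
    mul_le_mul_of_nonneg_left hcard (by positivity)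
  calc θ ^ 2 * ((cls Q m θ).card : ℝ) ≤ θ ^ 2 * (NU + NV + NE) := hfin
    _ = θ ^ 2 * NU + θ ^ 2 * NV + θ ^ 2 * NE := by ring
    _ ≤ 8 * 10 ^ 23 * n * W * (θ / s) + 8 * 10 ^ 23 * n * W * (θ / s) +
        32 * 10 ^ 25 * (L * W) := by linarith
    _ = _ := by ring

theorem Zc_zero : Zc 0 = ∅ := by
  unfold Zc
  simp

theorem energy_split {n : ℕ} {sg : ℝ} {ι : Type} [Countable ι] {Q : ι → USq} {W : ℝ} (h : PP n sg Q W)
    (m J : ℕ) (hm : m ≤ n) (τ : ℝ) (hτ : 0 < τ) :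
    energy n Q τ ≤ (3 * n + 14) * (n + 3) * (τ / 4 ^ J) ^ 2 +
      ((n + 13) * (n + 3) - (m : ℝ) ^ 2) * τ ^ 2 +
      ∑ j ∈ Finset.range J, (τ / 4 ^ j) ^ 2 * ((cls Q m (τ / 4 ^ j)).card : ℝ) := by
  classical
  set B : Finset (ℤ × ℤ) := Finset.Icc (-6 : ℤ) (n + 6) ×ˢ Finset.Icc (-1 : ℤ) (n + 1) with hB
  have hpt : ∀ c ∈ cells n, (if nice Q c ∧ gam Q c ≤ τ then bet Q c ^ 2 else 0) ≤
      (τ / 4 ^ J) ^ 2 + (if c ∈ B \ Zc m then τ ^ 2 else 0) +
      ∑ j ∈ Finset.range J, if c ∈ cls Q m (τ / 4 ^ j) then (τ / 4 ^ j) ^ 2 else 0 := by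
    intro c hc
    have n1 : 0 ≤ (τ / 4 ^ J) ^ 2 := by positivity
    have n2 : 0 ≤ (if c ∈ B \ Zc m then τ ^ 2 else 0) := by split_ifs <;> positivity
    have n3 : ∀ j ∈ Finset.range J,
        0 ≤ (if c ∈ cls Q m (τ / 4 ^ j) then (τ / 4 ^ j) ^ 2 else 0 : ℝ) := by
      intro j _
      split_ifs <;> positivity
    have n3' := Finset.sum_nonneg n3
    by_cases hng : nice Q c ∧ gam Q c ≤ τ
    · rw [if_pos hng]
      obtain ⟨hn, hg⟩ := hng
      have hg' : |bet Q c| ≤ τ := by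
        unfold gam at hg
        rwa [if_pos hn] at hg
      by_cases h1 : |bet Q c| ≤ τ / 4 ^ J
      · have : bet Q c ^ 2 ≤ (τ / 4 ^ J) ^ 2 := by
          rw [← sq_abs (bet Q c)]
          exact pow_le_pow_left₀ (abs_nonneg _) h1 2
        linarith
      · push Not at h1
        have hb0 : bet Q c ≠ 0 := by
          intro h0
          rw [h0, abs_zero] at h1
          have : 0 < τ / 4 ^ J := by positivity
          linarith
        have hcx : ¬ (c.1 < -6 ∨ (n : ℤ) + 6 < c.1) := fun hx => hb0 (far_bet h c hx)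
        push Not at hcx
        have hcB : c ∈ B := by
          simp only [cells, Finset.mem_product, Finset.mem_Icc] at hc
          simp only [hB, Finset.mem_product, Finset.mem_Icc]
          exact ⟨⟨hcx.1, hcx.2⟩, hc.2⟩
        by_cases h2 : c ∈ Zc m
        · have hex : ∃ i, τ / 4 ^ i < |bet Q c| := ⟨J, h1⟩
          set i := Nat.find hex with hi
          have hi1 : τ / 4 ^ i < |bet Q c| := Nat.find_spec hex
          have hi2 : i ≤ J := Nat.find_min' hex h1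
          have hi0 : i ≠ 0 := by
            intro h0
            rw [h0, pow_zero, div_one] at hi1
            linarith
          obtain ⟨j, hj⟩ := Nat.exists_eq_succ_of_ne_zero hi0
          have hjJ : j ∈ Finset.range J := Finset.mem_range.mpr (by omega)
          have hj1 : |bet Q c| ≤ τ / 4 ^ j := by
            have := Nat.find_min hex (m := j) (by omega)
            push Not at this
            exact this
          have hmem : c ∈ cls Q m (τ / 4 ^ j) := by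
            simp only [cls, Finset.mem_filter]
            refine ⟨h2, hn, ?_, hj1⟩
            rw [hj, pow_succ] at hi1
            rw [div_div]
            exact hi1
          have h3 : bet Q c ^ 2 ≤ (τ / 4 ^ j) ^ 2 := by
            rw [← sq_abs (bet Q c)]
            exact pow_le_pow_left₀ (abs_nonneg _) hj1 2
          have h4 := Finset.single_le_sum n3 hjJ
          rw [if_pos hmem] at h4
          linarith
        · have h3 : c ∈ B \ Zc m := Finset.mem_sdiff.mpr ⟨hcB, h2⟩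
          rw [if_pos h3]
          have : bet Q c ^ 2 ≤ τ ^ 2 := by
            rw [← sq_abs (bet Q c)]
            exact pow_le_pow_left₀ (abs_nonneg _) hg' 2
          linarith
    · rw [if_neg hng]
      linarith
  unfold energy
  refine (Finset.sum_le_sum hpt).trans ?_
  rw [Finset.sum_add_distrib, Finset.sum_add_distrib]
  have s1 : ∑ c ∈ cells n, (τ / 4 ^ J) ^ 2 = (3 * n + 14) * (n + 3) * (τ / 4 ^ J) ^ 2 := by
    have hc : (cells n).card = (3 * n + 14) * (n + 3) := by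
      unfold cells
      rw [Finset.card_product, Int.card_Icc, Int.card_Icc]
      congr 1
      omega
    rw [Finset.sum_const, hc, nsmul_eq_mul]
    push_cast
    ring
  have s2 : ∑ c ∈ cells n, (if c ∈ B \ Zc m then τ ^ 2 else 0) ≤
      ((n + 13) * (n + 3) - (m : ℝ) ^ 2) * τ ^ 2 := by
    have hZB : Zc m ⊆ B := by
      intro c hc
      simp only [Zc, Finset.mem_product, Finset.mem_Ico] at hc
      simp only [hB, Finset.mem_product, Finset.mem_Icc]
      omega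
    have hcB : B.card = (n + 13) * (n + 3) := by
      rw [hB, Finset.card_product, Int.card_Icc, Int.card_Icc]
      congr 1
    have hcZ : (Zc m).card = m ^ 2 := by
      unfold Zc
      rw [Finset.card_product, Int.card_Ico]
      simp [sq]
    have hsd : ((B \ Zc m).card : ℝ) = (n + 13) * (n + 3) - (m : ℝ) ^ 2 := by
      have := Finset.card_sdiff_add_card_eq_card hZB
      have h5 : ((B \ Zc m).card : ℝ) + (Zc m).card = B.card := by exact_mod_cast this
      rw [hcB, hcZ] at h5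
      push_cast at h5
      linarith
    rw [← hsd, ← Finset.sum_filter, Finset.sum_const, nsmul_eq_mul]
    refine mul_le_mul_of_nonneg_right ?_ (by positivity)
    have : ((cells n).filter (fun c => c ∈ B \ Zc m)).card ≤ (B \ Zc m).card := by
      apply Finset.card_le_card
      intro c hc
      exact (Finset.mem_filter.mp hc).2
    exact_mod_cast this
  have s3 : ∑ c ∈ cells n, ∑ j ∈ Finset.range J,
      (if c ∈ cls Q m (τ / 4 ^ j) then (τ / 4 ^ j) ^ 2 else 0) ≤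
      ∑ j ∈ Finset.range J, (τ / 4 ^ j) ^ 2 * ((cls Q m (τ / 4 ^ j)).card : ℝ) := by
    rw [Finset.sum_comm]
    refine Finset.sum_le_sum (fun j _ => ?_)
    rw [← Finset.sum_filter, Finset.sum_const, nsmul_eq_mul, mul_comm]
    refine mul_le_mul_of_nonneg_left ?_ (by positivity)
    have : ((cells n).filter (fun c => c ∈ cls Q m (τ / 4 ^ j))).card ≤
        (cls Q m (τ / 4 ^ j)).card := by
      apply Finset.card_le_card
      intro c hc
      exact (Finset.mem_filter.mp hc).2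
    exact_mod_cast this
  rw [s1]
  linarith

/-- contradiction for a tiny waste -/
theorem no_small {n : ℕ} {sg : ℝ} {ι : Type} [Countable ι] {Q : ι → USq} {W : ℝ} (hn : 1 ≤ n)
    (hW : 0 < W) (h : PP n sg Q W) {d : ℝ} (hd : 0 < d) (hd1 : d ≤ sg) (hd2 : d ≤ 1 - sg)
    (hz1 : 10 ^ 30 * W ≤ d * ((n : ℝ) + sg)) (hz4 : (10 ^ 30 * W) ^ 4 ≤ (d * ((n : ℝ) + sg)) ^ 3)
    (hz5 : (10 ^ 30 * W) ^ 5 ≤ (d * ((n : ℝ) + sg)) ^ 3) : False := by
  have hsg0 := h.sg_pos
  have hsg1 := h.sg_lt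
  have hdl : d ≤ 1 := by linarith
  set x : ℝ := (n : ℝ) + sg with hx
  have hnr : (1 : ℝ) ≤ n := by exact_mod_cast hn
  have hx1 : 1 ≤ x := by rw [hx]; linarith
  have hx0 : 0 < x := by linarith
  have hnx : (n : ℝ) ≤ x := by rw [hx]; linarith
  set τ : ℝ := 10 ^ 22 * W / x with hτdef
  have hτ0 : 0 < τ := by positivity
  have hτs' : τ ≤ d / 10 ^ 8 := by
    rw [hτdef, div_le_div_iff₀ (by positivity) (by positivity)]
    linarith
  have hτs : τ ≤ 1 / 10 ^ 8 := hτs'.trans (by gcongr)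
  have hτx : τ * x = 10 ^ 22 * W := by rw [hτdef]; field_simp
  set A : ℝ := d * x / (10 ^ 30 * W) with hA
  have hA0 : 0 < A := by positivity
  have hAW : A * W = d * x / 10 ^ 30 := by rw [hA]; field_simp
  have hAτ : A * τ = d / 10 ^ 8 := by rw [hA, hτdef]; field_simp
  -- choice of J
  have hexJ : ∃ J : ℕ, (τ / 4 ^ J) ^ 2 * x ≤ d / 10 ^ 4 := by
    obtain ⟨J, hJ⟩ := exists_pow_lt_of_lt_one (show (0 : ℝ) < d / (10 ^ 4 * (τ ^ 2 * x)) by
      positivity) (show (1 / 4 : ℝ) < 1 by norm_num)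
    refine ⟨J, ?_⟩
    have h1 : (τ / 4 ^ J) ^ 2 * x = (τ ^ 2 * x) * ((1 / 4) ^ J * (1 / 4) ^ J) := by
      rw [one_div, inv_pow]
      field_simp
    have h2 : (1 / 4 : ℝ) ^ J ≤ 1 := pow_le_one₀ (by norm_num) (by norm_num)
    have h3 : (1 / 4 : ℝ) ^ J * (1 / 4) ^ J ≤ d / (10 ^ 4 * (τ ^ 2 * x)) := by
      calc (1 / 4 : ℝ) ^ J * (1 / 4) ^ J ≤ 1 * (1 / 4) ^ J :=
            mul_le_mul_of_nonneg_right h2 (by positivity)
        _ ≤ _ := by rw [one_mul]; exact hJ.le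
    rw [h1]
    calc (τ ^ 2 * x) * ((1 / 4) ^ J * (1 / 4) ^ J) ≤ (τ ^ 2 * x) * (d / (10 ^ 4 * (τ ^ 2 * x))) :=
          mul_le_mul_of_nonneg_left h3 (by positivity)
      _ = d / 10 ^ 4 := by field_simp
  classical
  set J := Nat.find hexJ with hJdef
  have hJ1 : (τ / 4 ^ J) ^ 2 * x ≤ d / 10 ^ 4 := Nat.find_spec hexJ
  have hJ2 : ∀ j < J, d / 10 ^ 4 < (τ / 4 ^ j) ^ 2 * x := by
    intro j hj
    have := Nat.find_min hexJ hj
    push Not at this
    exact this
  set Lf : ℕ → ℕ := fun j => ⌊A / 4 ^ j⌋₊ with hLf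
  have hLle : ∀ j, (Lf j : ℝ) ≤ A / 4 ^ j := fun j => Nat.floor_le (by positivity)
  set m : ℕ := n - Lf 0 with hm
  have hmn : m ≤ n := Nat.sub_le _ _
  have hbig : ∀ j < J, 65 ≤ A / 4 ^ j := by
    intro j hj
    by_contra hcon
    push Not at hcon
    have h1 := hJ2 j hj
    -- τ/4^j = (A/4^j) * τ / A
    have h2 : τ / 4 ^ j = (A / 4 ^ j) * (10 ^ 52 * W ^ 2 / (d * x ^ 2)) := by
      rw [hA, hτdef]
      field_simp
    have h3 : τ / 4 ^ j ≤ 65 * (10 ^ 52 * W ^ 2 / (d * x ^ 2)) := by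
      rw [h2]
      exact mul_le_mul_of_nonneg_right hcon.le (by positivity)
    have h4 : (τ / 4 ^ j) ^ 2 * x ≤ (65 * (10 ^ 52 * W ^ 2 / (d * x ^ 2))) ^ 2 * x :=
      mul_le_mul_of_nonneg_right (pow_le_pow_left₀ (by positivity) h3 2) hx0.le
    have h5 : (65 * (10 ^ 52 * W ^ 2 / (d * x ^ 2))) ^ 2 * x =
        4225 * 10 ^ 104 * W ^ 4 / (d ^ 2 * x ^ 3) := by
      field_simp
      ring
    have h8 : 4225 * 10 ^ 104 * W ^ 4 / (d ^ 2 * x ^ 3) ≤ d / 10 ^ 4 := by
      rw [div_le_div_iff₀ (by positivity) (by positivity)]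
      have e6 : (10 ^ 30 * W) ^ 4 = 10 ^ 120 * W ^ 4 := by ring
      rw [e6] at hz4
      have hW4 : 0 ≤ W ^ 4 := by positivity
      have e7 : d * (d ^ 2 * x ^ 3) = (d * x) ^ 3 := by ring
      rw [e7]
      linarith
    linarith
  -- bounds on the classes
  set R : ℝ := Real.sqrt (A / 2) with hR
  have hR0 : 0 < R := Real.sqrt_pos.mpr (by positivity)
  have hR2 : R ^ 2 = A / 2 := Real.sq_sqrt (by positivity)
  have hcls : ∀ j ∈ Finset.range J, (τ / 4 ^ j) ^ 2 * ((cls Q m (τ / 4 ^ j)).card : ℝ) ≤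
      (16 * 10 ^ 23 * n * W * (τ / R) + 32 * 10 ^ 25 * (A * W)) * (1 / 2) ^ j := by
    intro j hj
    rw [Finset.mem_range] at hj
    have h65 := hbig j hj
    have hpos : 0 ≤ (16 * 10 ^ 23 * n * W * (τ / R) + 32 * 10 ^ 25 * (A * W)) * (1 / 2) ^ j := by
      positivity
    by_cases hm0 : m = 0
    · have : cls Q m (τ / 4 ^ j) = ∅ := by
        unfold cls
        rw [hm0, Zc_zero, Finset.filter_empty]
      rw [this, Finset.card_empty, Nat.cast_zero, mul_zero]
      exact hpos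
    · have hL64 : 64 ≤ Lf j := by
        apply Nat.le_floor
        push_cast
        linarith
      have hLj0 : Lf j ≤ Lf 0 := by
        apply Nat.floor_mono
        rw [pow_zero, div_one]
        exact div_le_self hA0.le (one_le_pow₀ (by norm_num))
      have hmL : m + Lf j ≤ n := by omega
      have hθ : 0 < τ / 4 ^ j := by positivity
      have h4j : (1 : ℝ) ≤ 4 ^ j := one_le_pow₀ (by norm_num)
      have hLθ : (Lf j : ℝ) * (τ / 4 ^ j) ≤ 1 / 8 := by
        calc (Lf j : ℝ) * (τ / 4 ^ j) ≤ A * τ := by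
              apply mul_le_mul ((hLle j).trans (div_le_self hA0.le h4j))
                (div_le_self hτ0.le h4j) hθ.le hA0.le
          _ ≤ 1 / 8 := by rw [hAτ]; linarith
      have hcb := class_bound h (Lf j) m (by omega) hmL (τ / 4 ^ j) hθ hLθ
      refine hcb.trans ?_
      have hLlow : A / 4 ^ j / 2 ≤ (Lf j : ℝ) := by
        have := Nat.lt_floor_add_one (A / 4 ^ j)
        have h9 : A / 4 ^ j < (Lf j : ℝ) + 1 := this
        linarith
      have hsq : R / 2 ^ j ≤ Real.sqrt (Lf j) := by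
        apply Real.le_sqrt_of_sq_le
        rw [div_pow, hR2, ← pow_mul, mul_comm j 2, pow_mul]
        norm_num
        have : A / 2 / 4 ^ j = A / 4 ^ j / 2 := by ring
        rw [this]
        exact hLlow
      have hR2j : 0 < R / 2 ^ j := by positivity
      have h10 : τ / 4 ^ j / Real.sqrt (Lf j) ≤ τ / R * (1 / 2) ^ j := by
        calc τ / 4 ^ j / Real.sqrt (Lf j) ≤ τ / 4 ^ j / (R / 2 ^ j) :=
              div_le_div_of_nonneg_left hθ.le hR2j hsq
          _ = τ / R * (1 / 2) ^ j := by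
            have : (4 : ℝ) ^ j = 2 ^ j * 2 ^ j := by rw [← mul_pow]; norm_num
            rw [this, one_div, inv_pow]
            field_simp
      have h11 : (Lf j : ℝ) ≤ A * (1 / 2) ^ j := by
        refine (hLle j).trans ?_
        have h24 : (2 : ℝ) ^ j ≤ 4 ^ j := pow_le_pow_left₀ (by norm_num) (by norm_num) j
        rw [one_div, inv_pow, ← div_eq_mul_inv]
        exact div_le_div_of_nonneg_left hA0.le (by positivity) h24
      have h12 : 16 * 10 ^ 23 * n * W * (τ / 4 ^ j / Real.sqrt (Lf j)) ≤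
          16 * 10 ^ 23 * n * W * (τ / R * (1 / 2) ^ j) :=
        mul_le_mul_of_nonneg_left h10 (by positivity)
      have h13 : 32 * 10 ^ 25 * ((Lf j : ℝ) * W) ≤ 32 * 10 ^ 25 * (A * (1 / 2) ^ j * W) :=
        mul_le_mul_of_nonneg_left (mul_le_mul_of_nonneg_right h11 hW.le) (by positivity)
      calc _ ≤ 16 * 10 ^ 23 * n * W * (τ / R * (1 / 2) ^ j) +
            32 * 10 ^ 25 * (A * (1 / 2) ^ j * W) := add_le_add h12 h13
        _ = _ := by ring
  have hsum : ∑ j ∈ Finset.range J, (τ / 4 ^ j) ^ 2 * ((cls Q m (τ / 4 ^ j)).card : ℝ) ≤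
      (16 * 10 ^ 23 * n * W * (τ / R) + 32 * 10 ^ 25 * (A * W)) * 2 := by
    refine (Finset.sum_le_sum hcls).trans ?_
    rw [← Finset.mul_sum]
    exact mul_le_mul_of_nonneg_left (sum_geometric_two_le J) (by positivity)
  have hlow := energy_lower h hd hd1 hd2 τ hτ0 (by
    refine hτs.trans_lt ?_
    norm_num) (by rw [← hx, hτx]) (by rw [← hx]; linarith)
  rw [← hx] at hlow
  have hup := energy_split h m J hmn τ hτ0
  -- first term
  have t1 : (3 * (n : ℝ) + 14) * (n + 3) * (τ / 4 ^ J) ^ 2 ≤ 68 / 10 ^ 4 * (d * x) := by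
    have e1 : (3 * (n : ℝ) + 14) * (n + 3) ≤ 68 * x * x := by
      have : (3 * (n : ℝ) + 14) * (n + 3) ≤ 68 * n * n := by nlinarith
      refine this.trans ?_
      have : (n : ℝ) * n ≤ x * x := mul_le_mul hnx hnx (by positivity) hx0.le
      nlinarith
    calc (3 * (n : ℝ) + 14) * (n + 3) * (τ / 4 ^ J) ^ 2 ≤ 68 * x * x * (τ / 4 ^ J) ^ 2 :=
          mul_le_mul_of_nonneg_right e1 (by positivity)
      _ = 68 * x * ((τ / 4 ^ J) ^ 2 * x) := by ring
      _ ≤ 68 * x * (d / 10 ^ 4) := mul_le_mul_of_nonneg_left hJ1 (by positivity)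
      _ = _ := by ring
  -- second term
  have t2 : (((n : ℝ) + 13) * (n + 3) - (m : ℝ) ^ 2) * τ ^ 2 ≤ 1 / 1000 * (d * x) := by
    have e1 : ((n : ℝ) + 13) * (n + 3) - (m : ℝ) ^ 2 ≤ n * (55 + 2 * A) := by
      have hL0A : (Lf 0 : ℝ) ≤ A := by
        have := hLle 0
        rwa [pow_zero, div_one] at this
      by_cases hc : Lf 0 ≤ n
      · have : (m : ℝ) = n - Lf 0 := by rw [hm, Nat.cast_sub hc]
        rw [this]
        have h0 : (0 : ℝ) ≤ (Lf 0 : ℝ) ^ 2 := by positivity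
        have h0' : (n : ℝ) * (Lf 0 : ℝ) ≤ n * A := mul_le_mul_of_nonneg_left hL0A (by positivity)
        have h0'' : ((n : ℝ) + 13) * (n + 3) - ((n : ℝ) - (Lf 0 : ℝ)) ^ 2 =
          16 * n + 39 + 2 * (n * (Lf 0 : ℝ)) - (Lf 0 : ℝ) ^ 2 := by ring
        have h0''' : (n : ℝ) * (55 + 2 * A) = 55 * n + 2 * (n * A) := by ring
        rw [h0'', h0''']
        linarith
      · push Not at hc
        have hc' : (n : ℝ) ≤ Lf 0 := by exact_mod_cast hc.le
        have h0 : 0 ≤ (m : ℝ) ^ 2 := by positivity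
        have h0' : (n : ℝ) * n ≤ n * A :=
          mul_le_mul_of_nonneg_left (hc'.trans hL0A) (by positivity)
        have h0A : 0 ≤ (n : ℝ) * A := by positivity
        have h0'' : ((n : ℝ) + 13) * (n + 3) - (m : ℝ) ^ 2 =
          n * n + 16 * n + 39 - (m : ℝ) ^ 2 := by ring
        have h0''' : (n : ℝ) * (55 + 2 * A) = 55 * n + 2 * (n * A) := by ring
        rw [h0'', h0''']
        linarith
    have e2 : (((n : ℝ) + 13) * (n + 3) - (m : ℝ) ^ 2) * τ ^ 2 ≤ n * (55 + 2 * A) * τ ^ 2 :=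
      mul_le_mul_of_nonneg_right e1 (by positivity)
    have e3 : (n : ℝ) * (55 + 2 * A) * τ ^ 2 = n * (55 * τ + 2 * (A * τ)) * τ := by ring
    rw [e3, hAτ] at e2
    refine e2.trans ?_
    have e4 : 55 * τ + 2 * (d / 10 ^ 8) ≤ 1 := by linarith
    have e5 : (n : ℝ) * (55 * τ + 2 * (d / 10 ^ 8)) ≤ x * 1 :=
      mul_le_mul hnx e4 (by positivity) hx0.le
    calc (n : ℝ) * (55 * τ + 2 * (d / 10 ^ 8)) * τ ≤ x * 1 * τ :=
          mul_le_mul_of_nonneg_right e5 hτ0.le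
      _ ≤ x * 1 * (d / 10 ^ 8) := mul_le_mul_of_nonneg_left hτs' (by positivity)
      _ ≤ 1 / 1000 * (d * x) := by
        have : 0 < d * x := by positivity
        linarith
  -- third term
  have t3 : 16 * 10 ^ 23 * n * W * (τ / R) ≤ 1 / 2000 * (d * x) := by
    have e1 : 16 * 10 ^ 23 * (n : ℝ) * W * (τ / R) ≤ 16 * 10 ^ 45 * W ^ 2 / R := by
      calc 16 * 10 ^ 23 * (n : ℝ) * W * (τ / R) ≤ 16 * 10 ^ 23 * x * W * (τ / R) := by
            gcongr
        _ = 16 * 10 ^ 23 * W * (τ * x) / R := by ring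
        _ = _ := by rw [hτx]; ring
    refine e1.trans ?_
    have e2 : 32 * 10 ^ 48 * W ^ 2 / (d * x) ≤ R := by
      rw [hR]
      apply Real.le_sqrt_of_sq_le
      rw [hA, div_pow, div_div, div_le_div_iff₀ (by positivity) (by positivity)]
      have h8 : (10 ^ 30 * W) ^ 5 = 10 ^ 150 * W ^ 5 := by ring
      rw [h8] at hz5
      have h9 : (32 * 10 ^ 48 * W ^ 2) ^ 2 * (10 ^ 30 * W * 2) = 2048 * 10 ^ 126 * W ^ 5 := by
        ring
      rw [h9]
      have h10 : d * x * (d * x) ^ 2 = (d * x) ^ 3 := by ring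
      rw [h10]
      have hW5 : 0 ≤ W ^ 5 := by positivity
      linarith
    rw [div_le_iff₀ hR0]
    calc 16 * 10 ^ 45 * W ^ 2 = 1 / 2000 * (d * x) * (32 * 10 ^ 48 * W ^ 2 / (d * x)) := by
          field_simp
          ring
      _ ≤ 1 / 2000 * (d * x) * R := mul_le_mul_of_nonneg_left e2 (by positivity)
  have t4 : 32 * 10 ^ 25 * (A * W) ≤ 32 / 10 ^ 5 * (d * x) := by
    rw [hAW]
    have : 32 * 10 ^ 25 * (d * x / 10 ^ 30) = 32 / 10 ^ 5 * (d * x) := by ring
    rw [this]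
  have hdx : 0 < d * x := by positivity
  have hfinal : d * x / 20 ≤ 68 / 10 ^ 4 * (d * x) + 1 / 1000 * (d * x) +
      (1 / 2000 * (d * x) + 32 / 10 ^ 5 * (d * x)) * 2 := by
    linarith
  linarith

end Combine

/-- T19: combination. -/
theorem combine {n : ℕ} {sg : ℝ} {ι : Type} [Countable ι] {Q : ι → USq} {W d : ℝ} (hn : 1 ≤ n)
    (hd : 0 < d) (hd1 : d ≤ sg) (hd2 : d ≤ 1 - sg) (hW : 0 < W) (h : PP n sg Q W) :
    1 / 10 ^ 30 * min (d * ((n : ℝ) + sg)) ((d * ((n : ℝ) + sg)) ^ ((3 : ℝ) / 5)) ≤ W := by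
  by_contra hcon
  push Not at hcon
  obtain ⟨z, hz⟩ : ∃ z : ℝ, z = d * ((n : ℝ) + sg) := ⟨_, rfl⟩
  have hsg0 := h.sg_pos
  have hz0 : 0 < z := by rw [hz]; positivity
  obtain ⟨V, hV⟩ : ∃ V : ℝ, V = 10 ^ 30 * W := ⟨_, rfl⟩
  have hV0 : 0 < V := by rw [hV]; positivity
  rw [← hz] at hcon
  have hV1 : V < min z (z ^ ((3 : ℝ) / 5)) := by
    rw [hV]
    have : 1 / 10 ^ 30 * min z (z ^ ((3 : ℝ) / 5)) * 10 ^ 30 = min z (z ^ ((3 : ℝ) / 5)) := by ring
    nlinarith
  have hVz : V ≤ z := (hV1.trans_le (min_le_left _ _)).le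
  have hVz' : V ≤ z ^ ((3 : ℝ) / 5) := (hV1.trans_le (min_le_right _ _)).le
  have h5 : V ^ 5 ≤ z ^ 3 := by
    calc V ^ 5 ≤ (z ^ ((3 : ℝ) / 5)) ^ 5 := pow_le_pow_left₀ hV0.le hVz' 5
      _ = z ^ 3 := by
        rw [← Real.rpow_natCast, ← Real.rpow_mul hz0.le, ← Real.rpow_natCast]
        norm_num
  have h4 : V ^ 4 ≤ z ^ 3 := by
    rcases le_total V 1 with hV2 | hV2
    · calc V ^ 4 ≤ V ^ 3 := pow_le_pow_of_le_one hV0.le hV2 (by norm_num)
        _ ≤ z ^ 3 := pow_le_pow_left₀ hV0.le hVz 3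
    · exact (pow_le_pow_right₀ hV2 (by norm_num)).trans h5
  refine Combine.no_small hn hW h hd hd1 hd2 ?_ ?_ ?_
  · rw [← hz, ← hV]; exact hVz
  · rw [← hz, ← hV]; exact h4
  · rw [← hz, ← hV]; exact h5

end H40.PK
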