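import Pool.Graph.R_seed8.H282R4.PK.Defs

/-!
Plane packings of unit squares around the container `[0, n + sg]²`, `0 < sg < 1`. The files of this
folder follow the files of the same names in `Pool/Graph/R_seed8/H282R4/PK` (the case `sg = 1/2`).
-/

namespace H40.PK

open H282R4.PK

open MeasureTheory
open scoped Real ENNReal
open H282R3.SQ (USq)

/-- the container `[0, n + sg]²` -/
def box (n : ℕ) (sg : ℝ) : Set (ℝ × ℝ) :=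
  {z | 0 ≤ z.1 ∧ z.1 ≤ n + sg ∧ 0 ≤ z.2 ∧ z.2 ≤ n + sg}

/-- Packing of the plane by unit squares, perfect and axis-parallel outside `[0,n+1/2]²`, with
uncovered area at most `W`. -/
structure PP (n : ℕ) (sg : ℝ) {ι : Type} (Q : ι → USq) (W : ℝ) : Prop where
  sg_pos : 0 < sg
  sg_lt : sg < 1
  norm : ∀ i, |(Q i).b| ≤ (Q i).a
  disj : ∀ i j, i ≠ j → Disjoint (Q i).O (Q j).O
  W_nonneg : 0 ≤ W
  gap : volume (Gap Q) ≤ ENNReal.ofReal W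
  out_cov : ∀ z : ℝ × ℝ, z ∉ box n sg → ∃ i, z ∈ (Q i).C
  out_ax : ∀ i, ¬ (Q i).C ⊆ box n sg → (Q i).b = 0
  bottom : ∀ i, ∀ z ∈ (Q i).C, 0 < z.1 → z.1 < n + sg → z.2 < 0 →
    ∃ m : ℤ, (Q i).q = m + 1 / 2
  top : ∀ i, ∀ z ∈ (Q i).C, 0 < z.1 → z.1 < n + sg → (n : ℝ) + sg < z.2 →
    ∃ m : ℤ, (Q i).q = m + 1 / 2 + sg
  left : ∀ i, ∀ z ∈ (Q i).C, 0 < z.2 → z.2 < n + sg → z.1 < 0 →
    ∃ m : ℤ, (Q i).p = m + 1 / 2
  right : ∀ i, ∀ z ∈ (Q i).C, 0 < z.2 → z.2 < n + sg → (n : ℝ) + sg < z.1 →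
    ∃ m : ℤ, (Q i).p = m + 1 / 2 + sg

/-- The state of the flow at level `k`: alive set `P`, accumulated phase `Λ`, accumulated error
`Er`, potential `m`; `s`, `e` are the total waste and energy of the levels below `k`. -/
structure FS {ι : Type} (n : ℕ) (sg : ℝ) (Q : ι → USq) (τ : ℝ) (k : ℤ) (P : Set ℝ) (Λ Er m : ℝ → ℝ)
    (s e : ℝ) : Prop where
  sg_pos : 0 < sg
  sg_lt : sg < 1
  measP : MeasurableSet P
  measΛ : Measurable Λ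
  measEr : Measurable Er
  measm : Measurable m
  sub : P ⊆ Set.Icc (-((k : ℝ) + 1) / 4) ((n : ℝ) + sg + ((k : ℝ) + 1) / 4)
  Λ_nonneg : ∀ X ∈ P, 0 ≤ Λ X
  Er_nonneg : ∀ X ∈ P, 0 ≤ Er X
  m_ge : ∀ X ∈ P, gam Q (⌊X⌋, k) ≤ m X
  phase : ∀ X ∈ P, ‖F Q (X, (k : ℝ)) + Complex.exp (Complex.I * (Λ X : ℝ))‖ ≤ Er X
  err : ∫⁻ X in P, ENNReal.ofReal (Er X) ≤ ENNReal.ofReal (10 ^ 20 * s)
  pot : (∫⁻ X in P, ENNReal.ofReal (m X)) + ENNReal.ofReal (τ * (n + sg)) ≤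
    ENNReal.ofReal τ * volume P + ENNReal.ofReal (10 * C0 * s + 4 * C0 * lvl n Q k)
  left : volume (P ∩ Set.Iio 0) ≤ ENNReal.ofReal (4 * C0 * s)
  right : volume (P ∩ Set.Ioi ((n : ℝ) + sg)) ≤ ENNReal.ofReal (4 * C0 * s)
  var : eVariationOn Λ P ≤ ENNReal.ofReal (100 * τ * C0 * s)
  en : ∫⁻ X in P, ENNReal.ofReal (Λ X) ≤ ENNReal.ofReal (π * e)

end H40.PK
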