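import Pool.Agent.H40.PK.Defs
import Pool.Agent.H40.PK.Combine
import Pool.Agent.H40.PK.Pinwheel

/-! T21: the wasted area is at least `10^(-30) min (z, z^(3/5))`, `z = d (n+sg)`. -/

namespace H40.PK

open H282R4.PK

open MeasureTheory
open scoped Real ENNReal
open H282R3.SQ (USq)

theorem PP.mono {n : ℕ} {sg : ℝ} {ι : Type} {Q : ι → USq} {W W' : ℝ} (h : PP n sg Q W)
    (hW : W ≤ W') : PP n sg Q W' where
  sg_pos := h.sg_pos
  sg_lt := h.sg_lt
  norm := h.norm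
  disj := h.disj
  W_nonneg := h.W_nonneg.trans hW
  gap := h.gap.trans (ENNReal.ofReal_le_ofReal hW)
  out_cov := h.out_cov
  out_ax := h.out_ax
  bottom := h.bottom
  top := h.top
  left := h.left
  right := h.right

/-- T21, for all fractional parts: `d` is any number with `d ≤ sg` and `d ≤ 1 - sg`. -/
theorem waste_lower {n N : ℕ} {sg d : ℝ} (hn : 1 ≤ n) (hd : 0 < d) (hd1 : d ≤ sg)
    (hd2 : d ≤ 1 - sg) (Q0 : Fin N → USq) (hin : ∀ i, (Q0 i).C ⊆ box n sg)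
    (hdisj : ∀ i j, i ≠ j → Disjoint (Q0 i).O (Q0 j).O) :
    1 / 10 ^ 30 * min (d * ((n : ℝ) + sg)) ((d * ((n : ℝ) + sg)) ^ ((3 : ℝ) / 5)) ≤
      ((n : ℝ) + sg) ^ 2 - N := by
  obtain ⟨ι, hι, Q, hPP⟩ := exists_PP n N (sg := sg) (by linarith) (by linarith) Q0 hin hdisj
  have h0 : (0 : ℝ) ≤ ((n : ℝ) + sg) ^ 2 - N := hPP.W_nonneg
  refine le_of_forall_pos_le_add fun ε hε => ?_
  exact combine hn hd hd1 hd2 (W := ((n : ℝ) + sg) ^ 2 - N + ε) (by linarith)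
    (hPP.mono (by linarith))

end H40.PK
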